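import Pool.Agent.WAG.ADefs

/-!
# GT2: Frobenius eigenvalues of abelian surfaces (MP_cb388a_ag, helper88): definitions and basic facts

`h = x² + A x + B` is the real Weil polynomial of an abelian surface over the field with `q` elements.
-/

set_option autoImplicit false

namespace Pool.Agent.GT2

noncomputable section

/-- the discriminant `A² - 4 B` of `h` -/
def DD (A B : ℤ) : ℤ := A ^ 2 - 4 * B

/-- `(B + 4 q)² - 4 q A²`, the norm of `t² - 4 q`, `t` a root of `h` -/
def DP (q : ℕ) (A B : ℤ) : ℤ := (B + 4 * q) ^ 2 - 4 * q * A ^ 2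

/-- all roots of `x² + A x + B` are real and in `[-2√q, 2√q]` -/
structure W2 (q : ℕ) (A B : ℤ) : Prop where
  d : 0 ≤ DD A B
  dp : 0 ≤ DP q A B
  s : 0 ≤ B + 4 * q
  a : A ^ 2 ≤ 16 * q

/-- the Galois group is dihedral of order eight, and the eigenvalues are not supersingular -/
def Gen (q : ℕ) (A B : ℤ) : Prop :=
  ¬ IsSquare (DD A B) ∧ ¬ IsSquare (DP q A B) ∧ ¬ IsSquare (DD A B * DP q A B) ∧
    ¬ ((q : ℤ) ∣ A ∧ (q : ℤ) ∣ B)

/-- reflex pairs: the quartic CM field of the second surface is the reflex field of the first one -/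
def Reflex (q : ℕ) (A B A₁ B₁ : ℤ) : Prop :=
  Gen q A B ∧ Gen q A₁ B₁ ∧ ∃ n m : ℤ, n ^ 2 = DD A B * DP q A₁ B₁ ∧
    m ^ 2 = DP q A B * DD A₁ B₁ ∧
    IsSquare ((A ^ 2 - 2 * B - 8 * q) * (A₁ ^ 2 - 2 * B₁ - 8 * q) + 2 * A * n + 2 * A₁ * m)

section

variable {L : Type} [Field L]

/-- `a` is a root of `x² h(x + q / x)` -/
def Rt (q : ℕ) (A B : ℤ) (a : L) : Prop :=
  a ≠ 0 ∧ (a + q / a) ^ 2 + A * (a + q / a) + B = 0

/-- the slope `1 - 2 w(x)`, `w` the valuation with `w(q) = 1` -/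
def F (q : ℕ) (v : AbsoluteValue L ℝ) (x : L) : ℝ :=
  1 - 2 * (Real.log (v x) / Real.log (v (q : L)))

variable [CharZero L] {q : ℕ} {A B : ℤ} {a b : L}

lemma qne (hq : 1 ≤ q) : (q : L) ≠ 0 := Nat.cast_ne_zero.2 (by omega)

lemma bar_ne (hq : 1 ≤ q) (ha : a ≠ 0) : (q : L) / a ≠ 0 := div_ne_zero (qne hq) ha

lemma bar_bar (hq : 1 ≤ q) (ha : a ≠ 0) : (q : L) / ((q : L) / a) = a := by
  have := qne (L := L) hq
  field_simp

lemma bar_add (hq : 1 ≤ q) (ha : a ≠ 0) : (q : L) / a + q / ((q : L) / a) = a + q / a := by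
  rw [bar_bar hq ha, add_comm]

/-- `q / a` is a root -/
lemma Rt.bar (hq : 1 ≤ q) (h : Rt q A B a) : Rt q A B ((q : L) / a) := by
  refine ⟨bar_ne hq h.1, ?_⟩
  rw [bar_add hq h.1]
  exact h.2

/-- two numbers with the same `x + q / x` -/
lemma eq_or_bar (ha : a ≠ 0) (hb : b ≠ 0) (h : b + (q : L) / b = a + q / a) :
    b = a ∨ b = (q : L) / a := by
  have h1 : (b - a) * (b - (q : L) / a) = 0 := by
    have h2 : b ^ 2 + q = b * (a + (q : L) / a) := by
      rw [← h]
      field_simp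
    have h3 : (a : L) * (q / a) = q := by
      field_simp
    linear_combination h2 + h3
  rcases mul_eq_zero.1 h1 with h | h
  · exact Or.inl (sub_eq_zero.1 h)
  · exact Or.inr (sub_eq_zero.1 h)

/-- two roots of the same polynomial -/
lemma Rt.two (ha : Rt q A B a) (hb : Rt q A B b) :
    b + (q : L) / b = a + q / a ∨ b + (q : L) / b = - A - (a + q / a) := by
  have h1 : ((b + (q : L) / b) - (a + q / a)) * ((b + (q : L) / b) + A + (a + q / a)) = 0 := by
    linear_combination hb.2 - ha.2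
  rcases mul_eq_zero.1 h1 with h | h
  · exact Or.inl (sub_eq_zero.1 h)
  · right
    linear_combination h

/-- the square root of the discriminant -/
lemma Rt.disc (ha : Rt q A B a) : (2 * (a + (q : L) / a) + A) ^ 2 = ((DD A B : ℤ) : L) := by
  unfold DD
  push_cast
  linear_combination 4 * ha.2

/-- `(a - q / a)² = (a + q / a)² - 4 q` -/
lemma sub_sq (hq : 1 ≤ q) (ha : a ≠ 0) : (a - (q : L) / a) ^ 2 = (a + q / a) ^ 2 - 4 * q := by
  have := qne (L := L) hq
  field_simp
  ring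

/-- the square root of `DP` -/
lemma Rt.dp (hq : 1 ≤ q) (ha : Rt q A B a) (hb : b ≠ 0)
    (h : b + (q : L) / b = - A - (a + q / a)) :
    ((a - (q : L) / a) * (b - (q : L) / b)) ^ 2 = ((DP q A B : ℤ) : L) := by
  rw [mul_pow, sub_sq hq ha.1, sub_sq hq hb, h]
  unfold DP
  push_cast
  linear_combination (((a + (q : L) / a) ^ 2 + A * (a + (q : L) / a)) - B - 8 * q) * ha.2

/-- the other root is a root -/
lemma Rt.other (ha : Rt q A B a) (hb : b ≠ 0) (h : b + (q : L) / b = - A - (a + q / a)) :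
    Rt q A B b := by
  refine ⟨hb, ?_⟩
  rw [h]
  linear_combination ha.2

end

section

variable {L : Type} [Field L] [NumberField L] {q : ℕ} {A B : ℤ} {a : L}

/-- automorphisms -/
lemma map_bar (σ : L ≃ₐ[ℚ] L) (x : L) : σ ((q : L) / x) = (q : L) / σ x := by
  rw [map_div₀, map_natCast]

lemma map_tr (σ : L ≃ₐ[ℚ] L) (x : L) : σ (x + (q : L) / x) = σ x + (q : L) / σ x := by
  rw [map_add, map_bar]

lemma Rt.map (h : Rt q A B a) (σ : L ≃ₐ[ℚ] L) : Rt q A B (σ a) := by
  refine ⟨(map_ne_zero σ).2 h.1, ?_⟩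
  have := congrArg σ h.2
  rw [map_add, map_add, map_pow, map_mul, map_tr, map_intCast, map_intCast, map_zero] at this
  exact this

/-- a fixed number whose square is an integer `N`: `N` is a square -/
lemma sq_of_fixed [IsGalois ℚ L] {x : L} {N : ℤ} (hx : ∀ σ : L ≃ₐ[ℚ] L, σ x = x)
    (h : x ^ 2 = (N : L)) : IsSquare N := by
  obtain ⟨y, hy⟩ := (IsGalois.mem_bot_iff_fixed (F := ℚ) (E := L) x).2 hx
  have hy' : algebraMap ℚ L y = x := hy
  have h1 : y ^ 2 = (N : ℚ) := by
    have h2 : algebraMap ℚ L (y ^ 2) = algebraMap ℚ L (N : ℚ) := by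
      rw [map_pow, hy', h, map_intCast]
    exact (algebraMap ℚ L).injective h2
  have h3 : IsSquare (N : ℚ) := ⟨y, by rw [← h1]; ring⟩
  exact Rat.isSquare_intCast_iff.1 h3

/-- a fixed number whose square is an integer is an integer -/
lemma int_of_fixed [IsGalois ℚ L] {x : L} {N : ℤ} (hx : ∀ σ : L ≃ₐ[ℚ] L, σ x = x)
    (h : x ^ 2 = (N : L)) : ∃ n : ℤ, x = n ∧ n ^ 2 = N := by
  obtain ⟨r, hr⟩ := sq_of_fixed hx h
  have h1 : (x - r) * (x + r) = 0 := by
    have : (N : L) = (r : L) * r := by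
      rw [hr]
      push_cast
      ring
    linear_combination h + this
  rcases mul_eq_zero.1 h1 with h2 | h2
  · exact ⟨r, by linear_combination h2, by rw [hr]; ring⟩
  · exact ⟨-r, by push_cast; linear_combination h2, by rw [hr]; ring⟩

/-- a number whose square is a square is fixed -/
lemma fixed_of_sq {x : L} {N : ℤ} (hN : IsSquare N) (h : x ^ 2 = (N : L)) (σ : L ≃ₐ[ℚ] L) :
    σ x = x := by
  obtain ⟨r, hr⟩ := hN
  have h1 : (x - r) * (x + r) = 0 := by
    have : (N : L) = (r : L) * r := by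
      rw [hr]
      push_cast
      ring
    linear_combination h + this
  rcases mul_eq_zero.1 h1 with h2 | h2
  · have h3 : x = r := by linear_combination h2
    rw [h3, map_intCast]
  · have h3 : x = -(r : L) := by linear_combination h2
    rw [h3, map_neg, map_intCast]

/-- a number whose square is an integer is fixed or changes the sign -/
lemma map_pm {x : L} {N : ℤ} (h : x ^ 2 = (N : L)) (σ : L ≃ₐ[ℚ] L) : σ x = x ∨ σ x = -x := by
  have h1 := congrArg σ h
  rw [map_pow, map_intCast, ← h] at h1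
  exact sq_eq_sq_iff_eq_or_eq_neg.1 h1

end

end

end Pool.Agent.GT2
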