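import Pool.Agent.GT2.St

/-!
# GT2: module CHR (helper71), a quadratic number in the field of a root
-/

set_option autoImplicit false

open Polynomial

namespace Pool.Agent.GT2

noncomputable section

theorem t_CHR : S_CHR := by
  intro L _ _ _ q hq A B a ha hD hρ y N hy hN hfix
  obtain ⟨ρ, hρ⟩ := hρ
  have hr2 := ha.disc
  set r : L := 2 * (a + (q : L) / a) + A with hr
  have hr0 : r ≠ 0 := by
    intro h0
    rw [h0] at hr2
    apply hD
    have h1 : DD A B = 0 := by
      have h2 : ((DD A B : ℤ) : L) = 0 := by rw [← hr2]; ring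
      exact_mod_cast h2
    rw [h1]
    exact ⟨0, by ring⟩
  have hy0 : y ≠ 0 := by
    intro h0
    rw [h0] at hy
    apply hN
    have h1 : N = 0 := by
      have h2 : (N : L) = 0 := by rw [← hy]; ring
      exact_mod_cast h2
    rw [h1]
    exact ⟨0, by ring⟩
  have hny : y ≠ -y := by
    intro h
    have h2 : (2 : L) * y = 0 := by linear_combination h
    rcases mul_eq_zero.1 h2 with h3 | h3
    · exact two_ne_zero h3
    · exact hy0 h3
  have hρy : ρ (ρ y) = y := by
    rcases map_pm hy ρ with h | h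
    · rw [h, h]
    · rw [h, map_neg, h, neg_neg]
  have c1 : ∀ σ : L ≃ₐ[ℚ] L, σ r = r → σ y = y := by
    intro σ hσ
    have h1 : σ a + (q : L) / σ a = a + q / a := by
      have h2 : σ r = 2 * (σ a + (q : L) / σ a) + A := by
        rw [hr, map_add, map_mul, map_tr, map_intCast]
        have h3 : σ (2 : L) = 2 := map_ofNat σ 2
        rw [h3]
      rw [h2, hr] at hσ
      have h4 : (2 : L) * (σ a + (q : L) / σ a) = 2 * (a + q / a) := add_right_cancel hσ
      exact mul_left_cancel₀ two_ne_zero h4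
    rcases eq_or_bar ha.1 ((map_ne_zero σ).2 ha.1) h1 with h | h
    · exact hfix σ h
    · have h5 := hfix ((ρ * ρ)⁻¹ * σ) (by
        show (ρ * ρ)⁻¹ (σ a) = a
        rw [h, ← hρ]
        show (ρ * ρ)⁻¹ ((ρ * ρ) a) = a
        rw [← AlgEquiv.mul_apply, inv_mul_cancel]
        rfl)
      have h6 : (ρ * ρ) ((ρ * ρ)⁻¹ (σ y)) = (ρ * ρ) y := congrArg (ρ * ρ) h5
      rw [← AlgEquiv.mul_apply, mul_inv_cancel] at h6
      have h7 : σ y = ρ (ρ y) := h6
      rw [h7, hρy]
  obtain ⟨σ₁, hσ₁⟩ : ∃ σ₁ : L ≃ₐ[ℚ] L, σ₁ y = -y := by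
    by_contra hcon
    push Not at hcon
    apply hN
    refine sq_of_fixed (x := y) (fun σ => ?_) hy
    rcases map_pm hy σ with h | h
    · exact h
    · exact absurd h (hcon σ)
  have hσ₁r : σ₁ r = -r := by
    rcases map_pm hr2 σ₁ with h | h
    · exact absurd ((c1 σ₁ h).symm.trans hσ₁) hny
    · exact h
  have c2 : ∀ σ : L ≃ₐ[ℚ] L, σ r = -r → σ y = -y := by
    intro σ hσ
    rcases map_pm hy σ with h | h
    · exfalso
      have e1 : σ⁻¹ r = -r := by
        have h1 : σ⁻¹ (σ r) = σ⁻¹ (-r) := congrArg _ hσ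
        rw [← AlgEquiv.mul_apply, inv_mul_cancel, map_neg] at h1
        have h2 : r = -σ⁻¹ r := h1
        rw [h2, neg_neg, ← h2]
      have e2 : σ⁻¹ y = y := by
        have h1 : σ⁻¹ (σ y) = σ⁻¹ y := congrArg _ h
        rw [← AlgEquiv.mul_apply, inv_mul_cancel] at h1
        exact h1.symm
      have h3 := c1 (σ₁ * σ⁻¹) (by
        show σ₁ (σ⁻¹ r) = r
        rw [e1, map_neg, hσ₁r, neg_neg])
      have h4 : σ₁ (σ⁻¹ y) = y := h3
      rw [e2] at h4
      exact hny (h4.symm.trans hσ₁)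
    · exact h
  have hprod : ∀ σ : L ≃ₐ[ℚ] L, σ (r * y) = r * y := by
    intro σ
    rw [map_mul]
    rcases map_pm hr2 σ with h | h
    · rw [h, c1 σ h]
    · rw [h, c2 σ h]
      ring
  obtain ⟨n, hn1, hn2⟩ := int_of_fixed (x := r * y) (N := DD A B * N) hprod (by
    rw [mul_pow, hr2, hy]
    push_cast
    ring)
  exact ⟨n, hn1, hn2⟩

end

end Pool.Agent.GT2
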