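import Pool.Agent.GT2.St

/-!
# CMB: partners in a list of pairwise equal, opposite or orthogonal functions
-/

set_option autoImplicit false

open scoped Classical

namespace Pool.Agent.GT2

namespace CMBAux

section
variable {V : Type} [AddCommGroup V] [Module ℝ V]

theorem neg_ne {y : V} (hy : y ≠ 0) : -y ≠ y := by
  intro h
  apply hy
  have h2 : (2 : ℝ) • y = 0 := by
    rw [two_smul]
    nth_rewrite 1 [← h]
    exact neg_add_cancel y
  exact (smul_eq_zero.1 h2).resolve_left two_ne_zero

theorem sum_map (t : V →ₗ[ℝ] ℝ) {y : V} (hy : y ≠ 0) (M : List V)
    (h : ∀ z ∈ M, z = y ∨ z = -y ∨ t z = 0) :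
    (M.map t).sum = t y * ((M.count y : ℝ) - M.count (-y)) := by
  induction M with
  | nil => simp
  | cons z M ih =>
    have ih' := ih fun w hw => h w (List.mem_cons_of_mem z hw)
    rw [List.map_cons, List.sum_cons, ih', List.count_cons, List.count_cons]
    rcases h z List.mem_cons_self with h1 | h1 | h1
    · subst h1
      have h2 : ¬ z = -z := fun h3 => neg_ne hy h3.symm
      simp only [beq_self_eq_true, if_true, beq_iff_eq, h2, if_false]
      push_cast
      ring
    · subst h1
      have h2 : ¬ -y = y := neg_ne hy
      simp only [beq_self_eq_true, if_true, beq_iff_eq, h2, if_false, map_neg]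
      push_cast
      ring
    · by_cases h2 : z = y
      · subst h2
        rw [h1]
        ring
      · by_cases h3 : z = -y
        · have h4 : t y = 0 := by
            have : t z = - t y := by rw [h3, map_neg]
            linarith
          rw [h4, h1]
          ring
        · simp only [beq_iff_eq, h2, h3, if_false, h1]
          push_cast
          ring

theorem even_of_count : ∀ (n : ℕ) (N : List V), N.length = n → (∀ y ∈ N, y ≠ 0) →
    (∀ y : V, N.count y = N.count (-y)) → Even N.length := by
  intro n
  induction n using Nat.strong_induction_on with
  | _ n ih =>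
    intro N hn h0 hc
    cases N with
    | nil => exact ⟨0, rfl⟩
    | cons y N =>
      have hy : y ≠ 0 := h0 y List.mem_cons_self
      have h1 : -y ∈ N := by
        have h2 : 0 < (y :: N).count (-y) := by
          rw [← hc y]
          exact List.count_pos_iff.2 List.mem_cons_self
        rcases List.mem_cons.1 (List.count_pos_iff.1 h2) with h3 | h3
        · exact absurd h3 (neg_ne hy)
        · exact h3
      have hl : (N.erase (-y)).length + 1 = N.length := by
        rw [List.length_erase_of_mem h1]
        have := List.length_pos_of_mem h1
        omega
      have hE : Even (N.erase (-y)).length := by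
        refine ih _ ?_ (N.erase (-y)) rfl (fun z hz => h0 z (List.mem_cons_of_mem y
          (List.mem_of_mem_erase hz))) ?_
        · rw [← hn, List.length_cons]
          omega
        · intro z
          have e1 := hc z
          rw [List.count_cons, List.count_cons] at e1
          rw [List.count_erase, List.count_erase]
          by_cases hz1 : z = y
          · subst hz1
            have h2 : ¬ z = -z := fun h3 => neg_ne hy h3.symm
            have h3 : 0 < N.count (-z) := List.count_pos_iff.2 h1
            simp only [beq_self_eq_true, if_true, beq_iff_eq, h2, if_false, neg_ne hy,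
              neg_inj] at e1 ⊢
            simp only [eq_comm, h2, neg_ne hy, if_false, if_true] at e1 ⊢
            omega
          · by_cases hz2 : z = -y
            · subst hz2
              have h2 : ¬ y = -y := fun h3 => neg_ne hy h3.symm
              have h3 : 0 < N.count (-y) := List.count_pos_iff.2 h1
              simp only [beq_iff_eq, neg_neg, h2, if_false, if_true] at e1 ⊢
              simp only [h2, if_false, neg_ne hy] at e1 ⊢
              omega
            · have h2 : ¬ y = z := fun h => hz1 h.symm
              have h3 : ¬ y = -z := fun h => hz2 (by rw [h, neg_neg])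
              have h4 : ¬ -y = z := fun h => hz2 h.symm
              have h5 : ¬ -y = -z := fun h => hz1 (neg_inj.1 h).symm
              simp only [beq_iff_eq, h2, h3, h4, h5, if_false] at e1 ⊢
              omega
      rw [List.length_cons, ← hl]
      obtain ⟨m, hm⟩ := hE
      exact ⟨m + 1, by omega⟩

/-- The list step: a list with sum `0` whose elements are separated up to sign. -/
theorem partner (x : V) (L : List V)
    (hd : ∀ y ∈ x :: L, y ≠ 0 → ∃ t : V →ₗ[ℝ] ℝ, t y ≠ 0 ∧
      ∀ z ∈ x :: L, z = y ∨ z = -y ∨ t z = 0)
    (hs : x + L.sum = 0) (hL : Odd L.length) : ∃ y ∈ L, y = -x := by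
  have hc : ∀ y ∈ x :: L, y ≠ 0 → (x :: L).count y = (x :: L).count (-y) := by
    intro y hy h0
    obtain ⟨t, h1, h2⟩ := hd y hy h0
    have h3 := sum_map t h0 (x :: L) h2
    have h4 : ((x :: L).map t).sum = 0 := by
      rw [← map_list_sum, List.sum_cons, hs, map_zero]
    rw [h4] at h3
    have h5 : ((x :: L).count y : ℝ) - (x :: L).count (-y) = 0 :=
      (mul_eq_zero.1 h3.symm).resolve_left h1
    exact_mod_cast sub_eq_zero.1 h5
  by_cases hx : x = 0
  · -- the nonzero elements cancel
    have hN : Even ((x :: L).filter fun z => z ≠ 0).length := by
      refine even_of_count _ _ rfl ?_ ?_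
      · intro y hy
        have := List.of_mem_filter hy
        simpa using this
      · intro y
        by_cases h0 : y = 0
        · rw [h0, neg_zero]
        · by_cases hy : y ∈ x :: L
          · rw [List.count_filter (by simpa using h0), List.count_filter (by simpa using h0)]
            exact hc y hy h0
          · by_cases hy' : -y ∈ x :: L
            · have h1 := hc (-y) hy' (neg_ne_zero.2 h0)
              rw [neg_neg] at h1
              rw [List.count_filter (by simpa using h0), List.count_filter (by simpa using h0)]
              exact h1.symm
            · rw [List.count_filter (by simpa using h0), List.count_filter (by simpa using h0),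
                List.count_eq_zero_of_not_mem hy, List.count_eq_zero_of_not_mem hy']
    have h1 : ((x :: L).filter fun z => z ≠ 0) = L.filter fun z => z ≠ 0 := by
      rw [List.filter_cons_of_neg (by simpa using hx)]
    rw [h1] at hN
    by_contra hne
    push Not at hne
    have h2 : L.filter (fun z => z ≠ 0) = L := by
      rw [List.filter_eq_self]
      intro y hy
      have h3 := hne y hy
      rw [hx, neg_zero] at h3
      simpa using h3
    rw [h2] at hN
    exact (Nat.not_even_iff_odd.2 hL) hN
  · have h1 := hc x List.mem_cons_self hx
    have h2 : 0 < (x :: L).count (-x) := by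
      rw [← h1]
      exact List.count_pos_iff.2 List.mem_cons_self
    rcases List.mem_cons.1 (List.count_pos_iff.1 h2) with h3 | h3
    · exact absurd h3 (neg_ne hx)
    · exact ⟨-x, h3, rfl⟩

end

end CMBAux

open CMBAux in
theorem t_CMB : S_CMB := by
  intro Γ _ l x hp hs hl
  refine partner x l ?_ (by rw [← List.sum_cons]; exact hs) hl
  intro y hy h0
  let t : (Γ → ℝ) →ₗ[ℝ] ℝ :=
    { toFun := fun z => ∑ σ, y σ * z σ
      map_add' := fun z w => by
        rw [← Finset.sum_add_distrib]
        exact Finset.sum_congr rfl fun σ _ => by rw [Pi.add_apply]; ring
      map_smul' := fun c z => by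
        rw [RingHom.id_apply, smul_eq_mul, Finset.mul_sum]
        exact Finset.sum_congr rfl fun σ _ => by rw [Pi.smul_apply, smul_eq_mul]; ring }
  refine ⟨t, ?_, fun z hz => ?_⟩
  · intro h
    apply h0
    have h1 : ∑ σ, y σ * y σ = 0 := h
    rw [Finset.sum_eq_zero_iff_of_nonneg fun σ _ => mul_self_nonneg _] at h1
    funext σ
    exact mul_self_eq_zero.1 (h1 σ (Finset.mem_univ σ))
  · rcases hp y hy z hz with h | h | h
    · exact Or.inl h.symm
    · right
      left
      rw [h, neg_neg]
    · exact Or.inr (Or.inr h)

end Pool.Agent.GT2
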