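import Pool.Agent.GT2.St

/-!
# GT2, module CNV: real Weil polynomials of degree two
-/

set_option autoImplicit false

open Polynomial

namespace Pool.Agent.GT2

namespace CNVAux

/-- the value of a monic polynomial of degree two -/
lemma aeval_two {h : ℤ[X]} (hm : h.Monic) (hd : h.natDegree = 2) (z : ℂ) :
    aeval z h = z ^ 2 + (h.coeff 1 : ℂ) * z + (h.coeff 0 : ℂ) := by
  have h2 : h.coeff 2 = 1 := by
    have := hm.coeff_natDegree
    rwa [hd] at this
  rw [aeval_eq_sum_range, hd]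
  simp only [Finset.sum_range_succ, Finset.sum_range_zero, h2, pow_zero, pow_one, zsmul_eq_mul]
  push_cast
  ring

/-- the inequalities for the real roots `t`, `t'` -/
lemma real_bd {q t t' : ℝ} (hq : 0 ≤ q) (h1 : |t| ≤ 2 * Real.sqrt q)
    (h2 : |t'| ≤ 2 * Real.sqrt q) :
    0 ≤ (t * t' + 4 * q) ^ 2 - 4 * q * (t + t') ^ 2 ∧ 0 ≤ t * t' + 4 * q ∧
      (t + t') ^ 2 ≤ 16 * q := by
  have hs : Real.sqrt q ^ 2 = q := Real.sq_sqrt hq
  have hs0 : 0 ≤ Real.sqrt q := Real.sqrt_nonneg q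
  have e1 : t ^ 2 ≤ 4 * q := by
    have := sq_le_sq' (by linarith [neg_abs_le t] : -(2 * Real.sqrt q) ≤ t)
      ((le_abs_self t).trans h1)
    nlinarith
  have e2 : t' ^ 2 ≤ 4 * q := by
    have := sq_le_sq' (by linarith [neg_abs_le t'] : -(2 * Real.sqrt q) ≤ t')
      ((le_abs_self t').trans h2)
    nlinarith
  refine ⟨?_, ?_, ?_⟩
  · have : (t * t' + 4 * q) ^ 2 - 4 * q * (t + t') ^ 2 = (4 * q - t ^ 2) * (4 * q - t' ^ 2) := by
      ring
    rw [this]
    exact mul_nonneg (by linarith) (by linarith)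
  · nlinarith [sq_nonneg (t + t')]
  · nlinarith [sq_nonneg (t - t')]

end CNVAux

open CNVAux in
/-- MODULE CNV. -/
theorem t_CNV : S_CNV := by
  intro q hq h hh
  obtain ⟨hm, hd, hr⟩ := hh
  set A : ℤ := h.coeff 1 with hA
  set B : ℤ := h.coeff 0 with hB
  have hev : ∀ z : ℂ, aeval z h = z ^ 2 + (A : ℂ) * z + (B : ℂ) := fun z => aeval_two hm hd z
  constructor
  · obtain ⟨s, hs⟩ : ∃ s : ℂ, s ^ 2 = ((DD A B : ℤ) : ℂ) :=
      IsAlgClosed.exists_pow_nat_eq _ (by norm_num)
    have hs' : s ^ 2 = (A : ℂ) ^ 2 - 4 * (B : ℂ) := by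
      rw [hs]
      unfold DD
      push_cast
      ring
    have r1 := hr ((-(A : ℂ) + s) / 2) (by
      rw [hev]
      linear_combination hs' / 4)
    have r2 := hr ((-(A : ℂ) - s) / 2) (by
      rw [hev]
      linear_combination hs' / 4)
    have hsim : s.im = 0 := by
      have h3 := r1.1
      have h4 : ((-(A : ℂ) + s) / 2).im = s.im / 2 := by
        simp
      rw [h4] at h3
      linarith
    set u : ℝ := s.re with hu
    have hsu : s = (u : ℂ) := Complex.ext (by simp [hu]) (by simp [hsim])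
    have hu2 : u ^ 2 = (A : ℝ) ^ 2 - 4 * (B : ℝ) := by
      rw [hsu] at hs'
      exact_mod_cast hs'
    have t1 : |(-(A : ℝ) + u) / 2| ≤ 2 * Real.sqrt q := by
      have h4 : ((-(A : ℂ) + s) / 2).re = (-(A : ℝ) + u) / 2 := by
        rw [hsu]
        have : (-(A : ℂ) + (u : ℂ)) / 2 = (((-(A : ℝ) + u) / 2 : ℝ) : ℂ) := by
          push_cast
          ring
        rw [this, Complex.ofReal_re]
      rw [← h4]
      exact r1.2
    have t2 : |(-(A : ℝ) - u) / 2| ≤ 2 * Real.sqrt q := by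
      have h4 : ((-(A : ℂ) - s) / 2).re = (-(A : ℝ) - u) / 2 := by
        rw [hsu]
        have : (-(A : ℂ) - (u : ℂ)) / 2 = (((-(A : ℝ) - u) / 2 : ℝ) : ℂ) := by
          push_cast
          ring
        rw [this, Complex.ofReal_re]
      rw [← h4]
      exact r2.2
    obtain ⟨b1, b2, b3⟩ := real_bd (Nat.cast_nonneg q) t1 t2
    have hp : (-(A : ℝ) + u) / 2 * ((-(A : ℝ) - u) / 2) = (B : ℝ) := by
      linear_combination -hu2 / 4
    have hsum : (-(A : ℝ) + u) / 2 + (-(A : ℝ) - u) / 2 = -(A : ℝ) := by ring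
    rw [hp, hsum] at b1
    rw [hp] at b2
    rw [hsum] at b3
    refine ⟨?_, ?_, ?_, ?_⟩
    · have : (0 : ℝ) ≤ ((DD A B : ℤ) : ℝ) := by
        unfold DD
        push_cast
        rw [← hu2]
        positivity
      exact_mod_cast this
    · have : (0 : ℝ) ≤ ((DP q A B : ℤ) : ℝ) := by
        unfold DP
        push_cast
        rw [neg_sq] at b1
        exact b1
      exact_mod_cast this
    · exact_mod_cast b2
    · rw [neg_sq] at b3
      exact_mod_cast b3
  · intro r hr0 hra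
    refine ⟨hr0, ?_⟩
    rw [hev] at hra
    exact hra

end Pool.Agent.GT2
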