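import Pool.Agent.GT2.St

/-!
# GT2: complex conjugation
-/

set_option autoImplicit false

open Polynomial NumberField

namespace Pool.Agent.GT2

namespace CONAux

/-- a nonzero root of `z² - T z + q` with `T` real, `T² ≤ 4 q`, has `conj z = q / z` -/
lemma conj_eq {q : ℕ} {z : ℂ} (hz : z ≠ 0) (h1 : (z + q / z).im = 0)
    (h2 : (z + q / z).re ^ 2 ≤ 4 * q) : (starRingEnd ℂ) z = q / z := by
  set T : ℝ := (z + q / z).re with hT
  have h3 : z + q / z = (T : ℂ) := by
    apply Complex.ext
    · rw [Complex.ofReal_re]
    · rw [Complex.ofReal_im]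
      exact h1
  have h4 : z ^ 2 - T * z + q = 0 := by
    rw [← h3]
    field_simp
    ring
  obtain ⟨x, y⟩ := z
  have hre := congrArg Complex.re h4
  have him := congrArg Complex.im h4
  simp only [Complex.add_re, Complex.sub_re, Complex.add_im, Complex.sub_im, pow_two,
    Complex.mul_re, Complex.mul_im, Complex.ofReal_re, Complex.ofReal_im, Complex.natCast_re,
    Complex.natCast_im, Complex.zero_re, Complex.zero_im] at hre him
  have h5 : x ^ 2 + y ^ 2 = q := by
    by_cases hy : y = 0
    · have h6 : x ^ 2 - T * x + q = 0 := by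
        rw [hy] at hre
        linear_combination hre
      have h7 : (2 * x - T) ^ 2 = T ^ 2 - 4 * q := by linear_combination 4 * h6
      have h8 : (2 * x - T) ^ 2 = 0 := le_antisymm (by rw [h7]; linarith) (sq_nonneg _)
      have h9 : 2 * x - T = 0 := by
        rcases pow_eq_zero_iff (n := 2) (by norm_num) |>.1 h8 with h
        exact h
      rw [hy]
      have h10 : T = 2 * x := by linarith
      rw [h10] at h6
      linear_combination -h6
    · have h6 : 2 * x - T = 0 := by
        have : y * (2 * x - T) = 0 := by linear_combination him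
        rcases mul_eq_zero.1 this with h | h
        · exact absurd h hy
        · exact h
      have h10 : T = 2 * x := by linarith
      rw [h10] at hre
      linear_combination -hre
  rw [eq_div_iff hz]
  apply Complex.ext
  · simp only [Complex.mul_re, Complex.conj_re, Complex.conj_im, Complex.natCast_re]
    linear_combination h5
  · simp only [Complex.mul_im, Complex.conj_re, Complex.conj_im, Complex.natCast_im]
    ring

end CONAux

open CONAux in
/-- complex conjugation -/
theorem t_CON : M_CON := by
  intro hREA L _ _ _
  let φ : L →+* ℂ := Classical.arbitrary _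
  obtain ⟨σ, hσ⟩ := ComplexEmbedding.exists_comp_symm_eq_of_comp_eq (k := ℚ) φ
    (ComplexEmbedding.conjugate φ) (by ext; simp)
  refine ⟨σ.symm, fun q A B a hq hW ha => ?_⟩
  have h1 : φ (σ.symm a) = (starRingEnd ℂ) (φ a) := by
    have := RingHom.congr_fun hσ a
    exact this
  apply φ.injective
  have hz : φ a ≠ 0 := (map_ne_zero φ).2 ha.1
  have h2 : (φ a + q / φ a) ^ 2 + A * (φ a + q / φ a) + B = 0 := by
    have := congrArg φ ha.2
    simpa using this
  obtain ⟨h3, h4⟩ := hREA q hq A B hW _ h2
  rw [h1, map_div₀, map_natCast]
  exact conj_eq hz h3 h4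

end Pool.Agent.GT2
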