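import Pool.Agent.GT2.St

/-!
# GT2: elliptic type
-/

set_option autoImplicit false

open Polynomial

namespace Pool.Agent.GT2

noncomputable section

namespace ELLAux

variable {L : Type} [Field L] [CharZero L] {v : AbsoluteValue L ℝ} {p : ℕ} {A B : ℤ}

/-- equal or conjugate numbers: the slope and `x - p / x` change by the same sign -/
lemma sgn (hp : 1 ≤ p) (hF : ∀ y : L, Rt p A B y → F p v ((p : L) / y) = - F p v y)
    {x y : L} (hy : Rt p A B y) (h : x = y ∨ x = (p : L) / y) :
    ∃ s : ℤ, F p v x = s * F p v y ∧ x - (p : L) / x = s * (y - (p : L) / y) := by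
  rcases h with rfl | rfl
  · exact ⟨1, by simp, by simp⟩
  · refine ⟨-1, ?_, ?_⟩
    · rw [hF y hy]
      simp
    · rw [bar_bar hp hy.1]
      push_cast
      ring

end ELLAux

open ELLAux in
theorem t_ELL : M_ELL := by
  intro hLOC hINT L _ _ _ v p hv A B a ha hsq
  have hp1 : 1 ≤ p := hv.pr.one_lt.le
  have loc := fun (x : L) (hx : Rt p A B x) => hLOC L v p hv.pr hv.na hv.lt A B x hx
  have hF : ∀ y : L, Rt p A B y → F p v ((p : L) / y) = - F p v y := fun y hy => (loc y hy).2.2.2
  -- everything is zero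
  by_cases h0 : (p : ℤ) ∣ A ∧ (p : ℤ) ∣ B
  · have hz : ∀ σ : L ≃ₐ[ℚ] L, F p v (σ a) = 0 := fun σ =>
      (loc (σ a) (ha.map σ)).2.2.1 h0.1 h0.2
    refine ⟨fun τ => Or.inl fun σ => ?_, Or.inr hz⟩
    rw [hz σ]
    exact hz (σ * τ)
  -- a conjugate which is a or its bar
  have hbar : ∀ τ : L ≃ₐ[ℚ] L, τ a = a ∨ τ a = (p : L) / a →
      (∀ σ : L ≃ₐ[ℚ] L, F p v (σ (τ a)) = F p v (σ a)) ∨
        (∀ σ : L ≃ₐ[ℚ] L, F p v (σ (τ a)) = - F p v (σ a)) := by
    rintro τ (h | h)
    · left
      intro σ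
      rw [h]
    · right
      intro σ
      rw [h, map_bar]
      exact hF (σ a) (ha.map σ)
  by_cases hD : IsSquare (DD A B)
  · -- the number t is rational
    have hr : ∀ σ : L ≃ₐ[ℚ] L, σ (2 * (a + (p : L) / a) + A) = 2 * (a + (p : L) / a) + A :=
      fun σ => fixed_of_sq hD ha.disc σ
    have ht : ∀ σ : L ≃ₐ[ℚ] L, σ a + (p : L) / σ a = a + (p : L) / a := by
      intro σ
      have h1 := hr σ
      rw [map_add, map_mul, map_tr, map_intCast, map_ofNat] at h1
      have h2 : (2 : L) ≠ 0 := two_ne_zero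
      apply mul_left_cancel₀ h2
      linear_combination h1
    refine ⟨fun τ => hbar τ (eq_or_bar ha.1 ((map_ne_zero τ).2 ha.1) (ht τ)), ?_⟩
    by_cases hB : (p : ℤ) ∣ B
    · have hA : ¬ (p : ℤ) ∣ A := fun h => h0 ⟨h, hB⟩
      by_cases hv1 : v (a + (p : L) / a) = 1
      · left
        intro σ
        rcases (loc (σ a) (ha.map σ)).2.1 hB hA with h | h
        · exact h.2
        · rw [ht σ] at h
          exact absurd h.1 (by rw [hv1]; exact lt_irrefl _)
      · right
        intro σ
        rcases (loc (σ a) (ha.map σ)).2.1 hB hA with h | h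
        · rw [ht σ] at h
          exact absurd h.1 hv1
        · exact h.2
    · left
      exact fun σ => (loc (σ a) (ha.map σ)).1 hB
  -- the other case
  have hP : IsSquare (DP p A B) := hsq.resolve_left hD
  have hB : ¬ (p : ℤ) ∣ B := by
    intro hB
    have hA : ¬ (p : ℤ) ∣ A := fun h => h0 ⟨h, hB⟩
    exact (hINT p hv.pr hv.odd A B 0 0).1 hB hA hP
  have hpm : ∀ x : L, Rt p A B x → F p v x = 1 ∨ F p v x = -1 := fun x hx => (loc x hx).1 hB
  obtain ⟨σ₀, hσ₀⟩ : ∃ σ₀ : L ≃ₐ[ℚ] L,
      σ₀ (2 * (a + (p : L) / a) + A) ≠ 2 * (a + (p : L) / a) + A := by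
    by_contra hcon
    push Not at hcon
    exact hD (sq_of_fixed hcon ha.disc)
  set b : L := σ₀ a with hb
  have hbR : Rt p A B b := ha.map σ₀
  have hbt : b + (p : L) / b = - A - (a + (p : L) / a) := by
    rcases ha.two hbR with h | h
    · exfalso
      apply hσ₀
      rw [map_add, map_mul, map_tr, map_intCast, map_ofNat, ← hb, h]
    · exact h
  have hg : ∀ x : L, Rt p A B x → x - (p : L) / x ≠ 0 := by
    intro x hx h
    have h1 : x = (p : L) / x := sub_eq_zero.1 h
    have h2 := hF x hx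
    rw [← h1] at h2
    rcases hpm x hx with h3 | h3 <;> rw [h3] at h2 <;> norm_num at h2
  have hdp := ha.dp hp1 hbR.1 hbt
  have hδ : (a - (p : L) / a) * (b - (p : L) / b) ≠ 0 := mul_ne_zero (hg a ha) (hg b hbR)
  -- the product of the slopes does not change
  have hprod : ∀ σ : L ≃ₐ[ℚ] L, F p v (σ a) * F p v (σ b) = F p v a * F p v b := by
    intro σ
    have hσδ := fixed_of_sq hP hdp σ
    rw [map_mul, map_sub, map_sub, map_bar, map_bar] at hσδ
    have hσb : σ b + (p : L) / σ b = - A - (σ a + (p : L) / σ a) := by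
      have h1 := congrArg σ hbt
      rw [map_tr, map_sub, map_neg, map_intCast, map_tr] at h1
      exact h1
    have key : ∃ s s' : ℤ, F p v (σ a) * F p v (σ b) = (s * s' : ℤ) * (F p v a * F p v b) ∧
        (σ a - (p : L) / σ a) * (σ b - (p : L) / σ b) =
          (s * s' : ℤ) * ((a - (p : L) / a) * (b - (p : L) / b)) := by
      rcases ha.two (ha.map σ) with h | h
      · have h1 : σ b + (p : L) / σ b = b + (p : L) / b := by
          rw [hσb, h, hbt]
        obtain ⟨s, hs1, hs2⟩ := sgn (v := v) hp1 hF ha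
          (eq_or_bar ha.1 ((map_ne_zero σ).2 ha.1) h)
        obtain ⟨s', hs1', hs2'⟩ := sgn (v := v) hp1 hF hbR
          (eq_or_bar hbR.1 ((map_ne_zero σ).2 hbR.1) h1)
        refine ⟨s, s', ?_, ?_⟩
        · rw [hs1, hs1']
          push_cast
          ring
        · rw [hs2, hs2']
          push_cast
          ring
      · have h1 : σ a + (p : L) / σ a = b + (p : L) / b := by
          rw [h, hbt]
        have h2 : σ b + (p : L) / σ b = a + (p : L) / a := by
          rw [hσb, h]
          ring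
        obtain ⟨s, hs1, hs2⟩ := sgn (v := v) hp1 hF hbR
          (eq_or_bar hbR.1 ((map_ne_zero σ).2 ha.1) h1)
        obtain ⟨s', hs1', hs2'⟩ := sgn (v := v) hp1 hF ha
          (eq_or_bar ha.1 ((map_ne_zero σ).2 hbR.1) h2)
        refine ⟨s, s', ?_, ?_⟩
        · rw [hs1, hs1']
          push_cast
          ring
        · rw [hs2, hs2']
          push_cast
          ring
    obtain ⟨s, s', h1, h2⟩ := key
    rw [hσδ] at h2
    have h3 : ((s * s' : ℤ) : L) = 1 := by
      have h4 : (((s * s' : ℤ) : L) - 1) * ((a - (p : L) / a) * (b - (p : L) / b)) = 0 := by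
        linear_combination -h2
      rcases mul_eq_zero.1 h4 with h5 | h5
      · exact sub_eq_zero.1 h5
      · exact absurd h5 hδ
    have h4 : s * s' = 1 := by
      have : ((s * s' : ℤ) : L) = ((1 : ℤ) : L) := by rw [h3, Int.cast_one]
      exact Int.cast_injective this
    rw [h1, h4, Int.cast_one, one_mul]
  have hb2 : (∀ σ : L ≃ₐ[ℚ] L, F p v (σ b) = F p v (σ a)) ∨
      (∀ σ : L ≃ₐ[ℚ] L, F p v (σ b) = - F p v (σ a)) := by
    have h1 : F p v a * F p v b = 1 ∨ F p v a * F p v b = -1 := by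
      rcases hpm a ha with h | h <;> rcases hpm b hbR with h' | h' <;> rw [h, h'] <;> norm_num
    rcases h1 with h1 | h1
    · left
      intro σ
      have h2 := hprod σ
      rw [h1] at h2
      rcases hpm (σ a) (ha.map σ) with h | h <;> rw [h] at h2 ⊢ <;> linarith
    · right
      intro σ
      have h2 := hprod σ
      rw [h1] at h2
      rcases hpm (σ a) (ha.map σ) with h | h <;> rw [h] at h2 ⊢ <;> linarith
  refine ⟨fun τ => ?_, Or.inl fun σ => hpm (σ a) (ha.map σ)⟩
  rcases ha.two (ha.map τ) with h | h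
  · exact hbar τ (eq_or_bar ha.1 ((map_ne_zero τ).2 ha.1) h)
  · have h1 : τ a + (p : L) / τ a = b + (p : L) / b := by
      rw [h, hbt]
    rcases eq_or_bar hbR.1 ((map_ne_zero τ).2 ha.1) h1 with h2 | h2
    · rw [h2]
      exact hb2
    · rw [h2]
      rcases hb2 with h3 | h3
      · right
        intro σ
        rw [map_bar, hF (σ b) (hbR.map σ), h3 σ]
      · left
        intro σ
        rw [map_bar, hF (σ b) (hbR.map σ), h3 σ, neg_neg]

end

end Pool.Agent.GT2
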