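import Pool.Agent.GT2.St
import Pool.Agent.TJ4.EXV

/-!
# Project GT2, module EXV: existence of an absolute value over `p`
-/

namespace Pool.Agent.GT2

theorem t_EXV : S_EXV := by
  intro p hp
  obtain ⟨v, h1, h2⟩ := Pool.Agent.TJ4.t_EXV p hp.isPrimePow
  exact ⟨v, h1, by simpa [hp.minFac_eq] using h2⟩

end Pool.Agent.GT2
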