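import Mathlib

/-!
# No reflex pairs over the fields with 3 and 7 elements (helper30)

`x ^ 2 + a x + b` runs over the real Weil polynomials of degree two, `d = a ^ 2 - 4 b` is its
discriminant and `D = (b + 4 q) ^ 2 - 4 q a ^ 2` is the norm of `beta ^ 2 - 4 q`, `beta` a root. If
`d` and `d D` are not squares then the quartic Weil polynomial has the Galois group `D_4`, and the
reflex field belongs to `(D, d)` modulo squares. For `q = 3` and `q = 7` no two real Weil polynomials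
are reflex to each other, even modulo squares. The non-squares are recognised modulo primes `<= 31`.
-/

set_option autoImplicit false

namespace Pool.Agent.GT2.Enum

/-- the discriminant -/
def dis (a b : ℤ) : ℤ := a * a - 4 * b

/-- the norm of `beta ^ 2 - 4 q` -/
def nor (q a b : ℤ) : ℤ := (b + 4 * q) * (b + 4 * q) - 4 * q * (a * a)

/-- the conditions for a real Weil polynomial -/
def wei (q a b : ℤ) : Bool :=
  decide (a * a ≤ 16 * q) && decide (4 * b ≤ a * a) && decide (0 ≤ b + 4 * q) &&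
    decide (4 * q * (a * a) ≤ (b + 4 * q) * (b + 4 * q))

/-- the squares modulo `l` -/
def sqs (l : ℕ) : List ℕ := (List.range l).map fun r => r * r % l

/-- the primes that are used, with the squares -/
def prs : List (ℕ × List ℕ) :=
  [3, 5, 7, 11, 13, 17, 19, 23, 29, 31].map fun l => (l, sqs l)

/-- `n` is not a square modulo one of the primes -/
def nr (n : ℤ) : Bool := prs.any fun p => !(p.2.contains (n % (p.1 : ℤ)).toNat)

theorem nr_spec (n : ℤ) (h : nr n = true) : ¬ IsSquare n := by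
  rintro ⟨r, rfl⟩
  unfold nr prs at h
  rw [List.any_eq_true] at h
  obtain ⟨p, hp, h1⟩ := h
  rw [List.mem_map] at hp
  obtain ⟨l, hl, rfl⟩ := hp
  have hl0 : 0 < l := by
    simp only [List.mem_cons, List.not_mem_nil, or_false] at hl
    omega
  have hl1 : (0 : ℤ) < l := by exact_mod_cast hl0
  rw [Bool.not_eq_true', Bool.eq_false_iff] at h1
  apply h1
  rw [List.contains_iff_mem]
  unfold sqs
  rw [List.mem_map]
  refine ⟨(r % (l : ℤ)).toNat, ?_, ?_⟩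
  · rw [List.mem_range]
    have h2 := Int.emod_nonneg r hl1.ne'
    have h3 := Int.emod_lt_of_pos r hl1
    omega
  · have h2 := Int.emod_nonneg r hl1.ne'
    apply Int.ofNat.inj
    show ((((r % (l : ℤ)).toNat * (r % (l : ℤ)).toNat % l : ℕ)) : ℤ) =
      (((r * r % (l : ℤ)).toNat : ℕ) : ℤ)
    rw [Int.toNat_of_nonneg (Int.emod_nonneg _ hl1.ne')]
    push_cast
    rw [Int.toNat_of_nonneg h2, ← Int.mul_emod]

/-- the real Weil polynomials with `a ≥ 0`, `d` and `d D` not squares, `q = 3` -/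
def T3 : List (ℤ × ℤ) :=
  [(0, -11), (0, -10), (0, -8), (0, -7), (0, -6), (0, -5), (0, -3), (0, -2), (1, -8), (1, -7),
  (1, -5), (1, -4), (1, -3), (1, -1), (2, -5), (2, -4), (2, -2), (2, -1), (3, 1), (4, 2)]

/-- the others, with a square root of `d` or `d D`, `q = 3` -/
def W3 : List (ℤ × ℤ × ℤ) :=
  [(0, -12, 0), (0, -9, 6), (0, -4, 4), (0, -1, 2), (0, 0, 0), (1, -6, 5), (1, -2, 3), (1, 0, 1),
  (2, -3, 4), (2, 0, 2), (2, 1, 0), (3, -1, 13), (3, 0, 3), (3, 2, 1), (4, 3, 2), (4, 4, 0), (5,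
  6, 1), (6, 9, 0)]

/-- the real Weil polynomials with `a ≥ 0`, `d` and `d D` not squares, `q = 7` -/
def T7 : List (ℤ × ℤ) :=
  [(0, -27), (0, -26), (0, -24), (0, -23), (0, -22), (0, -21), (0, -20), (0, -19), (0, -18), (0,
  -17), (0, -15), (0, -14), (0, -13), (0, -12), (0, -11), (0, -10), (0, -8), (0, -7), (0, -6),
  (0, -5), (0, -3), (0, -2), (1, -22), (1, -21), (1, -19), (1, -18), (1, -17), (1, -16), (1,
  -15), (1, -14), (1, -13), (1, -11), (1, -10), (1, -8), (1, -7), (1, -5), (1, -4), (1, -3), (1,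
  -1), (2, -17), (2, -16), (2, -14), (2, -13), (2, -12), (2, -11), (2, -10), (2, -9), (2, -7),
  (2, -6), (2, -5), (2, -4), (2, -2), (2, -1), (3, -12), (3, -11), (3, -9), (3, -8), (3, -7), (3,
  -6), (3, -5), (3, -3), (3, -2), (3, -1), (3, 1), (4, -6), (4, -3), (4, -2), (4, -1), (4, 1),
  (4, 2), (5, 1), (5, 2), (5, 3), (5, 5), (6, 4), (6, 6), (6, 7), (7, 11)]

/-- the others, with a square root of `d` or `d D`, `q = 7` -/
def W7 : List (ℤ × ℤ × ℤ) :=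
  [(0, -28, 0), (0, -25, 10), (0, -16, 8), (0, -9, 6), (0, -4, 4), (0, -1, 2), (0, 0, 0), (1,
  -20, 9), (1, -12, 7), (1, -9, 111), (1, -6, 5), (1, -2, 3), (1, 0, 1), (2, -15, 8), (2, -8, 6),
  (2, -3, 4), (2, 0, 2), (2, 1, 0), (3, -10, 7), (3, -4, 5), (3, 0, 3), (3, 2, 1), (4, -5, 6),
  (4, -4, 64), (4, 0, 4), (4, 3, 2), (4, 4, 0), (5, -1, 29), (5, 0, 5), (5, 4, 3), (5, 6, 1), (6,
  5, 4), (6, 8, 2), (6, 9, 0), (7, 10, 3), (7, 12, 1), (8, 15, 2), (8, 16, 0), (9, 20, 1), (10,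
  25, 0)]

/-- all real Weil polynomials with `a ≥ 0` are in one of the two lists -/
def complete (q : ℤ) (n m : ℕ) (T : List (ℤ × ℤ)) (W : List (ℤ × ℤ × ℤ)) : Bool :=
  (List.range n).all fun a => (List.range m).all fun c =>
    !(wei q a ((c : ℤ) - 4 * q)) || T.contains ((a : ℤ), (c : ℤ) - 4 * q) ||
      W.any fun w => decide (w.1 = a) && decide (w.2.1 = (c : ℤ) - 4 * q) &&
        (decide (w.2.2 * w.2.2 = dis w.1 w.2.1) ||
          decide (w.2.2 * w.2.2 = dis w.1 w.2.1 * nor q w.1 w.2.1))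

/-- no reflex pair in the list -/
def noPair (q : ℤ) (T : List (ℤ × ℤ)) : Bool :=
  T.all fun s => T.all fun t =>
    nr (dis s.1 s.2 * nor q t.1 t.2) || nr (nor q s.1 s.2 * dis t.1 t.2)

theorem complete3 : complete 3 7 25 T3 W3 = true := by decide +kernel

theorem complete7 : complete 7 11 57 T7 W7 = true := by decide +kernel

theorem noPair3 : noPair 3 T3 = true := by decide +kernel

theorem noPair7 : noPair 7 T7 = true := by decide +kernel

/-- A real Weil polynomial with `a ≥ 0`, `d` and `d D` not squares, is in the list. -/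
theorem mem_of (q : ℤ) (n m : ℕ) (T : List (ℤ × ℤ)) (W : List (ℤ × ℤ × ℤ))
    (hc : complete q n m T W = true) (hn : 16 * q < (n : ℤ) * n) (hm : 8 * q < m) (a b : ℤ)
    (ha : 0 ≤ a) (h1 : a ^ 2 ≤ 16 * q) (h2 : 4 * b ≤ a ^ 2) (h3 : 0 ≤ b + 4 * q)
    (h4 : 4 * q * a ^ 2 ≤ (b + 4 * q) ^ 2) (hd : ¬ IsSquare (a ^ 2 - 4 * b))
    (hdD : ¬ IsSquare ((a ^ 2 - 4 * b) * ((b + 4 * q) ^ 2 - 4 * q * a ^ 2))) : (a, b) ∈ T := by
  have han : a < n := by
    by_contra h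
    push Not at h
    nlinarith
  have hbm : b + 4 * q < m := by nlinarith
  unfold complete at hc
  rw [List.all_eq_true] at hc
  have h5 := hc a.toNat (by rw [List.mem_range]; omega)
  rw [List.all_eq_true] at h5
  have h6 := h5 (b + 4 * q).toNat (by rw [List.mem_range]; omega)
  have e1 : (a.toNat : ℤ) = a := Int.toNat_of_nonneg ha
  have e2 : ((b + 4 * q).toNat : ℤ) = b + 4 * q := Int.toNat_of_nonneg h3
  rw [e1, e2] at h6
  have e3 : b + 4 * q - 4 * q = b := by ring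
  rw [e3] at h6
  simp only [Bool.or_eq_true, Bool.not_eq_true', Bool.eq_false_iff, List.contains_iff_mem,
    List.any_eq_true, Bool.and_eq_true, decide_eq_true_eq] at h6
  rcases h6 with (h6 | h6) | ⟨w, _, ⟨h7, h8⟩, h9⟩
  · exfalso
    apply h6
    unfold wei
    simp only [Bool.and_eq_true, decide_eq_true_eq]
    refine ⟨⟨⟨?_, ?_⟩, h3⟩, ?_⟩ <;> nlinarith
  · exact h6
  · exfalso
    rw [h7, h8] at h9
    unfold dis nor at h9
    rcases h9 with h9 | h9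
    · exact hd ⟨w.2.2, by rw [h9]; ring⟩
    · exact hdD ⟨w.2.2, by rw [h9]; ring⟩

theorem core (q : ℤ) (n m : ℕ) (T : List (ℤ × ℤ)) (W : List (ℤ × ℤ × ℤ))
    (hc : complete q n m T W = true) (hp : noPair q T = true) (hn : 16 * q < (n : ℤ) * n)
    (hm : 8 * q < m) (a b a' b' : ℤ)
    (h1 : a ^ 2 ≤ 16 * q) (h2 : 4 * b ≤ a ^ 2) (h3 : 0 ≤ b + 4 * q)
    (h4 : 4 * q * a ^ 2 ≤ (b + 4 * q) ^ 2) (hd : ¬ IsSquare (a ^ 2 - 4 * b))
    (hdD : ¬ IsSquare ((a ^ 2 - 4 * b) * ((b + 4 * q) ^ 2 - 4 * q * a ^ 2)))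
    (h1' : a' ^ 2 ≤ 16 * q) (h2' : 4 * b' ≤ a' ^ 2) (h3' : 0 ≤ b' + 4 * q)
    (h4' : 4 * q * a' ^ 2 ≤ (b' + 4 * q) ^ 2) (hd' : ¬ IsSquare (a' ^ 2 - 4 * b'))
    (hdD' : ¬ IsSquare ((a' ^ 2 - 4 * b') * ((b' + 4 * q) ^ 2 - 4 * q * a' ^ 2))) :
    ¬ (IsSquare ((a ^ 2 - 4 * b) * ((b' + 4 * q) ^ 2 - 4 * q * a' ^ 2)) ∧
      IsSquare (((b + 4 * q) ^ 2 - 4 * q * a ^ 2) * (a' ^ 2 - 4 * b'))) := by
  have m1 : (|a|, b) ∈ T := mem_of q n m T W hc hn hm |a| b (abs_nonneg a) (by rwa [sq_abs])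
    (by rwa [sq_abs]) h3 (by rwa [sq_abs]) (by rwa [sq_abs]) (by rwa [sq_abs])
  have m2 : (|a'|, b') ∈ T := mem_of q n m T W hc hn hm |a'| b' (abs_nonneg a') (by rwa [sq_abs])
    (by rwa [sq_abs]) h3' (by rwa [sq_abs]) (by rwa [sq_abs]) (by rwa [sq_abs])
  unfold noPair at hp
  rw [List.all_eq_true] at hp
  have h5 := hp _ m1
  rw [List.all_eq_true] at h5
  have h6 := h5 _ m2
  rw [Bool.or_eq_true] at h6
  have e1 : |a| * |a| = a ^ 2 := by rw [abs_mul_abs_self, sq]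
  have e2 : |a'| * |a'| = a' ^ 2 := by rw [abs_mul_abs_self, sq]
  rintro ⟨s1, s2⟩
  rcases h6 with h6 | h6
  · refine nr_spec _ h6 ?_
    unfold dis nor
    rw [e1, e2, ← sq (b' + 4 * q)]
    exact s1
  · refine nr_spec _ h6 ?_
    unfold dis nor
    rw [e1, e2, ← sq (b + 4 * q)]
    exact s2

/-- **No reflex pairs over the fields with 3 and 7 elements.** -/
theorem no_reflex (q : ℤ) (hq : q = 3 ∨ q = 7) (a b a' b' : ℤ)
    (h1 : a ^ 2 ≤ 16 * q) (h2 : 4 * b ≤ a ^ 2) (h3 : 0 ≤ b + 4 * q)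
    (h4 : 4 * q * a ^ 2 ≤ (b + 4 * q) ^ 2) (hd : ¬ IsSquare (a ^ 2 - 4 * b))
    (hdD : ¬ IsSquare ((a ^ 2 - 4 * b) * ((b + 4 * q) ^ 2 - 4 * q * a ^ 2)))
    (h1' : a' ^ 2 ≤ 16 * q) (h2' : 4 * b' ≤ a' ^ 2) (h3' : 0 ≤ b' + 4 * q)
    (h4' : 4 * q * a' ^ 2 ≤ (b' + 4 * q) ^ 2) (hd' : ¬ IsSquare (a' ^ 2 - 4 * b'))
    (hdD' : ¬ IsSquare ((a' ^ 2 - 4 * b') * ((b' + 4 * q) ^ 2 - 4 * q * a' ^ 2))) :
    ¬ (IsSquare ((a ^ 2 - 4 * b) * ((b' + 4 * q) ^ 2 - 4 * q * a' ^ 2)) ∧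
      IsSquare (((b + 4 * q) ^ 2 - 4 * q * a ^ 2) * (a' ^ 2 - 4 * b'))) := by
  rcases hq with rfl | rfl
  · exact core 3 7 25 T3 W3 complete3 noPair3 (by norm_num) (by norm_num) a b a' b'
      h1 h2 h3 h4 hd hdD h1' h2' h3' h4' hd' hdD'
  · exact core 7 11 57 T7 W7 complete7 noPair7 (by norm_num) (by norm_num) a b a' b'
      h1 h2 h3 h4 hd hdD h1' h2' h3' h4' hd' hdD'

end Pool.Agent.GT2.Enum
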