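import Pool.Agent.GT2.Enum

/-!
# No reflex pairs over the fields with 3, 7 and 11 elements (helper30)

Notation as in `GT2/Enum.lean`; `u = a ^ 2 - 2 b - 8 q` is the trace of `beta ^ 2 - 4 q`. If the two
reals are reflex to each other, then `d D' = n ^ 2`, `D d' = m ^ 2` and `u u' + 2 a n + 2 a' m` is a
square for some signs of `n` and `m`. This never happens for `q = 3`, `7` or `11`.
-/

set_option autoImplicit false

namespace Pool.Agent.GT2.Enum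

/-- the trace of `beta ^ 2 - 4 q` -/
def tra (q a b : ℤ) : ℤ := a * a - 2 * b - 8 * q

/-- the real Weil polynomials with `a ≥ 0`, `d` and `d D` not squares, `q = 11` -/
def T11 : List (ℤ × ℤ) :=
  [(0, -43), (0, -42), (0, -41), (0, -40), (0, -39), (0, -38), (0, -37), (0, -35), (0, -34), (0,
  -33), (0, -32), (0, -31), (0, -30), (0, -29), (0, -28), (0, -27), (0, -26), (0, -24), (0, -23),
  (0, -22), (0, -21), (0, -20), (0, -19), (0, -18), (0, -17), (0, -15), (0, -14), (0, -13), (0,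
  -12), (0, -11), (0, -10), (0, -8), (0, -7), (0, -6), (0, -5), (0, -3), (0, -2), (1, -37), (1,
  -36), (1, -35), (1, -34), (1, -33), (1, -32), (1, -29), (1, -28), (1, -27), (1, -26), (1, -25),
  (1, -24), (1, -23), (1, -22), (1, -21), (1, -19), (1, -18), (1, -17), (1, -16), (1, -15), (1,
  -14), (1, -13), (1, -11), (1, -10), (1, -9), (1, -8), (1, -7), (1, -5), (1, -4), (1, -3), (2,
  -30), (2, -29), (2, -28), (2, -27), (2, -26), (2, -25), (2, -23), (2, -22), (2, -21), (2, -20),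
  (2, -19), (2, -18), (2, -17), (2, -16), (2, -14), (2, -13), (2, -12), (2, -11), (2, -10), (2,
  -9), (2, -7), (2, -6), (2, -5), (2, -4), (2, -2), (2, -1), (3, -24), (3, -23), (3, -22), (3,
  -21), (3, -20), (3, -19), (3, -17), (3, -16), (3, -15), (3, -14), (3, -13), (3, -12), (3, -11),
  (3, -9), (3, -8), (3, -7), (3, -6), (3, -5), (3, -3), (3, -2), (3, -1), (3, 1), (4, -17), (4,
  -15), (4, -14), (4, -13), (4, -11), (4, -10), (4, -9), (4, -8), (4, -7), (4, -6), (4, -4), (4,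
  -3), (4, -2), (4, -1), (4, 1), (4, 2), (5, -10), (5, -9), (5, -8), (5, -7), (5, -5), (5, -4),
  (5, -3), (5, -2), (5, -1), (5, 1), (5, 2), (5, 3), (5, 5), (6, -4), (6, -3), (6, -2), (6, -1),
  (6, 1), (6, 2), (6, 3), (6, 6), (6, 7), (7, 3), (7, 4), (7, 5), (7, 7), (7, 8), (7, 9), (7,
  11), (8, 10), (8, 11), (8, 13), (8, 14), (9, 16), (9, 17), (10, 23)]

/-- the others, with a square root of `d` or `d D`, `q = 11` -/
def W11 : List (ℤ × ℤ × ℤ) :=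
  [(0, -44, 0), (0, -36, 12), (0, -25, 10), (0, -16, 8), (0, -9, 6), (0, -4, 4), (0, -1, 2), (0,
  0, 0), (1, -31, 125), (1, -30, 11), (1, -20, 9), (1, -12, 7), (1, -6, 5), (1, -2, 3), (1, -1,
  95), (1, 0, 1), (2, -24, 10), (2, -15, 8), (2, -8, 6), (2, -3, 4), (2, 0, 2), (2, 1, 0), (3,
  -18, 9), (3, -10, 7), (3, -4, 5), (3, 0, 3), (3, 2, 1), (4, -16, 80), (4, -12, 8), (4, -5, 6),
  (4, 0, 4), (4, 3, 2), (4, 4, 0), (5, -6, 7), (5, 0, 5), (5, 4, 3), (5, 6, 1), (6, 0, 6), (6, 4,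
  120), (6, 5, 4), (6, 8, 2), (6, 9, 0), (7, 6, 5), (7, 10, 3), (7, 12, 1), (8, 12, 4), (8, 15,
  2), (8, 16, 0), (9, 18, 3), (9, 19, 45), (9, 20, 1), (10, 24, 2), (10, 25, 0), (11, 29, 5),
  (11, 30, 1), (12, 36, 0)]

/-- the pairs with `d D'` and `D d'` squares, with the square roots, `q = 11` -/
def E11 : List ((ℤ × ℤ) × (ℤ × ℤ) × ℤ × ℤ) :=
  [((2, -4), (3, -20), 60, 356), ((3, -20), (2, -4), 356, 60)]

/-- the exceptional pair `e` is `(s, t)`, and the third number is not a square for any signs -/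
def okE (q : ℤ) (s t : ℤ × ℤ) (e : (ℤ × ℤ) × (ℤ × ℤ) × ℤ × ℤ) : Bool :=
  decide (e.1 = s) && decide (e.2.1 = t) &&
    decide (e.2.2.1 * e.2.2.1 = dis s.1 s.2 * nor q t.1 t.2) &&
    decide (e.2.2.2 * e.2.2.2 = nor q s.1 s.2 * dis t.1 t.2) &&
    nr (tra q s.1 s.2 * tra q t.1 t.2 + 2 * s.1 * e.2.2.1 + 2 * t.1 * e.2.2.2) &&
    nr (tra q s.1 s.2 * tra q t.1 t.2 + 2 * s.1 * e.2.2.1 - 2 * t.1 * e.2.2.2) &&
    nr (tra q s.1 s.2 * tra q t.1 t.2 - 2 * s.1 * e.2.2.1 + 2 * t.1 * e.2.2.2) &&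
    nr (tra q s.1 s.2 * tra q t.1 t.2 - 2 * s.1 * e.2.2.1 - 2 * t.1 * e.2.2.2)

/-- no reflex pair in the list -/
def noRef (q : ℤ) (T : List (ℤ × ℤ)) (E : List ((ℤ × ℤ) × (ℤ × ℤ) × ℤ × ℤ)) : Bool :=
  T.all fun s => T.all fun t =>
    nr (dis s.1 s.2 * nor q t.1 t.2) || nr (nor q s.1 s.2 * dis t.1 t.2) || E.any (okE q s t)

theorem complete11 : complete 11 14 89 T11 W11 = true := by decide +kernel

theorem noRef3 : noRef 3 T3 [] = true := by decide +kernel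

theorem noRef7 : noRef 7 T7 [] = true := by decide +kernel

theorem noRef11 : noRef 11 T11 E11 = true := by decide +kernel

/-- the sign of a product with an absolute value -/
theorem abs_cases (a n : ℤ) : ∃ n' : ℤ, (n' = n ∨ n' = -n) ∧ a * n = |a| * n' := by
  rcases abs_choice a with h | h
  · exact ⟨n, Or.inl rfl, by rw [h]⟩
  · exact ⟨-n, Or.inr rfl, by rw [h]; ring⟩

theorem core3 (q : ℤ) (N M : ℕ) (T : List (ℤ × ℤ)) (W : List (ℤ × ℤ × ℤ))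
    (E : List ((ℤ × ℤ) × (ℤ × ℤ) × ℤ × ℤ))
    (hc : complete q N M T W = true) (hp : noRef q T E = true) (hN : 16 * q < (N : ℤ) * N)
    (hM : 8 * q < M) (a b a' b' : ℤ)
    (h1 : a ^ 2 ≤ 16 * q) (h2 : 4 * b ≤ a ^ 2) (h3 : 0 ≤ b + 4 * q)
    (h4 : 4 * q * a ^ 2 ≤ (b + 4 * q) ^ 2) (hd : ¬ IsSquare (a ^ 2 - 4 * b))
    (hdD : ¬ IsSquare ((a ^ 2 - 4 * b) * ((b + 4 * q) ^ 2 - 4 * q * a ^ 2)))
    (h1' : a' ^ 2 ≤ 16 * q) (h2' : 4 * b' ≤ a' ^ 2) (h3' : 0 ≤ b' + 4 * q)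
    (h4' : 4 * q * a' ^ 2 ≤ (b' + 4 * q) ^ 2) (hd' : ¬ IsSquare (a' ^ 2 - 4 * b'))
    (hdD' : ¬ IsSquare ((a' ^ 2 - 4 * b') * ((b' + 4 * q) ^ 2 - 4 * q * a' ^ 2)))
    (n m : ℤ) (hn : n ^ 2 = (a ^ 2 - 4 * b) * ((b' + 4 * q) ^ 2 - 4 * q * a' ^ 2))
    (hm : m ^ 2 = ((b + 4 * q) ^ 2 - 4 * q * a ^ 2) * (a' ^ 2 - 4 * b'))
    (hs : IsSquare ((a ^ 2 - 2 * b - 8 * q) * (a' ^ 2 - 2 * b' - 8 * q) +
      2 * a * n + 2 * a' * m)) : False := by
  have m1 : (|a|, b) ∈ T := mem_of q N M T W hc hN hM |a| b (abs_nonneg a) (by rwa [sq_abs])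
    (by rwa [sq_abs]) h3 (by rwa [sq_abs]) (by rwa [sq_abs]) (by rwa [sq_abs])
  have m2 : (|a'|, b') ∈ T := mem_of q N M T W hc hN hM |a'| b' (abs_nonneg a') (by rwa [sq_abs])
    (by rwa [sq_abs]) h3' (by rwa [sq_abs]) (by rwa [sq_abs]) (by rwa [sq_abs])
  unfold noRef at hp
  rw [List.all_eq_true] at hp
  have h5 := hp _ m1
  rw [List.all_eq_true] at h5
  have h6 := h5 _ m2
  rw [Bool.or_eq_true, Bool.or_eq_true] at h6
  have e1 : |a| * |a| = a ^ 2 := by rw [abs_mul_abs_self, sq]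
  have e2 : |a'| * |a'| = a' ^ 2 := by rw [abs_mul_abs_self, sq]
  rcases h6 with (h6 | h6) | h6
  · refine nr_spec _ h6 ⟨n, ?_⟩
    unfold dis nor
    rw [e1, e2, ← sq (b' + 4 * q), ← hn, sq]
  · refine nr_spec _ h6 ⟨m, ?_⟩
    unfold dis nor
    rw [e1, e2, ← sq (b + 4 * q), ← hm, sq]
  · rw [List.any_eq_true] at h6
    obtain ⟨e, _, he⟩ := h6
    unfold okE at he
    simp only [Bool.and_eq_true, decide_eq_true_eq] at he
    obtain ⟨⟨⟨⟨⟨⟨⟨_, _⟩, k1⟩, k2⟩, r1⟩, r2⟩, r3⟩, r4⟩ := he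
    unfold dis nor at k1 k2
    rw [e1, e2, ← sq (b' + 4 * q), ← hn, ← sq] at k1
    rw [e1, e2, ← sq (b + 4 * q), ← hm, ← sq] at k2
    unfold tra at r1 r2 r3 r4
    rw [e1, e2] at r1 r2 r3 r4
    obtain ⟨n', hn', hn2⟩ := abs_cases a n
    obtain ⟨m', hm', hm2⟩ := abs_cases a' m
    have hs' : IsSquare ((a ^ 2 - 2 * b - 8 * q) * (a' ^ 2 - 2 * b' - 8 * q) +
        2 * |a| * n' + 2 * |a'| * m') := by
      have : (a ^ 2 - 2 * b - 8 * q) * (a' ^ 2 - 2 * b' - 8 * q) + 2 * |a| * n' + 2 * |a'| * m' =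
          (a ^ 2 - 2 * b - 8 * q) * (a' ^ 2 - 2 * b' - 8 * q) + 2 * a * n + 2 * a' * m := by
        have t1 : 2 * |a| * n' = 2 * a * n := by rw [mul_assoc, ← hn2, mul_assoc]
        have t2 : 2 * |a'| * m' = 2 * a' * m := by rw [mul_assoc, ← hm2, mul_assoc]
        rw [t1, t2]
      rw [this]
      exact hs
    have hn3 : n' = e.2.2.1 ∨ n' = -e.2.2.1 := by
      rcases sq_eq_sq_iff_eq_or_eq_neg.mp k1 with h | h <;> rcases hn' with h' | h' <;>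
        simp [h, h']
    have hm3 : m' = e.2.2.2 ∨ m' = -e.2.2.2 := by
      rcases sq_eq_sq_iff_eq_or_eq_neg.mp k2 with h | h <;> rcases hm' with h' | h' <;>
        simp [h, h']
    rcases hn3 with h | h <;> rcases hm3 with h' | h' <;> rw [h, h'] at hs'
    · exact nr_spec _ r1 hs'
    · refine nr_spec _ r2 ?_
      convert hs' using 1
      ring
    · refine nr_spec _ r3 ?_
      convert hs' using 1
      ring
    · refine nr_spec _ r4 ?_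
      convert hs' using 1
      ring

/-- **No reflex pairs over the fields with 3, 7 and 11 elements.** -/
theorem no_ref (q : ℤ) (hq : q = 3 ∨ q = 7 ∨ q = 11) (a b a' b' : ℤ)
    (h1 : a ^ 2 ≤ 16 * q) (h2 : 4 * b ≤ a ^ 2) (h3 : 0 ≤ b + 4 * q)
    (h4 : 4 * q * a ^ 2 ≤ (b + 4 * q) ^ 2) (hd : ¬ IsSquare (a ^ 2 - 4 * b))
    (hdD : ¬ IsSquare ((a ^ 2 - 4 * b) * ((b + 4 * q) ^ 2 - 4 * q * a ^ 2)))
    (h1' : a' ^ 2 ≤ 16 * q) (h2' : 4 * b' ≤ a' ^ 2) (h3' : 0 ≤ b' + 4 * q)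
    (h4' : 4 * q * a' ^ 2 ≤ (b' + 4 * q) ^ 2) (hd' : ¬ IsSquare (a' ^ 2 - 4 * b'))
    (hdD' : ¬ IsSquare ((a' ^ 2 - 4 * b') * ((b' + 4 * q) ^ 2 - 4 * q * a' ^ 2)))
    (n m : ℤ) (hn : n ^ 2 = (a ^ 2 - 4 * b) * ((b' + 4 * q) ^ 2 - 4 * q * a' ^ 2))
    (hm : m ^ 2 = ((b + 4 * q) ^ 2 - 4 * q * a ^ 2) * (a' ^ 2 - 4 * b'))
    (hs : IsSquare ((a ^ 2 - 2 * b - 8 * q) * (a' ^ 2 - 2 * b' - 8 * q) +
      2 * a * n + 2 * a' * m)) : False := by
  rcases hq with rfl | rfl | rfl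
  · exact core3 3 7 25 T3 W3 [] complete3 noRef3 (by norm_num) (by norm_num) a b a' b'
      h1 h2 h3 h4 hd hdD h1' h2' h3' h4' hd' hdD' n m hn hm hs
  · exact core3 7 11 57 T7 W7 [] complete7 noRef7 (by norm_num) (by norm_num) a b a' b'
      h1 h2 h3 h4 hd hdD h1' h2' h3' h4' hd' hdD' n m hn hm hs
  · exact core3 11 14 89 T11 W11 E11 complete11 noRef11 (by norm_num) (by norm_num) a b a' b'
      h1 h2 h3 h4 hd hdD h1' h2' h3' h4' hd' hdD' n m hn hm hs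

end Pool.Agent.GT2.Enum
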