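import Pool.Agent.GT2.St

/-!
# GT2, module FUN (helper25): functions on a finite group
-/

set_option autoImplicit false

namespace Pool.Agent.GT2

open Finset

namespace FUNAux

lemma sum_zero {Γ : Type} [Group Γ] [Fintype Γ] (k : Γ → ℝ) (τ : Γ)
    (h : ∀ σ, k (σ * τ) = - k σ) : ∑ σ, k σ = 0 := by
  have h1 : ∑ σ, k (σ * τ) = ∑ σ, k σ := Equiv.sum_comp (Equiv.mulRight τ) k
  have h2 : ∑ σ, k (σ * τ) = - ∑ σ, k σ := by
    rw [← Finset.sum_neg_distrib]
    exact Finset.sum_congr rfl fun σ _ => h σ
  linarith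

end FUNAux

open FUNAux in
theorem t_FUN : S_FUN := by
  intro Γ _ _ f g
  refine ⟨?_, ?_, ?_⟩
  · intro hf hg hf1 hg1
    have hk : ∀ τ, (∀ σ, f (σ * τ) * g (σ * τ) = f σ * g σ) ∨
        (∀ σ, f (σ * τ) * g (σ * τ) = - (f σ * g σ)) := by
      intro τ
      rcases hf τ with h1 | h1 <;> rcases hg τ with h2 | h2
      · exact Or.inl fun σ => by rw [h1, h2]
      · exact Or.inr fun σ => by rw [h1, h2]; ring
      · exact Or.inr fun σ => by rw [h1, h2]; ring
      · exact Or.inl fun σ => by rw [h1, h2]; ring
    by_cases hall : ∀ τ, ∀ σ, f (σ * τ) * g (σ * τ) = f σ * g σ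
    · have hft : ∀ τ, f τ = 1 ∨ f τ = -1 := by
        intro τ
        rcases hf τ with h | h
        · have := h 1
          rw [one_mul] at this
          rw [this]; exact hf1
        · have := h 1
          rw [one_mul] at this
          rcases hf1 with e | e <;> rw [this, e]
          · right; rfl
          · left; norm_num
      have hkt : ∀ τ, f τ * g τ = f 1 * g 1 := by
        intro τ
        have := hall τ 1
        rw [one_mul] at this
        exact this
      have hk1 : f 1 * g 1 = 1 ∨ f 1 * g 1 = -1 := by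
        rcases hf1 with e | e <;> rcases hg1 with e' | e' <;> rw [e, e'] <;> norm_num
      rcases hk1 with e | e
      · left
        intro σ
        have h3 := hkt σ
        rw [e] at h3
        rcases hft σ with h4 | h4 <;> rw [h4] at h3 ⊢ <;> linarith
      · right; left
        intro σ
        have h3 := hkt σ
        rw [e] at h3
        rcases hft σ with h4 | h4 <;> rw [h4] at h3 ⊢ <;> linarith
    · right; right
      push Not at hall
      obtain ⟨τ, σ, hτ⟩ := hall
      rcases hk τ with h | h
      · exact absurd (h σ) hτ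
      · exact sum_zero (fun σ => f σ * g σ) τ h
  · rintro hf ⟨ρ, hρ⟩
    refine sum_zero (fun σ => f σ * g σ) (ρ * ρ) ?_
    intro σ
    have h1 : f (σ * (ρ * ρ)) = f σ := by
      rw [← mul_assoc]
      rcases hf ρ with h | h
      · rw [h, h]
      · rw [h, h, neg_neg]
    show f (σ * (ρ * ρ)) * g (σ * (ρ * ρ)) = - (f σ * g σ)
    rw [h1, hρ]; ring
  · rintro ⟨τ, h1, h2⟩
    refine sum_zero (fun σ => f σ * g σ) τ ?_
    intro σ
    show f (σ * τ) * g (σ * τ) = - (f σ * g σ)
    rw [h1, h2]; ring

end Pool.Agent.GT2
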