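import Pool.Agent.GT2.St

/-!
# GT2: module INT (integers)
-/

set_option autoImplicit false

namespace Pool.Agent.GT2

namespace INTAux

lemma not_sq {p : ℕ} (hp : p.Prime) {m : ℤ} (hm : ¬ (p : ℤ) ∣ m) : ¬ IsSquare ((p : ℤ) * m) := by
  rintro ⟨s, hs⟩
  have hpi : Prime (p : ℤ) := Nat.prime_iff_prime_int.1 hp
  have h1 : (p : ℤ) ∣ s := by
    have h2 : (p : ℤ) ∣ s * s := ⟨m, hs.symm⟩
    exact (hpi.dvd_mul.1 h2).elim id id
  obtain ⟨t, rfl⟩ := h1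
  have h3 : (p : ℤ) * m = p * (p * (t * t)) := by rw [hs]; ring
  exact hm ⟨t * t, mul_left_cancel₀ hpi.ne_zero h3⟩

/-- if `p ∣ B`, `p ∤ A` then `DP` is `p` times a number prime to `p` -/
lemma dp_eq {p : ℕ} (hp : p.Prime) (h2 : p ≠ 2) {A B : ℤ} (hB : (p : ℤ) ∣ B)
    (hA : ¬ (p : ℤ) ∣ A) : ∃ m : ℤ, DP p A B = p * m ∧ ¬ (p : ℤ) ∣ m := by
  have hpi : Prime (p : ℤ) := Nat.prime_iff_prime_int.1 hp
  obtain ⟨b, rfl⟩ := hB
  refine ⟨p * (b + 4) ^ 2 - 4 * A ^ 2, by unfold DP; ring, fun h => ?_⟩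
  have h3 : (p : ℤ) ∣ 4 * A ^ 2 := by
    have h4 : (p : ℤ) ∣ p * (b + 4) ^ 2 := dvd_mul_right _ _
    have := dvd_sub h4 h
    rwa [sub_sub_cancel] at this
  rcases hpi.dvd_mul.1 h3 with h5 | h5
  · have h6 : p ∣ 4 := by exact_mod_cast h5
    have h7 : p ∣ 2 ^ 2 := by simpa using h6
    have h8 := hp.dvd_of_dvd_pow h7
    exact h2 ((Nat.prime_dvd_prime_iff_eq hp Nat.prime_two).1 h8)
  · exact hA (hpi.dvd_of_dvd_pow h5)

end INTAux

open INTAux in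
/-- Module INT. -/
theorem t_INT : S_INT := by
  intro p hp h2 A B A₁ B₁
  have hpi : Prime (p : ℤ) := Nat.prime_iff_prime_int.1 hp
  refine ⟨fun hB hA => ?_, fun hB hB1 hA1 => ?_, fun hB hA hB1 hA1 => ?_⟩
  · obtain ⟨m, hm, hm'⟩ := dp_eq hp h2 hB hA
    rw [hm]
    exact not_sq hp hm'
  · obtain ⟨m, hm, hm'⟩ := dp_eq hp h2 hB1 hA1
    have h3 : ¬ (p : ℤ) ∣ DP p A B := by
      intro h
      have h4 : (p : ℤ) ∣ B ^ 2 := by
        have h5 : B ^ 2 = DP p A B - p * (8 * B + 16 * p - 4 * A ^ 2) := by unfold DP; ring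
        rw [h5]
        exact dvd_sub h (dvd_mul_right _ _)
      exact hB (hpi.dvd_of_dvd_pow h4)
    have h6 : DP p A B * DP p A₁ B₁ = p * (DP p A B * m) := by rw [hm]; ring
    rw [h6]
    exact not_sq hp fun h => (hpi.dvd_mul.1 h).elim h3 hm'
  · obtain ⟨m, hm, hm'⟩ := dp_eq hp h2 hB1 hA1
    have h3 : ¬ (p : ℤ) ∣ DD A B := by
      intro h
      have h4 : (p : ℤ) ∣ A ^ 2 := by
        have h5 : A ^ 2 = DD A B + 4 * B := by unfold DD; ring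
        rw [h5]
        exact dvd_add h (hB.mul_left 4)
      exact hA (hpi.dvd_of_dvd_pow h4)
    have h6 : DD A B * DP p A₁ B₁ = p * (DD A B * m) := by rw [hm]; ring
    rw [h6]
    exact not_sq hp fun h => (hpi.dvd_mul.1 h).elim h3 hm'

end Pool.Agent.GT2
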