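import Pool.Agent.GT2.St

/-!
# GT2: finite Galois extensions
-/

set_option autoImplicit false

namespace Pool.Agent.GT2

namespace LFNAux

lemma alg : Algebra.IsAlgebraic ℚ Qb := by
  have e : (DivisionRing.toRatAlgebra : Algebra ℚ Qb) = AlgebraicClosure.instAlgebra ℚ :=
    Subsingleton.elim _ _
  rw [e]
  exact AlgebraicClosure.isAlgebraic ℚ

lemma nor : Normal ℚ Qb := by
  have h1 := alg
  have h2 : IsAlgClosed Qb := AlgebraicClosure.isAlgClosed ℚ
  have h3 : IsAlgClosure ℚ Qb := ⟨h2, h1⟩
  exact IsAlgClosure.normal ℚ Qb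

end LFNAux

theorem t_LFN : S_LFN := by
  intro Z
  have := LFNAux.alg
  have := LFNAux.nor
  let K : IntermediateField ℚ Qb := IntermediateField.adjoin ℚ (Z : Set Qb)
  have hK : FiniteDimensional ℚ K := by
    apply IntermediateField.finiteDimensional_adjoin
    intro x _
    exact (Algebra.IsAlgebraic.isAlgebraic (R := ℚ) x).isIntegral
  let L : IntermediateField ℚ Qb := IntermediateField.normalClosure ℚ K Qb
  have h1 : FiniteDimensional ℚ L := normalClosure.is_finiteDimensional ℚ K Qb
  have h2 : Normal ℚ L := normalClosure.normal ℚ K Qb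
  have h3 : IsGalois ℚ L := { }
  refine ⟨L, h1, h3, ?_, ?_⟩
  · intro z hz
    have h4 : z ∈ K := IntermediateField.subset_adjoin ℚ _ hz
    exact IntermediateField.le_normalClosure K h4
  · intro τ
    refine ⟨τ.liftNormal Qb, ?_⟩
    intro x
    exact AlgEquiv.liftNormal_commutes τ Qb x

end Pool.Agent.GT2
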