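import Pool.Agent.GT2.St

/-!
# GT2, module LOC: the slopes
-/

set_option autoImplicit false

namespace Pool.Agent.GT2

noncomputable section

namespace LOCAux

variable {L : Type} [Field L] {v : AbsoluteValue L ℝ}

lemma nat_le (hv : IsNonarchimedean v) (n : ℕ) : v (n : L) ≤ 1 := by
  induction n with
  | zero => simp
  | succ n ih =>
    push_cast
    refine (hv (n : L) 1).trans (max_le ih ?_)
    rw [v.map_one]

lemma int_le (hv : IsNonarchimedean v) (n : ℤ) : v (n : L) ≤ 1 := by
  obtain ⟨m, rfl | rfl⟩ := n.eq_nat_or_neg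
  · exact_mod_cast nat_le hv m
  · rw [Int.cast_neg, v.map_neg]
    exact_mod_cast nat_le hv m

lemma int_dvd (hv : IsNonarchimedean v) {p : ℕ} {n : ℤ} (h : (p : ℤ) ∣ n) :
    v (n : L) ≤ v (p : L) := by
  obtain ⟨m, rfl⟩ := h
  rw [Int.cast_mul, v.map_mul, Int.cast_natCast]
  exact mul_le_of_le_one_right (v.nonneg _) (int_le hv m)

lemma int_one (hv : IsNonarchimedean v) {p : ℕ} (hp : p.Prime) (h1 : v (p : L) < 1) {n : ℤ}
    (h : ¬ (p : ℤ) ∣ n) : v (n : L) = 1 := by
  refine le_antisymm (int_le hv n) ?_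
  obtain ⟨a, b, hab⟩ : IsCoprime (p : ℤ) n :=
    (Prime.coprime_iff_not_dvd (Nat.prime_iff_prime_int.1 hp)).2 h
  by_contra hlt
  push Not at hlt
  have h2 : ((a : L) * p + b * n) = 1 := by
    have := congrArg (Int.cast : ℤ → L) hab
    push_cast at this
    exact this
  have h3 : v ((a : L) * p + b * n) < 1 := by
    refine lt_of_le_of_lt (hv _ _) (max_lt ?_ ?_)
    · rw [v.map_mul]
      exact lt_of_le_of_lt (mul_le_of_le_one_left (v.nonneg _) (int_le hv a)) h1
    · rw [v.map_mul]
      exact lt_of_le_of_lt (mul_le_of_le_one_left (v.nonneg _) (int_le hv b)) hlt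
  rw [h2, v.map_one] at h3
  exact lt_irrefl _ h3

lemma sub_le (hv : IsNonarchimedean v) (x y : L) : v (x - y) ≤ max (v x) (v y) := by
  rw [sub_eq_add_neg, ← v.map_neg y]
  exact hv x (-y)

/-- `x ^ 2 ≤ max (T * x) P` -/
lemma quad (hv : IsNonarchimedean v) {x t c : L} (h : x ^ 2 = t * x - c) :
    v x ^ 2 ≤ max (v t * v x) (v c) := by
  rw [← v.map_pow, h, ← v.map_mul]
  exact sub_le hv _ _

lemma le_one {x T P : ℝ} (hx : 0 ≤ x) (hT : T ≤ 1) (hP : P ≤ 1) (h : x ^ 2 ≤ max (T * x) P) :
    x ≤ 1 := by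
  by_contra h1
  push Not at h1
  rcases le_max_iff.1 h with h | h
  · nlinarith
  · nlinarith

lemma sq_le {x T P : ℝ} (hx : 0 < x) (hT : T ^ 2 ≤ P) (h : x ^ 2 ≤ max (T * x) P) :
    x ^ 2 ≤ P := by
  rcases le_max_iff.1 h with h | h
  · have h1 : x ≤ T := by
      have : x * x ≤ T * x := by rw [← sq]; exact h
      exact le_of_mul_le_mul_right this hx
    calc x ^ 2 ≤ T ^ 2 := by gcongr
      _ ≤ P := hT
  · exact h

lemma sq_eq {x y P : ℝ} (hx : 0 < x) (hy : 0 < y) (hxy : x * y = P) (h1 : x ^ 2 ≤ P)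
    (h2 : y ^ 2 ≤ P) : x ^ 2 = P := by
  refine le_antisymm h1 ?_
  have hP : 0 < P := by rw [← hxy]; positivity
  have h3 : P * P ≤ x ^ 2 * P := by
    calc P * P = x ^ 2 * y ^ 2 := by rw [← hxy]; ring
      _ ≤ x ^ 2 * P := by gcongr
  exact le_of_mul_le_mul_right h3 hP

end LOCAux

open LOCAux in
theorem t_LOC : S_LOC := by
  intro L _ _ v p hp hv hv1 A B a ha
  have hp0 : (p : L) ≠ 0 := Nat.cast_ne_zero.2 hp.ne_zero
  have ha0 := ha.1
  have hP0 : 0 < v (p : L) := v.pos hp0
  have hx0 : 0 < v a := v.pos ha0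
  have hlog : Real.log (v (p : L)) ≠ 0 := (Real.log_neg hP0 hv1).ne
  -- values of the slope
  have hF1 : v a = 1 → F p v a = 1 := by
    intro h
    unfold F
    rw [h, Real.log_one]
    simp
  have hF2 : v a = v (p : L) → F p v a = -1 := by
    intro h
    unfold F
    rw [h, div_self hlog]
    norm_num
  have hF0 : v a ^ 2 = v (p : L) → F p v a = 0 := by
    intro h
    unfold F
    rw [← h, Real.log_pow]
    have h1 : Real.log (v a) ≠ 0 := by
      intro h0
      rw [← h, Real.log_pow, h0] at hlog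
      simp at hlog
    field_simp
    norm_num
  obtain ⟨t, ht⟩ : ∃ t, t = a + (p : L) / a := ⟨_, rfl⟩
  have hb0 : (p : L) / a ≠ 0 := div_ne_zero hp0 ha0
  obtain ⟨b, hb⟩ : ∃ b, b = (p : L) / a := ⟨_, rfl⟩
  rw [← hb] at hb0
  have hy0 : 0 < v b := v.pos hb0
  have hab : a * b = p := by
    rw [hb]
    field_simp
  have hxy : v a * v b = v (p : L) := by rw [← v.map_mul, hab]
  have hrel := ha.2
  rw [← ht] at hrel
  have hbt : b + a = t := by rw [ht, hb, add_comm]
  have hqt : v t ^ 2 ≤ max (v (-(A : L)) * v t) (v (B : L)) :=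
    quad hv (by linear_combination hrel)
  rw [v.map_neg] at hqt
  have hT1 : v t ≤ 1 := le_one (v.nonneg _) (int_le hv A) (int_le hv B) hqt
  have hqa : v a ^ 2 ≤ max (v t * v a) (v (p : L)) :=
    quad hv (by linear_combination a * hbt - hab)
  have hqb : v b ^ 2 ≤ max (v t * v b) (v (p : L)) :=
    quad hv (by linear_combination b * hbt - hab)
  have hx1 : v a ≤ 1 := le_one hx0.le hT1 hv1.le hqa
  have hy1 : v b ≤ 1 := le_one hy0.le hT1 hv1.le hqb
  have hone : v t = 1 → F p v a = 1 ∨ F p v a = -1 := by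
    intro h
    have h1 : 1 ≤ max (v b) (v a) := by
      rw [← h, ← hbt]
      exact hv b a
    rcases le_max_iff.1 h1 with h2 | h2
    · right
      apply hF2
      have h3 : v b = 1 := le_antisymm hy1 h2
      rw [h3, mul_one] at hxy
      exact hxy
    · exact Or.inl (hF1 (le_antisymm hx1 h2))
  have hzero : v t ^ 2 ≤ v (p : L) → F p v a = 0 := by
    intro h
    exact hF0 (sq_eq hx0 hy0 hxy (sq_le hx0 h hqa) (sq_le hy0 h hqb))
  have hT'1 : v (-(A : L) - t) ≤ 1 := by
    refine (sub_le hv _ _).trans (max_le ?_ hT1)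
    rw [v.map_neg]
    exact int_le hv A
  have hTT : v t * v (-(A : L) - t) = v (B : L) := by
    rw [← v.map_mul]
    congr 1
    linear_combination -hrel
  refine ⟨fun hB => ?_, fun hB hA => ?_, fun hA hB => ?_, ?_⟩
  · apply hone
    have h1 := int_one hv hp hv1 hB
    rw [h1] at hTT
    refine le_antisymm hT1 ?_
    calc 1 = v t * v (-(A : L) - t) := hTT.symm
      _ ≤ v t * 1 := by gcongr
      _ = v t := mul_one _
  · rw [← ht]
    rcases hT1.lt_or_eq with h | h
    · right
      refine ⟨h, hzero ?_⟩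
      have h1 := int_one hv hp hv1 hA
      have h2 : 1 ≤ v (-(A : L) - t) := by
        have h3 : v (-(A : L)) ≤ max (v (-(A : L) - t)) (v t) := by
          have h4 := hv (-(A : L) - t) t
          rwa [sub_add_cancel] at h4
        rw [v.map_neg, h1] at h3
        rcases le_max_iff.1 h3 with h4 | h4
        · exact h4
        · exact absurd h4 (not_le.2 h)
      have h3 : v (-(A : L) - t) = 1 := le_antisymm hT'1 h2
      rw [h3, mul_one] at hTT
      have h4 : v t ≤ v (p : L) := by
        rw [hTT]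
        exact int_dvd hv hB
      calc v t ^ 2 = v t * v t := sq _
        _ ≤ v t * 1 := by gcongr
        _ = v t := mul_one _
        _ ≤ v (p : L) := h4
    · exact Or.inl ⟨h, hone h⟩
  · apply hzero
    rcases le_max_iff.1 hqt with h | h
    · calc v t ^ 2 ≤ v (A : L) * v t := h
        _ ≤ v (p : L) * 1 := by
          gcongr
          exact int_dvd hv hA
        _ = v (p : L) := mul_one _
    · exact h.trans (int_dvd hv hB)
  · unfold F
    rw [map_div₀, Real.log_div hP0.ne' hx0.ne']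
    field_simp
    ring

end

end Pool.Agent.GT2
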