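import Pool.Agent.GT2.NRF

/-!
# GT2: no reflex pairs over small fields (helper88)
-/

set_option autoImplicit false

namespace Pool.Agent.GT2.NRF

theorem nrz_spec {v : ℤ} (h : nrz v = true) : ¬ IsSquare v := by
  rintro ⟨r, rfl⟩
  unfold nrz at h
  rw [Bool.or_eq_true] at h
  rcases h with h | h
  · have := of_decide_eq_true h
    nlinarith [mul_self_nonneg r]
  · rw [Bool.not_eq_true'] at h
    refine nsq_spec h ⟨r.natAbs, ?_⟩
    have h1 := Int.toNat_of_nonneg (mul_self_nonneg r)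
    have h2 := Int.natAbs_mul_self' r
    exact_mod_cast h1.trans h2.symm

theorem isSquare_int {x : ℕ} {n : ℤ} (h : n ^ 2 = (x : ℤ)) : IsSquare x := by
  refine ⟨n.natAbs, ?_⟩
  have : ((n.natAbs * n.natAbs : ℕ) : ℤ) = (x : ℤ) := by
    rw [Nat.cast_mul, Int.natAbs_mul_self', ← h]
    ring
  exact_mod_cast this.symm

/-- the code of a pair -/
def key (q : ℕ) (A B : ℤ) : ℕ := 1024 * A.natAbs + (B + 4 * q).toNat

/-- a real Weil polynomial for which `D`, `D'`, `D D'` are not squares is in the table -/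
theorem mem_of {o : Bool} {q n m : ℕ} {T : List (ℕ × ℕ × ℕ × ℕ × ℕ)} {W : List (ℕ × ℕ)}
    (hc : complete o q n m T W = true) (hn : 16 * q < n * n) (hm : 8 * q < m)
    {A B : ℤ} (hW : W2 q A B) (ho : o = true → ¬ (q : ℤ) ∣ B) (h1 : ¬ IsSquare (DD A B))
    (h2 : ¬ IsSquare (DP q A B)) (h3 : ¬ IsSquare (DD A B * DP q A B)) :
    (B + 4 * q).toNat < m ∧ ((dis q A.natAbs (B + 4 * q).toNat : ℕ) : ℤ) = DD A B ∧
    ((nor q A.natAbs (B + 4 * q).toNat : ℕ) : ℤ) = DP q A B ∧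
      ∃ e ∈ T, e.1 = 1024 * A.natAbs + (B + 4 * q).toNat := by
  obtain ⟨a, ha⟩ : ∃ a : ℕ, a = A.natAbs := ⟨_, rfl⟩
  obtain ⟨c, hcc⟩ : ∃ c : ℕ, c = (B + 4 * q).toNat := ⟨_, rfl⟩
  rw [← ha, ← hcc]
  have ea : (a : ℤ) * a = A ^ 2 := by
    rw [ha, Int.natAbs_mul_self']
    ring
  have ec : (c : ℤ) = B + 4 * q := by
    rw [hcc]
    exact Int.toNat_of_nonneg hW.s
  have w1 := hW.a
  have w2 := hW.d
  have w3 := hW.dp
  unfold DD at w2 h1 h3
  unfold DP at w3 h2 h3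
  have k1 : a * a ≤ 16 * q := by
    have : (a : ℤ) * a ≤ 16 * q := by rw [ea]; exact w1
    exact_mod_cast this
  have k2 : 4 * c ≤ a * a + 16 * q := by
    have : 4 * (c : ℤ) ≤ a * a + 16 * q := by rw [ea, ec]; linarith
    exact_mod_cast this
  have k3 : 4 * q * (a * a) ≤ c * c := by
    have : 4 * (q : ℤ) * (a * a) ≤ c * c := by rw [ea, ec]; linarith
    exact_mod_cast this
  have han : a < n := by
    by_contra h
    push Not at h
    have := Nat.mul_le_mul h h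
    omega
  have hcm : c < m := by omega
  have ed : ((dis q a c : ℕ) : ℤ) = A ^ 2 - 4 * B := by
    unfold dis
    rw [Nat.cast_sub k2]
    push_cast
    rw [ea, ec]
    ring
  have en : ((nor q a c : ℕ) : ℤ) = (B + 4 * q) ^ 2 - 4 * q * A ^ 2 := by
    unfold nor
    rw [Nat.cast_sub k3]
    push_cast
    rw [ea, ec]
    ring
  refine ⟨hcm, ed, en, ?_⟩
  unfold complete at hc
  rw [List.all_eq_true] at hc
  have h5 := hc a (List.mem_range.2 han)
  rw [List.all_eq_true] at h5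
  have h6 := h5 c (List.mem_range.2 hcm)
  rw [Bool.or_eq_true, Bool.or_eq_true, Bool.or_eq_true] at h6
  rcases h6 with ((h6 | h6) | h6) | h6
  · exfalso
    have : wei q a c = true := by
      unfold wei
      rw [Bool.and_eq_true, Bool.and_eq_true]
      exact ⟨⟨by rw [Nat.ble_eq]; exact k1, by rw [Nat.ble_eq]; exact k2⟩, by
        rw [Nat.ble_eq]; exact k3⟩
    rw [this] at h6
    exact absurd h6 (by decide)
  · exfalso
    rw [Bool.and_eq_true] at h6
    apply ho h6.1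
    have h7 : c % q = 0 := Nat.eq_of_beq_eq_true h6.2
    have h8 : (q : ℤ) ∣ (c : ℤ) := Int.natCast_dvd_natCast.2 (Nat.dvd_of_mod_eq_zero h7)
    rw [ec] at h8
    have h9 : (q : ℤ) ∣ 4 * q := Dvd.intro_left _ rfl
    exact (Int.dvd_add_left h9).1 h8
  · rw [List.any_eq_true] at h6
    obtain ⟨e, he, h7⟩ := h6
    exact ⟨e, he, Nat.eq_of_beq_eq_true h7⟩
  · exfalso
    rw [List.any_eq_true] at h6
    obtain ⟨w, _, h7⟩ := h6
    unfold sqw at h7
    rw [Bool.and_eq_true, Bool.or_eq_true, Bool.or_eq_true] at h7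
    rcases h7.2 with (h8 | h8) | h8
    · refine h1 ⟨w.2, ?_⟩
      rw [← ed, ← Nat.eq_of_beq_eq_true h8]
      push_cast
      rfl
    · refine h2 ⟨w.2, ?_⟩
      rw [← en, ← Nat.eq_of_beq_eq_true h8]
      push_cast
      rfl
    · refine h3 ⟨w.2, ?_⟩
      rw [← ed, ← en, ← Nat.cast_mul, ← Nat.eq_of_beq_eq_true h8]
      push_cast
      rfl

theorem core {o : Bool} {q n m : ℕ} {T : List (ℕ × ℕ × ℕ × ℕ × ℕ)} {W : List (ℕ × ℕ)}
    {E : List (ℕ × ℕ × ℕ × ℕ)} (hc : complete o q n m T W = true) (hg : good q T = true)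
    (hr : noRef q T E = true) (hn : 16 * q < n * n) (hm : 8 * q < m) (hm2 : m ≤ 1024)
    {A B A₁ B₁ : ℤ} (hW : W2 q A B) (hW₁ : W2 q A₁ B₁) (ho : o = true → ¬ (q : ℤ) ∣ B)
    (ho₁ : o = true → ¬ (q : ℤ) ∣ B₁) : ¬ Reflex q A B A₁ B₁ := by
  rintro ⟨⟨g1, g2, g3, _⟩, ⟨k1, k2, k3, _⟩, N, M, hN, hM, hS⟩
  obtain ⟨cm, ed, en, e, he, hek⟩ := mem_of hc hn hm hW ho g1 g2 g3
  obtain ⟨cm', ed', en', e', he', hek'⟩ := mem_of hc hn hm hW₁ ho₁ k1 k2 k3
  have q1 : e.1 / 1024 = A.natAbs := by omega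
  have q2 : e.1 % 1024 = (B + 4 * q).toNat := by omega
  have q1' : e'.1 / 1024 = A₁.natAbs := by omega
  have q2' : e'.1 % 1024 = (B₁ + 4 * q).toNat := by omega
  unfold good at hg
  rw [List.all_eq_true] at hg
  have ge := hg e he
  have ge' := hg e' he'
  rw [Bool.and_eq_true, Bool.and_eq_true, Bool.and_eq_true] at ge ge'
  rw [q1, q2] at ge
  rw [q1', q2'] at ge'
  obtain ⟨⟨⟨a1, a2⟩, a3⟩, a4⟩ := ge
  obtain ⟨⟨⟨b1, b2⟩, b3⟩, b4⟩ := ge'
  replace a1 := Nat.eq_of_beq_eq_true a1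
  replace a2 := Nat.eq_of_beq_eq_true a2
  replace a3 := Nat.eq_of_beq_eq_true a3
  replace a4 := Nat.eq_of_beq_eq_true a4
  replace b1 := Nat.eq_of_beq_eq_true b1
  replace b2 := Nat.eq_of_beq_eq_true b2
  replace b3 := Nat.eq_of_beq_eq_true b3
  replace b4 := Nat.eq_of_beq_eq_true b4
  unfold noRef at hr
  rw [List.all_eq_true] at hr
  have h5 := hr e he
  rw [List.all_eq_true] at h5
  have h6 := h5 e' he'
  rw [a1, a2, a3, a4, b1, b2, b3, b4, Bool.or_eq_true, Bool.or_eq_true] at h6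
  rcases h6 with (h6 | h6) | h6
  · refine tst_spec h6 (isSquare_int (n := N) ?_)
    rw [hN, ← ed, ← en']
    push_cast
    rfl
  · refine tst_spec h6 (isSquare_int (n := M) ?_)
    rw [hM, ← en, ← ed']
    push_cast
    rfl
  · rw [List.any_eq_true] at h6
    obtain ⟨x, _, hx⟩ := h6
    unfold okE at hx
    simp only [Bool.and_eq_true] at hx
    obtain ⟨⟨⟨⟨⟨⟨⟨_, _⟩, y1⟩, y2⟩, r1⟩, r2⟩, r3⟩, r4⟩ := hx
    rw [q1, q2, q1', q2'] at y1 y2
    replace y1 := Nat.eq_of_beq_eq_true y1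
    replace y2 := Nat.eq_of_beq_eq_true y2
    have ta : tra e.1 = A ^ 2 - 2 * B - 8 * q := by
      unfold tra
      rw [q1, q2, Int.natAbs_mul_self', Int.toNat_of_nonneg hW.s]
      ring
    have ta' : tra e'.1 = A₁ ^ 2 - 2 * B₁ - 8 * q := by
      unfold tra
      rw [q1', q2', Int.natAbs_mul_self', Int.toNat_of_nonneg hW₁.s]
      ring
    rw [ta, ta', q1, q1'] at r1 r2 r3 r4
    have hN' : N = x.2.2.1 ∨ N = -(x.2.2.1 : ℤ) := by
      apply sq_eq_sq_iff_eq_or_eq_neg.1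
      rw [hN, ← ed, ← en', ← Nat.cast_mul, ← y1]
      push_cast
      ring
    have hM' : M = x.2.2.2 ∨ M = -(x.2.2.2 : ℤ) := by
      apply sq_eq_sq_iff_eq_or_eq_neg.1
      rw [hM, ← en, ← ed', ← Nat.cast_mul, ← y2]
      push_cast
      ring
    have hA : A = A.natAbs ∨ A = -(A.natAbs : ℤ) := Int.natAbs_eq A
    have hA' : A₁ = A₁.natAbs ∨ A₁ = -(A₁.natAbs : ℤ) := Int.natAbs_eq A₁
    obtain ⟨z, hz⟩ := hS
    have s1 : (2 * A * N = 2 * A.natAbs * x.2.2.1) ∨ (2 * A * N = -(2 * A.natAbs * x.2.2.1)) := by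
      rcases hA with h | h <;> rcases hN' with h' | h' <;> rw [h'] <;>
        [left; right; right; left] <;> conv_lhs => rw [h]
      all_goals ring
    have s2 : (2 * A₁ * M = 2 * A₁.natAbs * x.2.2.2) ∨
        (2 * A₁ * M = -(2 * A₁.natAbs * x.2.2.2)) := by
      rcases hA' with h | h <;> rcases hM' with h' | h' <;> rw [h'] <;>
        [left; right; right; left] <;> conv_lhs => rw [h]
      all_goals ring
    rcases s1 with s1 | s1 <;> rcases s2 with s2 | s2 <;> rw [s1, s2] at hz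
    · exact nrz_spec r1 ⟨z, hz⟩
    · exact nrz_spec r2 ⟨z, by rw [← hz]; ring⟩
    · exact nrz_spec r3 ⟨z, by rw [← hz]; ring⟩
    · exact nrz_spec r4 ⟨z, by rw [← hz]; ring⟩

end NRF

open NRF

theorem nr3 : S_NR3 := fun _ _ _ _ h h' => core complete3 good3 noRef3 (by norm_num)
  (by norm_num) (by norm_num) h h' (fun h => absurd h (by decide)) fun h => absurd h (by decide)

theorem nr7 : S_NR7 := fun _ _ _ _ h h' => core complete7 good7 noRef7 (by norm_num)
  (by norm_num) (by norm_num) h h' (fun h => absurd h (by decide)) fun h => absurd h (by decide)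

theorem nr11 : S_NR11 := fun _ _ _ _ h h' => core complete11 good11 noRef11 (by norm_num)
  (by norm_num) (by norm_num) h h' (fun h => absurd h (by decide)) fun h => absurd h (by decide)

theorem nro (q : ℕ) (hq : q = 5 ∨ q = 13) (A B A₁ B₁ : ℤ) (hB : ¬ (q : ℤ) ∣ B)
    (hB₁ : ¬ (q : ℤ) ∣ B₁) (h : W2 q A B) (h₁ : W2 q A₁ B₁) : ¬ Reflex q A B A₁ B₁ := by
  rcases hq with rfl | rfl
  · exact core complete5 good5 noRef5 (by norm_num) (by norm_num) (by norm_num) h h₁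
      (fun _ => hB) fun _ => hB₁
  · exact core complete13 good13 noRef13 (by norm_num) (by norm_num) (by norm_num) h h₁
      (fun _ => hB) fun _ => hB₁

end Pool.Agent.GT2
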