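import Pool.Agent.GT2.St

/-!
# GT2, module NRN: no reflex pairs among surfaces which are not ordinary and absolutely simple
-/

set_option autoImplicit false

namespace Pool.Agent.GT2

theorem t_NRN : M_NRN := by
  intro hint p hp hp2 A B A₁ B₁ h h₁ hr
  obtain ⟨hg, hg₁, n, m, hn, -, -⟩ := hr
  obtain ⟨hd, hdp, -, hs⟩ := hg
  obtain ⟨hd₁, hdp₁, -, hs₁⟩ := hg₁
  have hB : (p : ℤ) ∣ B := by
    rcases h with h | h | h
    · exact h
    · exact absurd h hd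
    · exact absurd h hdp
  have hB₁ : (p : ℤ) ∣ B₁ := by
    rcases h₁ with h | h | h
    · exact h
    · exact absurd h hd₁
    · exact absurd h hdp₁
  have hA : ¬ (p : ℤ) ∣ A := fun h' => hs ⟨h', hB⟩
  have hA₁ : ¬ (p : ℤ) ∣ A₁ := fun h' => hs₁ ⟨h', hB₁⟩
  exact (hint p hp hp2 A B A₁ B₁).2.2 hB hA hB₁ hA₁ ⟨n, by rw [← hn]; ring⟩

end Pool.Agent.GT2
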