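import Pool.Agent.GT2.St

/-!
# GT2: orthogonality (module ORT, MP_cb388a_ag)

The functions `σ ↦ F (σ a)`, `σ ↦ F (σ a₁)` are equal, opposite or orthogonal, unless the pair is a
reflex pair.
-/

set_option autoImplicit false

namespace Pool.Agent.GT2

noncomputable section

namespace ORTAux

variable {L : Type} [Field L] [NumberField L] {p : ℕ} {v : AbsoluteValue L ℝ}
  {A B A₁ B₁ : ℤ} {a a₁ : L}

/-- the conclusion -/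
def Con (p : ℕ) (v : AbsoluteValue L ℝ) (a a₁ : L) : Prop :=
  (∀ σ : L ≃ₐ[ℚ] L, F p v (σ a) = F p v (σ a₁)) ∨
    (∀ σ : L ≃ₐ[ℚ] L, F p v (σ a) = - F p v (σ a₁)) ∨
    ∑ σ : L ≃ₐ[ℚ] L, F p v (σ a) * F p v (σ a₁) = 0

lemma Con.symm (h : Con p v a a₁) : Con p v a₁ a := by
  rcases h with h | h | h
  · exact Or.inl fun σ => (h σ).symm
  · exact Or.inr (Or.inl fun σ => by rw [h σ, neg_neg])
  · refine Or.inr (Or.inr ?_)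
    rw [← h]
    exact Finset.sum_congr rfl fun σ _ => mul_comm _ _

lemma con_zero (h : ∀ σ : L ≃ₐ[ℚ] L, F p v (σ a) = 0) : Con p v a a₁ :=
  Or.inr (Or.inr (Finset.sum_eq_zero fun σ _ => by rw [h σ, zero_mul]))

lemma slope_bar (hL : S_LOC) (hv : Pv L p v) (h : Rt p A B a) (σ : L ≃ₐ[ℚ] L) :
    F p v (σ ((p : L) / a)) = - F p v (σ a) := by
  rw [map_bar]
  exact (hL L v p hv.pr hv.na hv.lt A B (σ a) (h.map σ)).2.2.2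

lemma con_dvd (hL : S_LOC) (hv : Pv L p v) (h : Rt p A B a) (hA : (p : ℤ) ∣ A)
    (hB : (p : ℤ) ∣ B) : Con p v a a₁ :=
  con_zero fun σ => (hL L v p hv.pr hv.na hv.lt A B (σ a) (h.map σ)).2.2.1 hA hB

/-- some automorphism fixes `a` and maps `a₁` to `p / a₁` -/
lemma con_fix (hL : S_LOC) (hF : S_FUN) (hv : Pv L p v) (h₁ : Rt p A₁ B₁ a₁)
    (τ : L ≃ₐ[ℚ] L) (ht : τ a = a) (ht₁ : τ a₁ = (p : L) / a₁) : Con p v a a₁ := by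
  refine Or.inr (Or.inr ((hF (L ≃ₐ[ℚ] L) (fun σ => F p v (σ a))
    (fun σ => F p v (σ a₁))).2.2 ⟨τ, fun σ => ?_, fun σ => ?_⟩))
  · change F p v (σ (τ a)) = F p v (σ a)
    rw [ht]
  · change F p v (σ (τ a₁)) = - F p v (σ a₁)
    rw [ht₁, slope_bar hL hv h₁]

variable [IsGalois ℚ L]

/-- both elliptic -/
lemma con_ell_ell (hE : S_ELL) (hF : S_FUN) (hv : Pv L p v) (h : Rt p A B a)
    (h₁ : Rt p A₁ B₁ a₁) (e : IsSquare (DD A B) ∨ IsSquare (DP p A B))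
    (e₁ : IsSquare (DD A₁ B₁) ∨ IsSquare (DP p A₁ B₁)) : Con p v a a₁ := by
  obtain ⟨s, z⟩ := hE L v p hv A B a h e
  obtain ⟨s₁, z₁⟩ := hE L v p hv A₁ B₁ a₁ h₁ e₁
  rcases z with z | z
  · rcases z₁ with z₁ | z₁
    · exact (hF (L ≃ₐ[ℚ] L) (fun σ => F p v (σ a)) (fun σ => F p v (σ a₁))).1 s s₁ (z 1) (z₁ 1)
    · exact (con_zero z₁).symm
  · exact con_zero z

/-- the first one elliptic, the second one not -/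
lemma con_ell_gen (hL : S_LOC) (hR : S_ROT) (hE : S_ELL) (hF : S_FUN) (hv : Pv L p v)
    (h : Rt p A B a) (h₁ : Rt p A₁ B₁ a₁) (e : IsSquare (DD A B) ∨ IsSquare (DP p A B))
    (e₁ : ¬ IsSquare (DD A₁ B₁)) (e₂ : ¬ IsSquare (DP p A₁ B₁)) : Con p v a a₁ := by
  obtain ⟨ρ, hρ⟩ := hR L p hv.pr.one_lt.le A₁ B₁ a₁ h₁ e₁ e₂
  refine Or.inr (Or.inr ((hF (L ≃ₐ[ℚ] L) (fun σ => F p v (σ a))
    (fun σ => F p v (σ a₁))).2.1 (hE L v p hv A B a h e).1 ⟨ρ, fun σ => ?_⟩))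
  change F p v (σ (ρ (ρ a₁))) = - F p v (σ a₁)
  rw [hρ, slope_bar hL hv h₁]

end ORTAux

open ORTAux in
theorem t_ORT : M_ORT := by
  intro hL hC hR hRef hS hE hF L _ _ _ v p hv A B A₁ B₁ a a₁ w w₁ h h₁ hn
  change ORTAux.Con p v a a₁
  by_cases d : (p : ℤ) ∣ A ∧ (p : ℤ) ∣ B
  · exact con_dvd hL hv h d.1 d.2
  by_cases d₁ : (p : ℤ) ∣ A₁ ∧ (p : ℤ) ∣ B₁
  · exact (con_dvd hL hv h₁ d₁.1 d₁.2).symm
  have hp : 1 ≤ p := hv.pr.one_lt.le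
  by_cases e : IsSquare (DD A B) ∨ IsSquare (DP p A B)
  · by_cases e₁ : IsSquare (DD A₁ B₁) ∨ IsSquare (DP p A₁ B₁)
    · exact con_ell_ell hE hF hv h h₁ e e₁
    · rw [not_or] at e₁
      exact con_ell_gen hL hR hE hF hv h h₁ e e₁.1 e₁.2
  rw [not_or] at e
  by_cases e₁ : IsSquare (DD A₁ B₁) ∨ IsSquare (DP p A₁ B₁)
  · exact (con_ell_gen hL hR hE hF hv h₁ h e₁ e.1 e.2).symm
  rw [not_or] at e₁
  obtain ⟨c, hc⟩ := hC L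
  have hcc : ∀ z : L, Rt p A B z ∨ Rt p A₁ B₁ z → c z = (p : L) / z := by
    rintro z (hz | hz)
    · exact hc p A B z hp w hz
    · exact hc p A₁ B₁ z hp w₁ hz
  by_cases k : ∃ τ : L ≃ₐ[ℚ] L, τ a = a ∧ τ a₁ = (p : L) / a₁
  · obtain ⟨τ, k1, k2⟩ := k
    exact con_fix hL hF hv h₁ τ k1 k2
  by_cases k₁ : ∃ τ : L ≃ₐ[ℚ] L, τ a₁ = a₁ ∧ τ a = (p : L) / a
  · obtain ⟨τ, k1, k2⟩ := k₁
    exact (con_fix hL hF hv h τ k1 k2).symm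
  by_cases m : ∀ τ : L ≃ₐ[ℚ] L, τ a = a → τ a₁ = a₁
  · exact hS L v p hv A B A₁ B₁ a a₁ h h₁ e.1 e₁.1
      ⟨c, hcc a (Or.inl h), hcc a₁ (Or.inr h₁)⟩ m
  by_cases m₁ : ∀ τ : L ≃ₐ[ℚ] L, τ a₁ = a₁ → τ a = a
  · exact ORTAux.Con.symm (hS L v p hv A₁ B₁ A B a₁ a h₁ h e₁.1 e.1
      ⟨c, hcc a₁ (Or.inr h₁), hcc a (Or.inl h)⟩ m₁)
  push Not at m m₁
  obtain ⟨u, u₁, n, n', r1, r2, r3⟩ := hRef L p hp A B A₁ B₁ a a₁ h h₁ e.1 e.2 e₁.1 e₁.2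
    ⟨c, hcc⟩ (fun τ x y => k ⟨τ, x, y⟩) (fun τ x y => k₁ ⟨τ, x, y⟩) m m₁
  exact (hn ⟨⟨e.1, e.2, u, d⟩, ⟨e₁.1, e₁.2, u₁, d₁⟩, n, n', r1, r2, r3⟩).elim

end

end Pool.Agent.GT2
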