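import Pool.Agent.GT2.St
import Pool.Agent.TJ2.JD

/-!
# PAR: the partner property
-/

set_option autoImplicit false

open Polynomial

namespace Pool.Agent.GT2

namespace PARAux

/-- the set `S` and the supersingular polynomial `x² - 4 p` -/
def S' (p : ℕ) (S : ℤ → ℤ → Prop) (A B : ℤ) : Prop := S A B ∨ (A = 0 ∧ B = -4 * p)

theorem w2_ss (p : ℕ) : W2 p 0 (-4 * p) := by
  refine ⟨?_, ?_, ?_, ?_⟩
  · unfold DD
    have : (0 : ℤ) ≤ p := Int.natCast_nonneg p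
    nlinarith
  · unfold DP
    nlinarith
  · have : (0 : ℤ) ≤ p := Int.natCast_nonneg p
    linarith
  · have : (0 : ℤ) ≤ p := Int.natCast_nonneg p
    nlinarith

theorem gen_ss (p : ℕ) : ¬ Gen p 0 (-4 * p) := fun h =>
  h.2.2.2 ⟨dvd_zero _, Dvd.intro_left _ rfl⟩

theorem rt_ss {p : ℕ} (hp : 1 ≤ p) {ρ : Qb} (h : ρ ^ 2 = (p : Qb)) : Rt p 0 (-4 * p) ρ := by
  have hp0 : (p : Qb) ≠ 0 := qne hp
  have h0 : ρ ≠ 0 := by
    rintro rfl
    rw [zero_pow two_ne_zero] at h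
    exact hp0 h.symm
  have h1 : (p : Qb) / ρ = ρ := by
    rw [← h]
    field_simp
  refine ⟨h0, ?_⟩
  rw [h1]
  push_cast
  linear_combination 4 * h

/-- complex roots come from algebraic numbers -/
theorem exists_root (ι : Qb →+* ℂ) {p : ℕ} {A B : ℤ} {r : ℂ} (hr : Rt p A B r) :
    ∃ x : Qb, ι x = r ∧ Rt p A B x := by
  have hr0 := hr.1
  have hf : (X ^ 4 + (C A * X ^ 3 + C (2 * (p : ℤ) + B) * X ^ 2 + C ((p : ℤ) * A) * X +
      C ((p : ℤ) ^ 2)) : ℤ[X]).Monic := by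
    refine monic_X_pow_add (n := 4) ?_
    refine lt_of_le_of_lt degree_cubic_le ?_
    norm_num
  have hroot : ((X ^ 4 + (C A * X ^ 3 + C (2 * (p : ℤ) + B) * X ^ 2 + C ((p : ℤ) * A) * X +
      C ((p : ℤ) ^ 2)) : ℤ[X]).map (Int.castRingHom ℂ)).IsRoot r := by
    rw [Polynomial.IsRoot.def]
    have h1 := hr.2
    have h2 : r ^ 2 * ((r + (p : ℂ) / r) ^ 2 + A * (r + p / r) + B) =
        r ^ 4 + (A * r ^ 3 + (2 * (p : ℂ) + B) * r ^ 2 + (p : ℂ) * A * r + (p : ℂ) ^ 2) := by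
      field_simp
      ring
    rw [h1, mul_zero] at h2
    simp only [Polynomial.map_add, Polynomial.map_mul, Polynomial.map_pow, Polynomial.map_X,
      Polynomial.map_C, eval_add, eval_mul, eval_pow, eval_X, eval_C]
    rw [h2]
    simp
  obtain ⟨x, hx, -⟩ := Pool.Agent.TJ2.JD_root ι _ hf r hroot
  refine ⟨x, hx, ?_, ?_⟩
  · rintro rfl
    exact hr0 (by rw [← hx, map_zero])
  · apply ι.injective
    rw [map_zero, map_add, map_add, map_pow, map_mul, map_add, map_div₀, map_natCast, map_intCast,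
      map_intCast, hx]
    exact hr.2

theorem adm (ι : Qb →+* ℂ) {p : ℕ} (hp : 1 ≤ p) {S : ℤ → ℤ → Prop} {z : ℂ} (hz : AdS p S z) :
    ∃ x : Qb, (∃ A B, S' p S A B ∧ Rt p A B x) ∧ ∃ N : ℕ, 1 ≤ N ∧ z ^ N = (ι x) ^ N := by
  obtain ⟨N, hN, h | ⟨A, B, hS, r, hr, h⟩⟩ := hz
  · obtain ⟨ρ, hρ⟩ := IsAlgClosed.exists_pow_nat_eq (p : Qb) (n := 2) (by norm_num)
    refine ⟨ρ, ⟨0, -4 * p, Or.inr ⟨rfl, rfl⟩, rt_ss hp hρ⟩, 2 * N, by omega, ?_⟩
    rw [h, pow_mul, ← map_pow, hρ, map_natCast]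
  · obtain ⟨x, hx, hR⟩ := exists_root ι hr
    exact ⟨x, ⟨A, B, Or.inl hS, hR⟩, N, hN, by rw [hx, h]⟩

theorem lift_list (ι : Qb →+* ℂ) {p : ℕ} (hp : 1 ≤ p) {S : ℤ → ℤ → Prop} (L : List ℂ)
    (hL : ∀ y ∈ L, AdS p S y) : ∃ (o : List Qb) (M : ℕ), 1 ≤ M ∧ o.length = L.length ∧
      (∀ y ∈ o, (∃ A B, S' p S A B ∧ Rt p A B y) ∧
        ∃ w ∈ L, ∃ N : ℕ, 1 ≤ N ∧ w ^ N = (ι y) ^ N) ∧
      L.prod ^ M = (ι o.prod) ^ M := by
  induction L with
  | nil => exact ⟨[], 1, le_rfl, rfl, by simp, by simp⟩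
  | cons z L ih =>
    obtain ⟨o, M, hM, hlen, ho, hp'⟩ := ih fun y hy => hL y (List.mem_cons_of_mem _ hy)
    obtain ⟨x, hx, N, hN, hz⟩ := adm ι hp (hL z List.mem_cons_self)
    refine ⟨x :: o, M * N, Nat.mul_pos hM hN, by rw [List.length_cons, List.length_cons, hlen],
      ?_, ?_⟩
    · intro y hy
      rcases List.mem_cons.1 hy with rfl | hy
      · exact ⟨hx, z, List.mem_cons_self, N, hN, hz⟩
      · obtain ⟨h1, w, hw, h3⟩ := ho y hy
        exact ⟨h1, w, List.mem_cons_of_mem _ hw, h3⟩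
    · have e1 : z ^ (M * N) = (ι x) ^ (M * N) := by
        rw [mul_comm, pow_mul, hz, ← pow_mul]
      have e2 : L.prod ^ (M * N) = (ι o.prod) ^ (M * N) := by
        rw [pow_mul, hp', ← pow_mul]
      rw [List.prod_cons, mul_pow, e1, e2, List.prod_cons, map_mul, mul_pow]

/-- the sum of the slopes of a list -/
theorem sum_F (p : ℕ) (v : AbsoluteValue Qb ℝ) (σ : Qb ≃ₐ[ℚ] Qb) (l : List Qb)
    (hl : ∀ y ∈ l, y ≠ 0) : l.prod ≠ 0 ∧ (l.map fun y => F p v (σ y)).sum =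
      l.length - 2 * (Real.log (v (σ l.prod)) / Real.log (v (p : Qb))) := by
  induction l with
  | nil => simp
  | cons y l ih =>
    obtain ⟨h1, h2⟩ := ih fun z hz => hl z (List.mem_cons_of_mem _ hz)
    have hy : y ≠ 0 := hl y List.mem_cons_self
    refine ⟨by rw [List.prod_cons]; exact mul_ne_zero hy h1, ?_⟩
    have hv1 : v (σ y) ≠ 0 := (v.ne_zero_iff).2 ((map_ne_zero σ).2 hy)
    have hv2 : v (σ l.prod) ≠ 0 := (v.ne_zero_iff).2 ((map_ne_zero σ).2 h1)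
    rw [List.map_cons, List.sum_cons, h2, List.prod_cons, map_mul, map_mul v,
      Real.log_mul hv1 hv2, List.length_cons]
    unfold F
    push_cast
    ring

end PARAux

open PARAux in
theorem t_PAR : M_PAR := by
  intro hPRT hUNT hEXV p hp hp2 S hW hR z l hz hl j N hN hlen hrel
  have hp1 : 1 ≤ p := hp.one_le
  obtain ⟨v, hna, hlt⟩ := hEXV p hp
  obtain ⟨ι⟩ := Pool.Agent.TJ2.JD_emb ℂ
  obtain ⟨x, hx, N₀, hN₀, hz0⟩ := adm ι hp1 hz
  obtain ⟨o, M, hM, hol, ho, hp'⟩ := lift_list ι hp1 l hl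
  have hp0 : (p : Qb) ≠ 0 := qne hp1
  have hvp : 0 < v (p : Qb) := v.pos hp0
  have hlog : Real.log (v (p : Qb)) < 0 := Real.log_neg hvp hlt
  have hall : ∀ y ∈ x :: o, ∃ A B, S' p S A B ∧ Rt p A B y := by
    intro y hy
    rcases List.mem_cons.1 hy with rfl | hy
    · exact hx
    · exact (ho y hy).1
  have hne : ∀ y ∈ x :: o, y ≠ 0 := fun y hy => by
    obtain ⟨A, B, -, h⟩ := hall y hy
    exact h.1
  -- the relation in `Qb`
  have hQ : (x :: o).prod ^ (N * N₀ * M) = ((p : Qb) ^ j) ^ (N * N₀ * M) := by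
    apply ι.injective
    rw [map_pow, map_pow, map_pow, map_natCast, List.prod_cons, map_mul, mul_pow]
    have e1 : (ι x) ^ (N * N₀ * M) = z ^ (N * N₀ * M) := by
      have : N * N₀ * M = N₀ * (N * M) := by ring
      rw [this, pow_mul, ← hz0, ← pow_mul]
    have e2 : (ι o.prod) ^ (N * N₀ * M) = l.prod ^ (N * N₀ * M) := by
      have : N * N₀ * M = M * (N * N₀) := by ring
      rw [this, pow_mul, ← hp', ← pow_mul]
    rw [e1, e2, ← mul_pow]
    have : N * N₀ * M = N * (N₀ * M) := by ring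
    rw [this, pow_mul, hrel, ← pow_mul]
  have hK : 1 ≤ N * N₀ * M := Nat.mul_pos (Nat.mul_pos hN hN₀) hM
  have hsum : ∀ σ : Qb ≃ₐ[ℚ] Qb, ((x :: o).map fun y => F p v (σ y)).sum = 0 := by
    intro σ
    obtain ⟨h1, h2⟩ := sum_F p v σ (x :: o) hne
    rw [h2]
    have h3 : v (σ (x :: o).prod) = v (p : Qb) ^ j := by
      have h4 := congrArg (fun y => v (σ y)) hQ
      simp only [map_pow, map_natCast] at h4
      exact (pow_left_inj₀ (v.nonneg _) (pow_nonneg (v.nonneg _) _) (by omega)).1 h4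
    rw [h3, Real.log_pow, List.length_cons, hol]
    have h5 : ((l.length : ℝ) + 1) = 2 * j := by exact_mod_cast hlen
    push_cast
    rw [h5, mul_div_assoc, div_self hlog.ne]
    ring
  have hodd : Odd o.length := by
    rw [hol]
    exact ⟨j - 1, by omega⟩
  obtain ⟨y, hy, hyx⟩ := hPRT v p hp hp2 hna hlt (S' p S)
    (by
      rintro A B (h | ⟨rfl, rfl⟩)
      · exact hW A B h
      · exact w2_ss p)
    (by
      rintro A B A₁ B₁ (h | ⟨rfl, rfl⟩) (h₁ | ⟨rfl, rfl⟩) hr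
      · exact hR A B A₁ B₁ h h₁ hr
      · exact gen_ss p hr.2.1
      · exact gen_ss p hr.1
      · exact gen_ss p hr.1)
    x o hall hsum hodd
  have hW' : ∀ A B, S' p S A B → W2 p A B := by
    rintro A B (h | ⟨rfl, rfl⟩)
    · exact hW A B h
    · exact w2_ss p
  obtain ⟨A, B, hS, hRx⟩ := hx
  obtain ⟨⟨A₁, B₁, hS₁, hRy⟩, w, hw, N₁, hN₁, hw1⟩ := ho y hy
  obtain ⟨N', hN', hxy⟩ := hUNT v p hp hna hlt A B A₁ B₁ (hW' A B hS) (hW' A₁ B₁ hS₁) x y hRx hRy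
    hyx
  refine ⟨w, hw, N' * (N₀ * N₁), Nat.mul_pos hN' (Nat.mul_pos hN₀ hN₁), ?_⟩
  have e1 : z ^ (N' * (N₀ * N₁)) = (ι x) ^ (N' * (N₀ * N₁)) := by
    have : N' * (N₀ * N₁) = N₀ * (N' * N₁) := by ring
    rw [this, pow_mul, hz0, ← pow_mul]
  have e2 : w ^ (N' * (N₀ * N₁)) = (ι y) ^ (N' * (N₀ * N₁)) := by
    have : N' * (N₀ * N₁) = N₁ * (N' * N₀) := by ring
    rw [this, pow_mul, hw1, ← pow_mul]
  have e3 := congrArg ι hxy
  rw [map_pow, map_mul, map_pow, map_natCast] at e3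
  rw [mul_pow, e1, e2, ← mul_pow, pow_mul, e3, ← pow_mul]

end Pool.Agent.GT2
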