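import Pool.Agent.GT2.St

/-!
# GT2: partners in the field of algebraic numbers (helper88)
-/

set_option autoImplicit false

namespace Pool.Agent.GT2

namespace PRTAux

lemma F_comp {L : Type} [Field L] (v : AbsoluteValue Qb ℝ) (f : L →+* Qb) (p : ℕ)
    (w : AbsoluteValue L ℝ) (hw : ∀ x, w x = v (f x)) (x : L) : F p w x = F p v (f x) := by
  unfold F
  rw [hw, hw, map_natCast]

end PRTAux

theorem t_PRT : M_PRT := by
  intro hORT hCMB hLFN v p hp hp2 hna hlt S hW hR x l hroots hsum hodd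
  classical
  obtain ⟨L, hfin, hgal, hmem, hext⟩ := hLFN (x :: l).toFinset
  have hnf : NumberField L := @NumberField.mk _ _ inferInstance (by convert hfin)
  have hL : ∀ y ∈ x :: l, y ∈ L := fun y hy => hmem y (List.mem_toFinset.2 hy)
  let f : L →+* Qb := algebraMap L Qb
  have hf : Function.Injective f := (algebraMap L Qb).injective
  let w : AbsoluteValue L ℝ := v.comp hf
  have hw : ∀ y : L, w y = v (y : Qb) := fun y => rfl
  have hF : ∀ y : L, F p w y = F p v (y : Qb) := fun y => PRTAux.F_comp v f p w hw y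
  have hPv : Pv L p w := by
    refine ⟨hp, hp2, ?_, ?_⟩
    · intro a b
      rw [hw, hw, hw]
      exact hna a b
    · rw [hw]
      exact hlt
  let G : Qb → (L ≃ₐ[ℚ] L) → ℝ := fun y τ => if h : y ∈ L then F p w (τ ⟨y, h⟩) else 0
  have hG : ∀ y (h : y ∈ L) τ, G y τ = F p w (τ ⟨y, h⟩) := fun y h τ => dif_pos h
  have hGs : ∀ y (h : y ∈ L) (τ : L ≃ₐ[ℚ] L) (σ : Qb ≃ₐ[ℚ] Qb),
      (∀ z : L, σ (z : Qb) = (τ z : Qb)) → G y τ = F p v (σ y) := by
    intro y h τ σ hs
    rw [hG y h, hF, ← hs]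
  have hrt : ∀ y (h : y ∈ L) (A B : ℤ), Rt p A B y → Rt p A B (⟨y, h⟩ : L) := by
    intro y h A B hr
    refine ⟨fun h0 => hr.1 (by simpa using congrArg (Subtype.val) h0), ?_⟩
    apply hf
    have := hr.2
    simpa [f] using this
  have hort : ∀ y ∈ x :: l, ∀ z ∈ x :: l, G y = G z ∨ G y = - G z ∨
      ∑ σ : L ≃ₐ[ℚ] L, G y σ * G z σ = 0 := by
    intro y hy z hz
    obtain ⟨A, B, hS, hr⟩ := hroots y hy
    obtain ⟨A₁, B₁, hS₁, hr₁⟩ := hroots z hz
    rcases hORT L w p hPv A B A₁ B₁ ⟨y, hL y hy⟩ ⟨z, hL z hz⟩ (hW A B hS) (hW A₁ B₁ hS₁)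
      (hrt y _ A B hr) (hrt z _ A₁ B₁ hr₁) (hR A B A₁ B₁ hS hS₁) with h | h | h
    · left
      funext τ
      rw [hG y (hL y hy), hG z (hL z hz)]
      exact h τ
    · right
      left
      funext τ
      rw [Pi.neg_apply, hG y (hL y hy), hG z (hL z hz)]
      exact h τ
    · right
      right
      rw [← h]
      refine Finset.sum_congr rfl fun τ _ => ?_
      rw [hG y (hL y hy), hG z (hL z hz)]
  have hsum' : (G x :: l.map G).sum = 0 := by
    funext τ
    obtain ⟨σ, hs⟩ := hext τ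
    have h1 := hsum σ
    rw [← List.map_cons, Pi.list_sum_apply, List.map_map, Pi.zero_apply, ← h1]
    congr 1
    refine List.map_congr_left fun y hy => ?_
    exact hGs y (hL y hy) τ σ hs
  obtain ⟨g, hg, hgx⟩ := hCMB (L ≃ₐ[ℚ] L) (l.map G) (G x) (by
    intro y hy z hz
    rw [← List.map_cons, List.mem_map] at hy hz
    obtain ⟨y', hy', rfl⟩ := hy
    obtain ⟨z', hz', rfl⟩ := hz
    exact hort y' hy' z' hz') hsum' (by rw [List.length_map]; exact hodd)
  rw [List.mem_map] at hg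
  obtain ⟨y, hy, rfl⟩ := hg
  refine ⟨y, hy, fun σ => ?_⟩
  have hnorm : Normal ℚ L := hgal.to_normal
  have hs : ∀ z : L, σ (z : Qb) = ((σ.restrictNormal L) z : Qb) := fun z =>
    (AlgEquiv.restrictNormal_commutes σ L z).symm
  have hy' : y ∈ L := hL y (List.mem_cons_of_mem _ hy)
  have hx' : x ∈ L := hL x List.mem_cons_self
  rw [← hGs y hy' (σ.restrictNormal L) σ hs, ← hGs x hx' (σ.restrictNormal L) σ hs, hgx]
  rfl

end Pool.Agent.GT2
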