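import Pool.Agent.GT2.St

set_option autoImplicit false

namespace Pool.Agent.GT2

namespace REAAux

/-- the real part of the statement -/
lemma real_bound {q x A B : ℝ} (hq : 0 < q) (hdp : 0 ≤ (B + 4 * q) ^ 2 - 4 * q * A ^ 2)
    (hs : 0 ≤ B + 4 * q) (ha : A ^ 2 ≤ 16 * q) (hx : x ^ 2 + A * x + B = 0) : x ^ 2 ≤ 4 * q := by
  by_contra hlt
  have hlt : 4 * q < x ^ 2 := not_le.1 hlt
  obtain ⟨y, hy⟩ : ∃ y : ℝ, y = - A - x := ⟨_, rfl⟩
  have hA : A = - (x + y) := by rw [hy]; ring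
  have hB : B = x * y := by rw [hy]; linear_combination hx
  subst hA
  subst hB
  have h1 : 0 ≤ (x ^ 2 - 4 * q) * (y ^ 2 - 4 * q) := by
    have : (x ^ 2 - 4 * q) * (y ^ 2 - 4 * q) =
        (x * y + 4 * q) ^ 2 - 4 * q * (-(x + y)) ^ 2 := by ring
    rw [this]
    exact hdp
  have h2 : 0 ≤ y ^ 2 - 4 * q := by
    by_contra h
    have h := not_le.1 h
    have := mul_neg_of_pos_of_neg (sub_pos.2 hlt) h
    linarith
  have h3 : 16 * q ^ 2 < (x * y) ^ 2 := by
    have e : (x * y) ^ 2 = (x ^ 2 - 4 * q) * (y ^ 2 - 4 * q) + 4 * q * (x ^ 2 - 4 * q)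
        + 4 * q * (y ^ 2 - 4 * q) + 16 * q ^ 2 := by ring
    have h4 : 0 < 4 * q * (x ^ 2 - 4 * q) := mul_pos (by linarith) (sub_pos.2 hlt)
    have h5 : 0 ≤ 4 * q * (y ^ 2 - 4 * q) := mul_nonneg (by linarith) h2
    rw [e]
    linarith
  rcases le_or_gt 0 (x * y) with h | h
  · have h4 : 4 * q < x * y := by
      by_contra hc
      have hc := not_lt.1 hc
      nlinarith
    nlinarith
  · nlinarith

end REAAux

theorem t_REA : S_REA := by
  intro q hq A B hW t ht
  have hq' : (0 : ℝ) < (q : ℝ) := by exact_mod_cast hq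
  have hd : (0 : ℝ) ≤ (A : ℝ) ^ 2 - 4 * B := by
    have h := hW.d
    unfold DD at h
    exact_mod_cast h
  have hdp : (0 : ℝ) ≤ ((B : ℝ) + 4 * q) ^ 2 - 4 * q * (A : ℝ) ^ 2 := by
    have h := hW.dp
    unfold DP at h
    exact_mod_cast h
  have hs : (0 : ℝ) ≤ (B : ℝ) + 4 * q := by exact_mod_cast hW.s
  have ha : (A : ℝ) ^ 2 ≤ 16 * q := by exact_mod_cast hW.a
  have hre : t.re ^ 2 - t.im ^ 2 + A * t.re + B = 0 := by
    have h := congrArg Complex.re ht
    simp [pow_two] at h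
    linear_combination h
  have him : 2 * t.re * t.im + A * t.im = 0 := by
    have h := congrArg Complex.im ht
    simp [pow_two] at h
    linear_combination h
  have h0 : t.im = 0 := by
    by_contra hne
    have h1 : 2 * t.re + A = 0 := by
      have : (2 * t.re + A) * t.im = 0 := by linear_combination him
      exact (mul_eq_zero.1 this).resolve_right hne
    have h2 : 0 < t.im ^ 2 := by positivity
    nlinarith
  refine ⟨h0, ?_⟩
  refine REAAux.real_bound hq' hdp hs ha ?_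
  rw [h0] at hre
  linear_combination hre

end Pool.Agent.GT2
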