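import Pool.Agent.GT2.St

/-!
# GT2: reflex pairs (module REF, MP_cb388a_ag, helper55)
-/

set_option autoImplicit false

namespace Pool.Agent.GT2

noncomputable section

namespace REFAux

variable {L : Type} [Field L]

/-- the difference changes at most the sign -/
lemma sub_pm [CharZero L] {q : ℕ} {a b : L} (hq : 1 ≤ q) (ha : a ≠ 0)
    (h : b = a ∨ b = (q : L) / a) :
    b - (q : L) / b = a - q / a ∨ b - (q : L) / b = -(a - q / a) := by
  rcases h with rfl | rfl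
  · exact Or.inl rfl
  · right
    rw [bar_bar hq ha]
    ring

/-- a number whose square is not the square of an integer is not zero -/
lemma ne_zero_of {x : L} {N : ℤ} [CharZero L] (h : x ^ 2 = (N : L)) (hN : ¬ IsSquare N) :
    x ≠ 0 := by
  rintro rfl
  apply hN
  have h1 : (N : L) = 0 := by rw [← h]; ring
  have h2 : N = 0 := by exact_mod_cast h1
  rw [h2]
  exact ⟨0, rfl⟩

variable [NumberField L]

lemma map_df {q : ℕ} (σ : L ≃ₐ[ℚ] L) (x : L) :
    σ (x - (q : L) / x) = σ x - (q : L) / σ x := by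
  rw [map_sub, map_bar]

lemma map_r {q : ℕ} {A : ℤ} (σ : L ≃ₐ[ℚ] L) (a : L) :
    σ (2 * (a + (q : L) / a) + A) = 2 * (σ a + (q : L) / σ a) + A := by
  rw [map_add, map_mul, map_tr, map_intCast, map_ofNat]

/-- if `σ r = -r` for one `σ`, the pair `y`, `σ y` is permuted -/
lemma sum_fixed {r y : L} (hpm : ∀ σ : L ≃ₐ[ℚ] L, σ r = r ∨ σ r = -r)
    (hf : ∀ σ : L ≃ₐ[ℚ] L, σ r = r → σ y = y) (σ : L ≃ₐ[ℚ] L) (hσ : σ r = -r)
    (g : L ≃ₐ[ℚ] L) : g (y + σ y) = y + σ y := by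
  have hs : σ.symm (-r) = r := by rw [← hσ, AlgEquiv.symm_apply_apply]
  rw [map_add]
  rcases hpm g with h | h
  · have h1 := hf ((σ.trans g).trans σ.symm) (by
      simp only [AlgEquiv.trans_apply]
      rw [hσ, map_neg, h, hs])
    simp only [AlgEquiv.trans_apply] at h1
    have h2 : g (σ y) = σ y := by
      have := congrArg σ h1
      rwa [AlgEquiv.apply_symm_apply] at this
    rw [hf g h, h2]
  · have h1 := hf (g.trans σ.symm) (by
      simp only [AlgEquiv.trans_apply]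
      rw [h, hs])
    simp only [AlgEquiv.trans_apply] at h1
    have h2 : g y = σ y := by
      have := congrArg σ h1
      rwa [AlgEquiv.apply_symm_apply] at this
    have h3 := hf (σ.trans g) (by
      simp only [AlgEquiv.trans_apply]
      rw [hσ, map_neg, h, neg_neg])
    simp only [AlgEquiv.trans_apply] at h3
    rw [h2, h3, add_comm]

end REFAux

open REFAux in
theorem t_REF : M_REF := by
  intro hROT hSWP hCHR L _ _ _ q hq A B A₁ B₁ a a₁ ha ha₁ h1 h2 h3 h4 hc hn hn' hm hm'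
  obtain ⟨x, hx, hx1, hx2, ⟨τ₁, ht1, ht1'⟩, hx4⟩ := hSWP L q hq A₁ B₁ a a₁ ha₁ hn hm
  obtain ⟨b, hb, hb1, hb2, ⟨τ₂, ht2, ht2'⟩, hb4⟩ := hSWP L q hq A B a₁ a ha hn' hm'
  obtain ⟨c, hc⟩ := hc
  obtain ⟨t, ht⟩ : ∃ t, t = a + (q : L) / a := ⟨_, rfl⟩
  obtain ⟨t₁, ht₁⟩ : ∃ t₁, t₁ = a₁ + (q : L) / a₁ := ⟨_, rfl⟩
  obtain ⟨e, he⟩ : ∃ e, e = a - (q : L) / a := ⟨_, rfl⟩
  obtain ⟨f, hf⟩ : ∃ f, f = b - (q : L) / b := ⟨_, rfl⟩
  obtain ⟨p, hp⟩ : ∃ p, p = a₁ - (q : L) / a₁ := ⟨_, rfl⟩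
  obtain ⟨p', hp'⟩ : ∃ p', p' = x - (q : L) / x := ⟨_, rfl⟩
  obtain ⟨r, hr⟩ : ∃ r, r = 2 * (a + (q : L) / a) + A := ⟨_, rfl⟩
  obtain ⟨r₁, hr₁⟩ : ∃ r₁, r₁ = 2 * (a₁ + (q : L) / a₁) + A₁ := ⟨_, rfl⟩
  have hDP₁ : (p * p') ^ 2 = ((DP q A₁ B₁ : ℤ) : L) := by rw [hp, hp']; exact ha₁.dp hq hx.1 hx2
  have hDP : (e * f) ^ 2 = ((DP q A B : ℤ) : L) := by rw [he, hf]; exact ha.dp hq hb.1 hb2
  have hDD : r ^ 2 = ((DD A B : ℤ) : L) := by rw [hr]; exact ha.disc
  have hDD₁ : r₁ ^ 2 = ((DD A₁ B₁ : ℤ) : L) := by rw [hr₁]; exact ha₁.disc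
  have hr0 : r ≠ 0 := ne_zero_of hDD h1
  have hr₁0 : r₁ ≠ 0 := ne_zero_of hDD₁ h3
  have hpp0 : p * p' ≠ 0 := ne_zero_of hDP₁ h4
  have hef0 : e * f ≠ 0 := ne_zero_of hDP h2
  -- the elements of the stabilisers
  have hsw : ∀ τ : L ≃ₐ[ℚ] L, τ a = a → (τ p = p ∧ τ p' = p') ∨ (τ p = p' ∧ τ p' = p) := by
    intro τ hτ
    rw [hp, hp', map_df, map_df]
    rcases hx4 τ hτ with ⟨g1, g2⟩ | ⟨g1, g2⟩
    · left; rw [g1, g2]; exact ⟨rfl, rfl⟩
    · right; rw [g1, g2]; exact ⟨rfl, rfl⟩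
  have hsw' : ∀ τ : L ≃ₐ[ℚ] L, τ a₁ = a₁ → (τ e = e ∧ τ f = f) ∨ (τ e = f ∧ τ f = e) := by
    intro τ hτ
    rw [he, hf, map_df, map_df]
    rcases hb4 τ hτ with ⟨g1, g2⟩ | ⟨g1, g2⟩
    · left; rw [g1, g2]; exact ⟨rfl, rfl⟩
    · right; rw [g1, g2]; exact ⟨rfl, rfl⟩
  have hfix : ∀ τ : L ≃ₐ[ℚ] L, τ a = a → τ (p * p') = p * p' := by
    intro τ hτ
    rw [map_mul]
    rcases hsw τ hτ with ⟨g1, g2⟩ | ⟨g1, g2⟩
    · rw [g1, g2]
    · rw [g1, g2, mul_comm]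
  have hfix' : ∀ τ : L ≃ₐ[ℚ] L, τ a₁ = a₁ → τ (e * f) = e * f := by
    intro τ hτ
    rw [map_mul]
    rcases hsw' τ hτ with ⟨g1, g2⟩ | ⟨g1, g2⟩
    · rw [g1, g2]
    · rw [g1, g2, mul_comm]
  obtain ⟨n, hn1, hn2⟩ := hCHR L q hq A B a ha h1 (hROT L q hq A B a ha h1 h2) (p * p')
    (DP q A₁ B₁) hDP₁ h4 hfix
  obtain ⟨m, hm1, hm2⟩ := hCHR L q hq A₁ B₁ a₁ ha₁ h3 (hROT L q hq A₁ B₁ a₁ ha₁ h3 h4) (e * f)
    (DP q A B) hDP h2 hfix'
  rw [← hr] at hn1
  rw [← hr₁] at hm1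
  -- the two products are no squares
  have hnsq : ¬ IsSquare (DD A B * DP q A B) := by
    intro hs
    have g1 : (r * (e * f)) ^ 2 = ((DD A B * DP q A B : ℤ) : L) := by
      rw [mul_pow, hDD, hDP]
      push_cast
      ring
    have g2 := fixed_of_sq hs g1 τ₂
    have g3 : τ₂ r = -r := by
      rw [hr, map_r, ht2', hb2]
      ring
    rw [map_mul, g3, hfix' τ₂ ht2] at g2
    have g4 : 2 * (r * (e * f)) = 0 := by linear_combination -g2
    rcases mul_eq_zero.1 g4 with g5 | g5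
    · exact two_ne_zero g5
    · exact mul_ne_zero hr0 hef0 g5
  have hnsq' : ¬ IsSquare (DD A₁ B₁ * DP q A₁ B₁) := by
    intro hs
    have g1 : (r₁ * (p * p')) ^ 2 = ((DD A₁ B₁ * DP q A₁ B₁ : ℤ) : L) := by
      rw [mul_pow, hDD₁, hDP₁]
      push_cast
      ring
    have g2 := fixed_of_sq hs g1 τ₁
    have g3 : τ₁ r₁ = -r₁ := by
      rw [hr₁, map_r, ht1', hx2]
      ring
    rw [map_mul, g3, hfix τ₁ ht1] at g2
    have g4 : 2 * (r₁ * (p * p')) = 0 := by linear_combination -g2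
    rcases mul_eq_zero.1 g4 with g5 | g5
    · exact two_ne_zero g5
    · exact mul_ne_zero hr₁0 hpp0 g5
  refine ⟨hnsq, hnsq', ?_⟩
  -- the number y
  obtain ⟨y, hy⟩ : ∃ y, y = e * (p + p') := ⟨_, rfl⟩
  have hyH : ∀ τ : L ≃ₐ[ℚ] L, τ a = a → τ y = y := by
    intro τ hτ
    have g1 : τ e = e := by rw [he, map_df, hτ]
    rw [hy, map_mul, map_add, g1]
    rcases hsw τ hτ with ⟨g2, g3⟩ | ⟨g2, g3⟩
    · rw [g2, g3]
    · rw [g2, g3, add_comm]
  have hcd : ∀ z : L, z ≠ 0 → c z = (q : L) / z → c (z - (q : L) / z) = -(z - (q : L) / z) := by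
    intro z hz hcz
    rw [map_df, hcz, bar_bar hq hz]
    ring
  have hyc : c y = y := by
    rw [hy, map_mul, map_add, he, hp, hp', hcd a ha.1 (hc a (Or.inl ha)),
      hcd a₁ ha₁.1 (hc a₁ (Or.inr ha₁)), hcd x hx.1 (hc x (Or.inr hx))]
    ring
  have hyr : ∀ σ : L ≃ₐ[ℚ] L, σ r = r → σ y = y := by
    intro σ hσ
    have g1 : σ a + (q : L) / σ a = a + q / a := by
      rw [hr, map_r] at hσ
      have g2 : (2 : L) * (σ a + (q : L) / σ a) = 2 * (a + q / a) := by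
        linear_combination hσ
      exact mul_left_cancel₀ two_ne_zero g2
    rcases eq_or_bar ha.1 ((map_ne_zero σ).2 ha.1) g1 with g2 | g2
    · exact hyH σ g2
    · have g3 : c.symm ((q : L) / a) = a := by
        rw [← hc a (Or.inl ha), AlgEquiv.symm_apply_apply]
      have g4 := hyH (σ.trans c.symm) (by
        simp only [AlgEquiv.trans_apply]
        rw [g2, g3])
      simp only [AlgEquiv.trans_apply] at g4
      have g5 := congrArg c g4
      rw [AlgEquiv.apply_symm_apply, hyc] at g5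
      exact g5
  obtain ⟨σ, hσ⟩ : ∃ σ : L ≃ₐ[ℚ] L, σ r = -r := by
    by_contra hcon
    push Not at hcon
    exact h1 (sq_of_fixed (fun σ => (map_pm hDD σ).resolve_right (hcon σ)) hDD)
  have hsum : ∀ g : L ≃ₐ[ℚ] L, g (y + σ y) = y + σ y :=
    sum_fixed (map_pm hDD) hyr σ hσ
  -- the squares
  obtain ⟨U, hU⟩ : ∃ U : ℤ, U = A ^ 2 - 2 * B - 8 * q := ⟨_, rfl⟩
  obtain ⟨U₁, hU₁⟩ : ∃ U₁ : ℤ, U₁ = A₁ ^ 2 - 2 * B₁ - 8 * q := ⟨_, rfl⟩
  have hat := ha.2
  have hat₁ := ha₁.2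
  have he2 : 2 * e ^ 2 = (U : L) - A * r := by
    rw [he, sub_sq hq ha.1, hU, hr]
    push_cast
    linear_combination 2 * hat
  have hp2 : p ^ 2 = (a₁ + (q : L) / a₁) ^ 2 - 4 * q := by rw [hp]; exact sub_sq hq ha₁.1
  have hp2' : p' ^ 2 = (- A₁ - (a₁ + (q : L) / a₁)) ^ 2 - 4 * q := by
    rw [hp', sub_sq hq hx.1, hx2]
  have hw2 : (p + p') ^ 2 = (U₁ : L) + 2 * (p * p') := by
    rw [hU₁]
    push_cast
    linear_combination hp2 + hp2' + 2 * hat₁
  have hy2 : 2 * y ^ 2 = ((U : L) - A * r) * ((U₁ : L) + 2 * (p * p')) := by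
    rw [hy, mul_pow, ← he2, ← hw2]
    ring
  have hσδ : σ (p * p') = -(p * p') := by
    have g1 := congrArg σ hn1
    rw [map_mul, hσ, map_intCast, ← hn1] at g1
    have g2 : r * σ (p * p') = r * -(p * p') := by linear_combination -g1
    exact mul_left_cancel₀ hr0 g2
  have hσy2 : 2 * (σ y) ^ 2 = ((U : L) + A * r) * ((U₁ : L) - 2 * (p * p')) := by
    have g1 := congrArg σ hy2
    rw [map_mul, map_pow, map_ofNat, map_mul, map_sub, map_intCast, map_mul, map_intCast, hσ,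
      map_add, map_intCast, map_mul, map_ofNat, hσδ] at g1
    rw [g1]
    ring
  have hsq : y ^ 2 + (σ y) ^ 2 = (U : L) * U₁ - 2 * A * n := by
    have g1 : (2 : L) * (y ^ 2 + (σ y) ^ 2) = 2 * ((U : L) * U₁ - 2 * A * n) := by
      rw [← hn1]
      linear_combination hy2 + hσy2
    exact mul_left_cancel₀ two_ne_zero g1
  -- the product
  have hσt : σ a + (q : L) / σ a = b + q / b := by
    rw [hb2]
    rw [hr, map_r] at hσ
    have g2 : (2 : L) * (σ a + (q : L) / σ a) = 2 * (- A - (a + q / a)) := by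
      linear_combination hσ
    exact mul_left_cancel₀ two_ne_zero g2
  have hσe : σ e = f ∨ σ e = -f := by
    rw [he, map_df, hf]
    exact sub_pm hq hb.1 (eq_or_bar hb.1 ((map_ne_zero σ).2 ha.1) hσt)
  have hσx : σ x + (q : L) / σ x = - A₁ - (σ a₁ + (q : L) / σ a₁) := by
    have g1 := congrArg σ hx2
    rw [map_tr, map_sub, map_neg, map_intCast, map_tr] at g1
    exact g1
  have hσp : ((σ p = p ∨ σ p = -p) ∧ (σ p' = p' ∨ σ p' = -p')) ∨
      ((σ p = p' ∨ σ p = -p') ∧ (σ p' = p ∨ σ p' = -p)) := by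
    rw [hp, hp', map_df, map_df]
    rcases map_pm hDD₁ σ with g | g
    · left
      have g1 : σ a₁ + (q : L) / σ a₁ = a₁ + q / a₁ := by
        rw [hr₁, map_r] at g
        have g2 : (2 : L) * (σ a₁ + (q : L) / σ a₁) = 2 * (a₁ + q / a₁) := by
          linear_combination g
        exact mul_left_cancel₀ two_ne_zero g2
      have g2 : σ x + (q : L) / σ x = x + q / x := by rw [hσx, g1, hx2]
      exact ⟨sub_pm hq ha₁.1 (eq_or_bar ha₁.1 ((map_ne_zero σ).2 ha₁.1) g1),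
        sub_pm hq hx.1 (eq_or_bar hx.1 ((map_ne_zero σ).2 hx.1) g2)⟩
    · right
      have g1 : σ a₁ + (q : L) / σ a₁ = x + q / x := by
        rw [hx2]
        rw [hr₁, map_r] at g
        have g2 : (2 : L) * (σ a₁ + (q : L) / σ a₁) = 2 * (- A₁ - (a₁ + q / a₁)) := by
          linear_combination g
        exact mul_left_cancel₀ two_ne_zero g2
      have g2 : σ x + (q : L) / σ x = a₁ + q / a₁ := by
        rw [hσx, g1, hx2]
        ring
      exact ⟨sub_pm hq hx.1 (eq_or_bar hx.1 ((map_ne_zero σ).2 ha₁.1) g1),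
        sub_pm hq ha₁.1 (eq_or_bar ha₁.1 ((map_ne_zero σ).2 hx.1) g2)⟩
  have hdiff : p ^ 2 - p' ^ 2 = -(A₁ * r₁) := by
    rw [hp2, hp2', hr₁]
    ring
  have hbad : p * p' = -(p * p') → False := by
    intro g
    have g1 : 2 * (p * p') = 0 := by linear_combination g
    rcases mul_eq_zero.1 g1 with g2 | g2
    · exact two_ne_zero g2
    · exact hpp0 g2
  have hσw : (p + p') * σ (p + p') = A₁ * r₁ ∨ (p + p') * σ (p + p') = -(A₁ * r₁) := by
    rw [map_mul] at hσδ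
    rw [map_add]
    rcases hσp with ⟨g1 | g1, g2 | g2⟩ | ⟨g1 | g1, g2 | g2⟩
    · rw [g1, g2] at hσδ
      exact (hbad hσδ).elim
    · right
      rw [g1, g2]
      linear_combination hdiff
    · left
      rw [g1, g2]
      linear_combination -hdiff
    · rw [g1, g2] at hσδ
      exact (hbad (by linear_combination hσδ)).elim
    · rw [g1, g2] at hσδ
      exact (hbad (by linear_combination hσδ)).elim
    · left
      rw [g1, g2]
      linear_combination -hdiff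
    · right
      rw [g1, g2]
      linear_combination hdiff
    · rw [g1, g2] at hσδ
      exact (hbad (by linear_combination hσδ)).elim
  have hprod : ∃ m' : ℤ, (m' = m ∨ m' = -m) ∧ y * σ y = A₁ * m' := by
    have g0 : y * σ y = (e * σ e) * ((p + p') * σ (p + p')) := by
      rw [hy, map_mul]
      ring
    rcases hσe with g1 | g1 <;> rcases hσw with g2 | g2
    · refine ⟨m, Or.inl rfl, ?_⟩
      rw [g0, g1, g2, ← hm1]
      ring
    · refine ⟨-m, Or.inr rfl, ?_⟩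
      push_cast
      rw [g0, g1, g2, ← hm1]
      ring
    · refine ⟨-m, Or.inr rfl, ?_⟩
      push_cast
      rw [g0, g1, g2, ← hm1]
      ring
    · refine ⟨m, Or.inl rfl, ?_⟩
      rw [g0, g1, g2, ← hm1]
      ring
  obtain ⟨m', hm'1, hm'2⟩ := hprod
  refine ⟨-n, m', by rw [neg_sq, hn2], ?_, ?_⟩
  · have g1 : m' ^ 2 = m ^ 2 := by
      rcases hm'1 with g | g
      · rw [g]
      · rw [g, neg_sq]
    rw [g1, hm2, mul_comm]
  · have g1 : (y + σ y) ^ 2 = ((U * U₁ + 2 * A * -n + 2 * A₁ * m' : ℤ) : L) := by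
      push_cast
      linear_combination hsq + 2 * hm'2
    rw [hU, hU₁] at g1
    exact sq_of_fixed hsum g1

end

end Pool.Agent.GT2
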