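import Pool.Agent.GT2.St

/-!
# GT2, module ROT (helper44): a rotation
-/

set_option autoImplicit false

namespace Pool.Agent.GT2

noncomputable section

namespace ROTAux

variable {L : Type} [Field L] [NumberField L] {q : ℕ} {A B : ℤ} {a : L}

/-- a number with nonsquare square is moved by some automorphism to its negative -/
theorem exists_neg [IsGalois ℚ L] {x : L} {N : ℤ} (h : x ^ 2 = (N : L)) (hN : ¬ IsSquare N) :
    ∃ σ : L ≃ₐ[ℚ] L, σ x = -x ∧ σ x ≠ x := by
  by_contra hc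
  apply hN
  refine sq_of_fixed (fun σ => ?_) h
  by_contra h1
  rcases map_pm h σ with h2 | h2
  · exact h1 h2
  · exact hc ⟨σ, h2, h1⟩

/-- both numbers change the sign -/
theorem exists_both {x y : L} {N M : ℤ} (hx : x ^ 2 = (N : L)) (hy : y ^ 2 = (M : L))
    (σ₁ σ₂ : L ≃ₐ[ℚ] L) (h1 : σ₁ x = -x) (h2 : σ₂ y = -y) :
    ∃ ρ : L ≃ₐ[ℚ] L, ρ x = -x ∧ ρ y = -y := by
  rcases map_pm hy σ₁ with h3 | h3
  · rcases map_pm hx σ₂ with h4 | h4
    · refine ⟨σ₁ * σ₂, ?_, ?_⟩
      · rw [AlgEquiv.mul_apply, h4, h1]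
      · rw [AlgEquiv.mul_apply, h2, map_neg, h3]
    · exact ⟨σ₂, h4, h2⟩
  · exact ⟨σ₁, h1, h3⟩

end ROTAux

theorem t_ROT : S_ROT := by
  intro L _ _ _ q hq A B a ha hD hP
  have hr := ha.disc
  obtain ⟨σ₁, h1, -⟩ := ROTAux.exists_neg hr hD
  have hb0 : σ₁ a ≠ 0 := (map_ne_zero σ₁).2 ha.1
  have hbt : σ₁ a + (q : L) / σ₁ a = - A - (a + q / a) := by
    rw [map_add, map_mul, map_tr, map_intCast, map_ofNat] at h1
    have h2 : (2 : L) ≠ 0 := two_ne_zero
    apply mul_left_cancel₀ h2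
    linear_combination h1
  generalize σ₁ a = b at hb0 hbt
  have hd := ha.dp hq hb0 hbt
  obtain ⟨σ₂, h3, h4⟩ := ROTAux.exists_neg hd hP
  obtain ⟨ρ, h5, h6⟩ := ROTAux.exists_both hr hd σ₁ σ₂ h1 h3
  have hd0 : (a - (q : L) / a) * (b - (q : L) / b) ≠ 0 := by
    intro h7
    apply h4
    rw [h7, map_zero]
  have ht : ρ (a + (q : L) / a) = - A - (a + q / a) := by
    rw [map_add, map_mul, map_intCast, map_ofNat] at h5
    have h2 : (2 : L) ≠ 0 := two_ne_zero
    apply mul_left_cancel₀ h2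
    linear_combination h5
  have hA : ρ a = b ∨ ρ a = (q : L) / b := by
    apply eq_or_bar hb0 ((map_ne_zero ρ).2 ha.1)
    rw [← map_tr, ht, hbt]
  have hB : ρ b = a ∨ ρ b = (q : L) / a := by
    apply eq_or_bar ha.1 ((map_ne_zero ρ).2 hb0)
    rw [← map_tr, hbt, map_sub, map_neg, map_intCast, ht]
    ring
  have hne : ¬ ((a - (q : L) / a) * (b - (q : L) / b) =
      -((a - (q : L) / a) * (b - (q : L) / b))) := by
    intro h7
    apply hd0
    have h2 : (2 : L) ≠ 0 := two_ne_zero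
    apply mul_left_cancel₀ h2
    linear_combination h7
  refine ⟨ρ, ?_⟩
  rw [map_mul, map_sub, map_sub, map_bar, map_bar] at h6
  rcases hA with hA | hA <;> rcases hB with hB | hB
  · exfalso
    apply hne
    rw [hA, hB] at h6
    rw [← h6]
    ring
  · rw [hA, hB]
  · rw [hA, map_bar, hB]
  · exfalso
    apply hne
    rw [hA, hB, bar_bar hq ha.1, bar_bar hq hb0] at h6
    rw [← h6]
    ring

end

end Pool.Agent.GT2
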