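import Pool.Agent.GT2.St

/-!
# GT2, module SQF (helper22): the same field
-/

set_option autoImplicit false

namespace Pool.Agent.GT2

noncomputable section

namespace SQFAux

variable {L : Type} [Field L] [NumberField L] {q : ℕ}

lemma inv_of {σ : L ≃ₐ[ℚ] L} {x y : L} (h : σ x = y) : σ⁻¹ y = x := by
  rw [← h, ← AlgEquiv.mul_apply, inv_mul_cancel, AlgEquiv.one_apply]

lemma tr_of {A : ℤ} {x t : L} {σ : L ≃ₐ[ℚ] L} (hx : σ x = t) (h : σ (2 * x + A) = 2 * x + A) :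
    t = x := by
  rw [map_add, map_mul, map_ofNat, map_intCast, hx] at h
  linear_combination (1 / 2) * h

lemma tr_neg {A : ℤ} {x t : L} {σ : L ≃ₐ[ℚ] L} (hx : σ x = t)
    (h : σ (2 * x + A) = -(2 * x + A)) : t = - A - x := by
  rw [map_add, map_mul, map_ofNat, map_intCast, hx] at h
  linear_combination (1 / 2) * h

lemma d_bar (hq : 1 ≤ q) {a : L} (ha : a ≠ 0) :
    (q : L) / a - q / ((q : L) / a) = (-1) * (a - q / a) := by
  rw [bar_bar hq ha]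
  ring

lemma map_d (σ : L ≃ₐ[ℚ] L) (x : L) : σ (x - (q : L) / x) = σ x - (q : L) / σ x := by
  rw [map_sub, map_bar]

end SQFAux

open SQFAux in
theorem t_SQF : S_SQF := by
  intro L _ _ _ q hq A B A₁ B₁ a a₁ ha ha₁ hD hD₁ hc hst
  obtain ⟨c, hca, hca₁⟩ := hc
  have hr := ha.disc
  have hr₁ := ha₁.disc
  obtain ⟨t, ht⟩ : ∃ t, t = a + (q : L) / a := ⟨_, rfl⟩
  obtain ⟨t₁, ht₁⟩ : ∃ t₁, t₁ = a₁ + (q : L) / a₁ := ⟨_, rfl⟩
  rw [← ht] at hr
  rw [← ht₁] at hr₁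
  -- a conjugation of `r`
  obtain ⟨σ₀, hσ₀⟩ : ∃ σ₀ : L ≃ₐ[ℚ] L, σ₀ (2 * t + A) = -(2 * t + A) := by
    by_contra hcon
    push Not at hcon
    apply hD
    refine sq_of_fixed (fun σ => ?_) hr
    rcases map_pm hr σ with h | h
    · exact h
    · exact absurd h (hcon σ)
  -- the automorphisms which fix `r`
  have hK : ∀ σ : L ≃ₐ[ℚ] L, σ (2 * t + A) = 2 * t + A →
      (σ a = a ∧ σ a₁ = a₁) ∨ (σ a = (q : L) / a ∧ σ a₁ = (q : L) / a₁) := by
    intro σ hσ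
    have h1 : σ t = σ a + (q : L) / σ a := by rw [ht, map_tr]
    have h2 := tr_of h1 hσ
    rw [ht] at h2
    rcases eq_or_bar ha.1 (ha.map σ).1 h2 with h | h
    · exact Or.inl ⟨h, hst σ h⟩
    · right
      refine ⟨h, ?_⟩
      have h3 : (c⁻¹ * σ) a = a := by
        rw [AlgEquiv.mul_apply, h, inv_of hca]
      have h4 := hst _ h3
      rw [AlgEquiv.mul_apply] at h4
      have h5 : σ a₁ = c (c⁻¹ (σ a₁)) := by
        rw [← AlgEquiv.mul_apply, mul_inv_cancel, AlgEquiv.one_apply]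
      rw [h5, h4, hca₁]
  have hσ₀i : σ₀⁻¹ (2 * t + A) = -(2 * t + A) := by
    have h1 := inv_of hσ₀
    rw [map_neg] at h1
    linear_combination -h1
  -- `r₁`
  have hσ₁ : σ₀ (2 * t₁ + A₁) = -(2 * t₁ + A₁) := by
    rcases map_pm hr₁ σ₀ with h | h
    · exfalso
      apply hD₁
      refine sq_of_fixed (fun σ => ?_) hr₁
      have hfix : ∀ σ : L ≃ₐ[ℚ] L, σ (2 * t + A) = 2 * t + A →
          σ (2 * t₁ + A₁) = 2 * t₁ + A₁ := by
        intro σ hσ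
        have h1 : σ t₁ = t₁ := by
          rw [ht₁, map_tr]
          rcases hK σ hσ with ⟨-, h2⟩ | ⟨-, h2⟩
          · rw [h2]
          · rw [h2, bar_add hq ha₁.1]
        rw [map_add, map_mul, map_ofNat, map_intCast, h1]
      rcases map_pm hr σ with h1 | h1
      · exact hfix σ h1
      · have h2 : (σ * σ₀⁻¹) (2 * t + A) = 2 * t + A := by
          rw [AlgEquiv.mul_apply, hσ₀i, map_neg, h1, neg_neg]
        have h3 := hfix _ h2
        rwa [AlgEquiv.mul_apply, inv_of h] at h3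
    · exact h
  have hb : σ₀ a + (q : L) / σ₀ a = - A - (a + q / a) := by
    have h1 : σ₀ t = σ₀ a + (q : L) / σ₀ a := by rw [ht, map_tr]
    rw [← ht]
    exact tr_neg h1 hσ₀
  have hb₁ : σ₀ a₁ + (q : L) / σ₀ a₁ = - A₁ - (a₁ + q / a₁) := by
    have h1 : σ₀ t₁ = σ₀ a₁ + (q : L) / σ₀ a₁ := by rw [ht₁, map_tr]
    rw [← ht₁]
    exact tr_neg h1 hσ₁
  refine ⟨⟨σ₀, hb, hb₁⟩, ?_⟩
  have hdp := Rt.dp hq ha (ha.map σ₀).1 hb
  have hdp₁ := Rt.dp hq ha₁ (ha₁.map σ₀).1 hb₁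
  have hK1 : ∀ τ : L ≃ₐ[ℚ] L, τ (2 * t + A) = 2 * t + A → ∃ e : ℚ, e * e = 1 ∧
      τ (a - (q : L) / a) = (e : L) * (a - q / a) ∧
      τ (a₁ - (q : L) / a₁) = (e : L) * (a₁ - q / a₁) := by
    intro τ hτ
    rcases hK τ hτ with ⟨h1, h2⟩ | ⟨h1, h2⟩
    · refine ⟨1, by norm_num, ?_, ?_⟩
      · rw [map_d, h1, Rat.cast_one, one_mul]
      · rw [map_d, h2, Rat.cast_one, one_mul]
    · refine ⟨-1, by norm_num, ?_, ?_⟩
      · rw [map_d, h1, d_bar hq ha.1]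
        push_cast
        rfl
      · rw [map_d, h2, d_bar hq ha₁.1]
        push_cast
        rfl
  have hK2 : ∀ τ : L ≃ₐ[ℚ] L, τ (2 * t + A) = -(2 * t + A) → ∃ e : ℚ, e * e = 1 ∧
      τ (a - (q : L) / a) = (e : L) * (σ₀ a - q / σ₀ a) ∧
      τ (a₁ - (q : L) / a₁) = (e : L) * (σ₀ a₁ - q / σ₀ a₁) := by
    intro τ hτ
    have h1 : (σ₀⁻¹ * τ) (2 * t + A) = 2 * t + A := by
      rw [AlgEquiv.mul_apply, hτ, map_neg, hσ₀i, neg_neg]
    obtain ⟨e, he, h2, h3⟩ := hK1 _ h1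
    have h4 : ∀ x : L, τ x = σ₀ ((σ₀⁻¹ * τ) x) := by
      intro x
      rw [← AlgEquiv.mul_apply, ← mul_assoc, mul_inv_cancel, one_mul]
    refine ⟨e, he, ?_, ?_⟩
    · rw [h4, h2, map_mul, map_ratCast, map_d]
    · rw [h4, h3, map_mul, map_ratCast, map_d]
  refine sq_of_fixed (L := L) (x := (a - (q : L) / a) * (σ₀ a - (q : L) / σ₀ a) *
    ((a₁ - (q : L) / a₁) * (σ₀ a₁ - (q : L) / σ₀ a₁))) (fun τ => ?_) ?_
  · have h0 : ∀ x : L, τ (σ₀ x - (q : L) / σ₀ x) = (τ * σ₀) (x - (q : L) / x) := by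
      intro x
      rw [AlgEquiv.mul_apply, map_d σ₀]
    have hcast : ∀ e : ℚ, e * e = 1 → (e : L) * e = 1 := by
      intro e he
      rw [← Rat.cast_mul, he, Rat.cast_one]
    rcases map_pm hr τ with h1 | h1
    · have h2 : (τ * σ₀) (2 * t + A) = -(2 * t + A) := by
        rw [AlgEquiv.mul_apply, hσ₀, map_neg, h1]
      obtain ⟨e, he, h3, h4⟩ := hK1 τ h1
      obtain ⟨e', he', h5, h6⟩ := hK2 _ h2
      rw [map_mul, map_mul, map_mul, h0, h0, h3, h4, h5, h6]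
      linear_combination ((a - (q : L) / a) * (σ₀ a - (q : L) / σ₀ a) *
        ((a₁ - (q : L) / a₁) * (σ₀ a₁ - (q : L) / σ₀ a₁))) * ((e' : L) * e' * hcast e he +
          hcast e' he')
    · have h2 : (τ * σ₀) (2 * t + A) = 2 * t + A := by
        rw [AlgEquiv.mul_apply, hσ₀, map_neg, h1, neg_neg]
      obtain ⟨e, he, h3, h4⟩ := hK2 τ h1
      obtain ⟨e', he', h5, h6⟩ := hK1 _ h2
      rw [map_mul, map_mul, map_mul, h0, h0, h3, h4, h5, h6]
      linear_combination ((a - (q : L) / a) * (σ₀ a - (q : L) / σ₀ a) *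
        ((a₁ - (q : L) / a₁) * (σ₀ a₁ - (q : L) / σ₀ a₁))) * ((e' : L) * e' * hcast e he +
          hcast e' he')
  · rw [mul_pow, hdp, hdp₁]
    push_cast
    ring

end

end Pool.Agent.GT2
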