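import Pool.Agent.GT2.St

/-!
# GT2, module SWP: swaps
-/

set_option autoImplicit false

namespace Pool.Agent.GT2

namespace SWPAux

variable {L : Type} [Field L] [NumberField L]

lemma symm_fix {a : L} {σ : L ≃ₐ[ℚ] L} (h : σ a = a) : σ⁻¹ a = a := by
  have h1 : σ⁻¹ (σ a) = a := by
    rw [← AlgEquiv.mul_apply, inv_mul_cancel, AlgEquiv.one_apply]
  rwa [h] at h1

lemma inv_apply {a b : L} {σ : L ≃ₐ[ℚ] L} (h : σ a = b) : σ⁻¹ b = a := by
  rw [← h, ← AlgEquiv.mul_apply, inv_mul_cancel, AlgEquiv.one_apply]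

lemma apply_of_inv {a b : L} {σ : L ≃ₐ[ℚ] L} (h : σ⁻¹ b = a) : b = σ a := by
  rw [← h, ← AlgEquiv.mul_apply, mul_inv_cancel, AlgEquiv.one_apply]

end SWPAux

open SWPAux in
/-- **SWP.** -/
theorem t_SWP : S_SWP := by
  intro L _ _ _ q hq A₁ B₁ a a₁ ha₁ hbar ⟨τ₀, h0a, h0⟩
  obtain ⟨x, hx⟩ : ∃ x, τ₀ a₁ = x := ⟨_, rfl⟩
  have hRx : Rt q A₁ B₁ x := by
    rw [← hx]
    exact ha₁.map τ₀
  have hxa : x ≠ a₁ := by
    rw [← hx]
    exact h0
  have hxb : x ≠ (q : L) / a₁ := by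
    rw [← hx]
    exact hbar τ₀ h0a
  have hne : x + (q : L) / x ≠ a₁ + q / a₁ := by
    intro h
    rcases eq_or_bar ha₁.1 hRx.1 h with h | h
    · exact hxa h
    · exact hxb h
  have hxt : x + (q : L) / x = - A₁ - (a₁ + q / a₁) := by
    rcases Rt.two ha₁ hRx with h | h
    · exact (hne h).elim
    · exact h
  have h0x : τ₀⁻¹ x = a₁ := inv_apply hx
  have h0i : τ₀⁻¹ a = a := symm_fix h0a
  -- the first case
  have h1 : ∀ τ : L ≃ₐ[ℚ] L, τ a = a → τ a₁ = a₁ → τ x = x := by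
    intro τ hτ hτ1
    have e : τ x + (q : L) / τ x = x + q / x := by
      have e1 : τ (x + (q : L) / x) = τ (- A₁ - (a₁ + q / a₁)) := by rw [hxt]
      rw [map_tr, map_sub, map_neg, map_intCast, map_tr, hτ1, ← hxt] at e1
      exact e1
    rcases eq_or_bar hRx.1 ((hRx.map τ).1) e with h | h
    · exact h
    · exfalso
      refine hbar (τ₀⁻¹ * (τ * τ₀)) ?_ ?_
      · rw [AlgEquiv.mul_apply, AlgEquiv.mul_apply, h0a, hτ, h0i]
      · rw [AlgEquiv.mul_apply, AlgEquiv.mul_apply, hx, h, map_bar, h0x]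
  have h0xx : τ₀ x = a₁ := by
    have e : τ₀ x + (q : L) / τ₀ x = a₁ + q / a₁ := by
      have e1 : τ₀ (x + (q : L) / x) = τ₀ (- A₁ - (a₁ + q / a₁)) := by rw [hxt]
      rw [map_tr, map_sub, map_neg, map_intCast, map_tr, hx, hxt] at e1
      linear_combination e1
    rcases eq_or_bar ha₁.1 ((hRx.map τ₀).1) e with h | h
    · exact h
    · exfalso
      refine hbar (τ₀ * τ₀) ?_ ?_
      · rw [AlgEquiv.mul_apply, h0a, h0a]
      · rw [AlgEquiv.mul_apply, hx, h]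
  refine ⟨x, hRx, hne, hxt, ⟨τ₀, h0a, hx⟩, fun τ hτ => ?_⟩
  have hRt := ha₁.map τ
  have hm : (τ₀⁻¹ * τ) a = a := by rw [AlgEquiv.mul_apply, hτ, h0i]
  rcases Rt.two ha₁ hRt with h | h
  · rcases eq_or_bar ha₁.1 hRt.1 h with h2 | h2
    · exact Or.inl ⟨h2, h1 τ hτ h2⟩
    · exact (hbar τ hτ h2).elim
  · rw [← hxt] at h
    rcases eq_or_bar hRx.1 hRt.1 h with h2 | h2
    · right
      refine ⟨h2, ?_⟩
      have h3 : (τ₀⁻¹ * τ) a₁ = a₁ := by rw [AlgEquiv.mul_apply, h2, h0x]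
      have h4 := h1 _ hm h3
      rw [AlgEquiv.mul_apply] at h4
      rw [apply_of_inv h4, h0xx]
    · exfalso
      refine hbar _ hm ?_
      rw [AlgEquiv.mul_apply, h2, map_bar, h0x]

end Pool.Agent.GT2
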