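import Pool.Agent.GT2.Lnk
import Pool.Agent.GT2.LOC
import Pool.Agent.GT2.INT
import Pool.Agent.GT2.REA
import Pool.Agent.GT2.CONJ
import Pool.Agent.GT2.ROT
import Pool.Agent.GT2.SWP
import Pool.Agent.GT2.CHR
import Pool.Agent.GT2.REF
import Pool.Agent.GT2.SQF
import Pool.Agent.GT2.SAM
import Pool.Agent.GT2.ELL
import Pool.Agent.GT2.FUN
import Pool.Agent.GT2.ORT
import Pool.Agent.GT2.CMB
import Pool.Agent.GT2.LFN
import Pool.Agent.GT2.PRT
import Pool.Agent.GT2.UNT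
import Pool.Agent.GT2.EXV
import Pool.Agent.GT2.PAR
import Pool.Agent.GT2.CNV
import Pool.Agent.GT2.NRG
import Pool.Agent.GT2.NRN

/-!
# GT2: the arithmetic theorem (MP_cb388a_ag, helper88)
-/

set_option autoImplicit false

open Polynomial

namespace Pool.Agent.GT2

theorem h_CON : S_CON := t_CON t_REA

theorem h_REF : S_REF := t_REF t_ROT t_SWP t_CHR

theorem h_SAM : S_SAM := t_SAM t_LOC t_INT t_SQF

theorem h_ELL : S_ELL := t_ELL t_LOC t_INT

theorem h_ORT : S_ORT := t_ORT t_LOC h_CON t_ROT h_REF h_SAM h_ELL t_FUN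

theorem h_PRT : S_PRT := t_PRT h_ORT t_CMB t_LFN

theorem h_UNT : S_UNT := t_UNT t_REA

theorem h_PAR : S_PAR := t_PAR h_PRT h_UNT t_EXV

theorem h_NRN : S_NRN := t_NRN t_INT

/-- the criterion for pairs of integers -/
theorem par_crit : S_PAR := h_PAR

/-- the criterion -/
theorem crit {p : ℕ} (hp : p.Prime) (hp2 : p ≠ 2) {S : Set ℤ[X]}
    (hS : S ⊆ AlmostAll.RW 1 p ∪ AlmostAll.RW 2 p) (hN : NoReflex p S) :
    AlmostAll.Par p (AlmostAll.Adm p S) := crit' t_CNV h_PAR hp hp2 hS hN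

/-- the fields with three, seven and eleven elements -/
theorem small {p : ℕ} (hp : p = 3 ∨ p = 7 ∨ p = 11) :
    NoReflex p (AlmostAll.RW 1 p ∪ AlmostAll.RW 2 p) := small' t_CNV nr3 nr7 nr11 hp

/-- the surfaces which are not ordinary with a dihedral Galois group -/
theorem nonord {p : ℕ} (hp : p.Prime) (hp2 : p ≠ 2) : NoReflex p (AlmostAll.RW 1 p ∪ NG p) :=
  nonord' h_NRN hp hp2

/-- the fields with five and thirteen elements -/
theorem ord {p : ℕ} (hp : p = 5 ∨ p = 13) : NoReflex p (AlmostAll.RW 1 p ∪ OG p) := by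
  have h1 : 1 ≤ p := by
    rcases hp with h | h <;> rw [h] <;> norm_num
  exact ord' t_CNV h1 fun A B A₁ B₁ h2 h3 h4 h5 => nro p hp A B A₁ B₁ h2 h3 h4 h5

/-- absolute values -/
theorem norm_adm {p : ℕ} (hp : 1 ≤ p) {S : Set ℤ[X]} (hS : ∀ h ∈ S, ∃ g, h ∈ AlmostAll.RW g p)
    {z : ℂ} (hz : AlmostAll.Adm p S z) : ‖z‖ ^ 2 = (p : ℝ) := norm_adm' hp hS hz

theorem par_all {p : ℕ} (hp : p = 3 ∨ p = 7 ∨ p = 11) :
    AlmostAll.Par p (AlmostAll.Adm p (AlmostAll.RW 1 p ∪ AlmostAll.RW 2 p)) := by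
  refine crit ?_ ?_ (fun _ h => h) (small hp)
  · rcases hp with h | h | h <;> rw [h] <;> norm_num
  · rcases hp with h | h | h <;> rw [h] <;> norm_num

theorem par_np {p : ℕ} (hp : p.Prime) (hp2 : p ≠ 2) :
    AlmostAll.Par p (AlmostAll.Adm p (AlmostAll.RW 1 p ∪ NG p)) :=
  crit hp hp2 (fun _ h => h.imp id fun h => h.1) (nonord hp hp2)

end Pool.Agent.GT2
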