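import Pool.Agent.GT2.St

/-!
# GT2: the link to the sets of real Weil polynomials (MP_cb388a_ag, helper88)
-/

set_option autoImplicit false

open Polynomial

namespace Pool.Agent.GT2

noncomputable section

/-- the pairs of a set of polynomials -/
def Pr (p : ℕ) (S : Set ℤ[X]) (A B : ℤ) : Prop :=
  (∃ h ∈ S, h ∈ AlmostAll.RW 2 p ∧ A = h.coeff 1 ∧ B = h.coeff 0) ∨
    ∃ h ∈ S, h ∈ AlmostAll.RW 1 p ∧ A = 2 * h.coeff 0 ∧ B = h.coeff 0 ^ 2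

theorem aeval_one {h : ℤ[X]} (hm : h.Monic) (hd : h.natDegree = 1) (z : ℂ) :
    aeval z h = z + (h.coeff 0 : ℂ) := by
  conv_lhs => rw [hm.eq_X_add_C hd]
  simp

theorem rw_one {p : ℕ} {h : ℤ[X]} (hh : h ∈ AlmostAll.RW 1 p) : h.coeff 0 ^ 2 ≤ 4 * (p : ℤ) := by
  obtain ⟨hm, hd, hr⟩ := hh
  have h1 := hr (-(h.coeff 0 : ℂ)) (by rw [aeval_one hm hd]; ring)
  have h2 : |(h.coeff 0 : ℝ)| ≤ 2 * Real.sqrt p := by
    have := h1.2
    simpa using this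
  have h3 : (h.coeff 0 : ℝ) ^ 2 ≤ 4 * (p : ℝ) := by
    have h4 : |(h.coeff 0 : ℝ)| ^ 2 ≤ (2 * Real.sqrt p) ^ 2 :=
      pow_le_pow_left₀ (abs_nonneg _) h2 2
    rw [sq_abs, mul_pow, Real.sq_sqrt (Nat.cast_nonneg p)] at h4
    linarith
  exact_mod_cast h3

theorem pr_w2 (hC : S_CNV) {p : ℕ} (hp : 1 ≤ p) {S : Set ℤ[X]} {A B : ℤ} (h : Pr p S A B) :
    W2 p A B := by
  rcases h with ⟨h, _, hh, rfl, rfl⟩ | ⟨h, _, hh, rfl, rfl⟩
  · exact (hC p hp h hh).1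
  · have h1 := rw_one hh
    refine ⟨?_, ?_, ?_, ?_⟩
    · unfold DD
      nlinarith
    · unfold DP
      nlinarith [sq_nonneg (h.coeff 0 ^ 2 - 4 * (p : ℤ))]
    · positivity
    · nlinarith

theorem adm_adS (hC : S_CNV) {p : ℕ} (hp : 1 ≤ p) {S : Set ℤ[X]}
    (hS : ∀ h ∈ S, h ∈ AlmostAll.RW 1 p ∨ h ∈ AlmostAll.RW 2 p) {z : ℂ}
    (hz : AlmostAll.Adm p S z) : AdS p (Pr p S) z := by
  obtain ⟨N, hN, h1 | ⟨h, hh, r, hr0, hr, hzr⟩⟩ := hz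
  · exact ⟨N, hN, Or.inl h1⟩
  · refine ⟨N, hN, Or.inr ?_⟩
    rcases hS h hh with h2 | h2
    · refine ⟨2 * h.coeff 0, h.coeff 0 ^ 2, Or.inr ⟨h, hh, h2, rfl, rfl⟩, r, ⟨hr0, ?_⟩, hzr⟩
      rw [aeval_one h2.1 h2.2.1] at hr
      push_cast
      have h3 : r + (p : ℂ) / r = -(h.coeff 0 : ℂ) := by linear_combination hr
      rw [h3]
      ring
    · exact ⟨h.coeff 1, h.coeff 0, Or.inl ⟨h, hh, h2, rfl, rfl⟩, r,
        (hC p hp h h2).2 r hr0 hr, hzr⟩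

theorem par_mono {p : ℕ} {P Q : ℂ → Prop} (h : ∀ z, P z → Q z) (hQ : AlmostAll.Par p Q) :
    AlmostAll.Par p P := fun z l hz hl => hQ z l (h z hz) fun y hy => h y (hl y hy)

/-- the criterion for sets of polynomials -/
theorem par_set (hC : S_CNV) (hP : S_PAR) {p : ℕ} (hp : p.Prime) (hp2 : p ≠ 2) {S : Set ℤ[X]}
    (hS : ∀ h ∈ S, h ∈ AlmostAll.RW 1 p ∨ h ∈ AlmostAll.RW 2 p)
    (hN : ∀ h ∈ S, ∀ h' ∈ S, h ∈ AlmostAll.RW 2 p → h' ∈ AlmostAll.RW 2 p →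
      ¬ Reflex p (h.coeff 1) (h.coeff 0) (h'.coeff 1) (h'.coeff 0)) :
    AlmostAll.Par p (AlmostAll.Adm p S) := by
  refine par_mono (fun z hz => adm_adS hC hp.one_le hS hz)
    (hP p hp hp2 (Pr p S) (fun A B h => pr_w2 hC hp.one_le h) ?_)
  have hsq : ∀ c : ℤ, IsSquare (DD (2 * c) (c ^ 2)) := fun c => by
    refine ⟨0, ?_⟩
    unfold DD
    ring
  rintro A B A₁ B₁ (⟨h, hh, h2, rfl, rfl⟩ | ⟨h, _, _, rfl, rfl⟩) h' hR
  · rcases h' with ⟨h', hh', h2', rfl, rfl⟩ | ⟨h', _, _, rfl, rfl⟩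
    · exact hN h hh h' hh' h2 h2' hR
    · exact hR.2.1.1 (hsq _)
  · exact hR.1.1 (hsq _)

/-- no reflex pairs in `S` -/
def NoReflex (p : ℕ) (S : Set ℤ[X]) : Prop := ∀ h ∈ S, ∀ h' ∈ S, h.natDegree = 2 →
  h'.natDegree = 2 → ¬ Reflex p (h.coeff 1) (h.coeff 0) (h'.coeff 1) (h'.coeff 0)

/-- the criterion -/
theorem crit' (hC : S_CNV) (hP : S_PAR) {p : ℕ} (hp : p.Prime) (hp2 : p ≠ 2) {S : Set ℤ[X]}
    (hS : S ⊆ AlmostAll.RW 1 p ∪ AlmostAll.RW 2 p) (hN : NoReflex p S) :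
    AlmostAll.Par p (AlmostAll.Adm p S) :=
  par_set hC hP hp hp2 (fun _ hh => hS hh) fun h hh h' hh' h2 h2' =>
    hN h hh h' hh' h2.2.1 h2'.2.1

theorem rw_of_two {p : ℕ} {h : ℤ[X]} (hh : h ∈ AlmostAll.RW 1 p ∪ AlmostAll.RW 2 p)
    (hd : h.natDegree = 2) : h ∈ AlmostAll.RW 2 p := by
  rcases hh with h1 | h1
  · exact absurd (h1.2.1.symm.trans hd) (by norm_num)
  · exact h1

/-- the fields with three, seven and eleven elements -/
theorem small' (hC : S_CNV) (h3 : S_NR3) (h7 : S_NR7) (h11 : S_NR11) {p : ℕ}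
    (hp : p = 3 ∨ p = 7 ∨ p = 11) : NoReflex p (AlmostAll.RW 1 p ∪ AlmostAll.RW 2 p) := by
  intro h hh h' hh' hd hd'
  rcases hp with rfl | rfl | rfl
  · exact h3 _ _ _ _ (hC _ (by norm_num) h (rw_of_two hh hd)).1
      (hC _ (by norm_num) h' (rw_of_two hh' hd')).1
  · exact h7 _ _ _ _ (hC _ (by norm_num) h (rw_of_two hh hd)).1
      (hC _ (by norm_num) h' (rw_of_two hh' hd')).1
  · exact h11 _ _ _ _ (hC _ (by norm_num) h (rw_of_two hh hd)).1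
      (hC _ (by norm_num) h' (rw_of_two hh' hd')).1

/-- the real Weil polynomials of degree two of the abelian surfaces which are not ordinary with a
dihedral Galois group -/
def NG (p : ℕ) : Set ℤ[X] := {h | h ∈ AlmostAll.RW 2 p ∧ ((p : ℤ) ∣ h.coeff 0 ∨
  IsSquare (DD (h.coeff 1) (h.coeff 0)) ∨ IsSquare (DP p (h.coeff 1) (h.coeff 0)) ∨
  IsSquare (DD (h.coeff 1) (h.coeff 0) * DP p (h.coeff 1) (h.coeff 0)))}

theorem nonord' (hN : S_NRN) {p : ℕ} (hp : p.Prime) (hp2 : p ≠ 2) :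
    NoReflex p (AlmostAll.RW 1 p ∪ NG p) := by
  intro h hh h' hh' hd hd' hR
  have key : ∀ h ∈ AlmostAll.RW 1 p ∪ NG p, h.natDegree = 2 →
      Gen p (h.coeff 1) (h.coeff 0) → (p : ℤ) ∣ h.coeff 0 := by
    rintro h (h1 | h1) h2 hG
    · exact absurd (h1.2.1.symm.trans h2) (by norm_num)
    · rcases h1.2 with h3 | h3 | h3 | h3
      · exact h3
      · exact absurd h3 hG.1
      · exact absurd h3 hG.2.1
      · exact absurd h3 hG.2.2.1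
  exact hN p hp hp2 _ _ _ _ (Or.inl (key h hh hd hR.1)) (Or.inl (key h' hh' hd' hR.2.1)) hR

/-- the real Weil polynomials of degree two of the abelian surfaces which do not have `p`-rank one and
a dihedral Galois group -/
def OG (p : ℕ) : Set ℤ[X] := {h | h ∈ AlmostAll.RW 2 p ∧
  (((p : ℤ) ∣ h.coeff 0 → (p : ℤ) ∣ h.coeff 1) ∨
    IsSquare (DD (h.coeff 1) (h.coeff 0)) ∨ IsSquare (DP p (h.coeff 1) (h.coeff 0)) ∨
    IsSquare (DD (h.coeff 1) (h.coeff 0) * DP p (h.coeff 1) (h.coeff 0)))}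

theorem ord' (hC : S_CNV) {p : ℕ} (hp : 1 ≤ p) (hN : ∀ A B A₁ B₁ : ℤ, ¬ (p : ℤ) ∣ B →
    ¬ (p : ℤ) ∣ B₁ → W2 p A B → W2 p A₁ B₁ → ¬ Reflex p A B A₁ B₁) :
    NoReflex p (AlmostAll.RW 1 p ∪ OG p) := by
  intro h hh h' hh' hd hd' hR
  have key : ∀ h ∈ AlmostAll.RW 1 p ∪ OG p, h.natDegree = 2 →
      Gen p (h.coeff 1) (h.coeff 0) → ¬ (p : ℤ) ∣ h.coeff 0 ∧ W2 p (h.coeff 1) (h.coeff 0) := by
    rintro h (h1 | h1) h2 hG
    · exact absurd (h1.2.1.symm.trans h2) (by norm_num)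
    · refine ⟨?_, (hC p hp h h1.1).1⟩
      rcases h1.2 with h3 | h3 | h3 | h3
      · exact fun h4 => hG.2.2.2 ⟨h3 h4, h4⟩
      · exact absurd h3 hG.1
      · exact absurd h3 hG.2.1
      · exact absurd h3 hG.2.2.1
  exact hN _ _ _ _ (key h hh hd hR.1).1 (key h' hh' hd' hR.2.1).1 (key h hh hd hR.1).2
    (key h' hh' hd' hR.2.1).2 hR

/-- absolute values -/
theorem norm_root {p : ℕ} {t r : ℂ} (hp : 1 ≤ p) (hr : r ≠ 0) (h : r + (p : ℂ) / r = t)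
    (ht : t.im = 0) (ht2 : t.re ^ 2 ≤ 4 * p) : ‖r‖ ^ 2 = (p : ℝ) := by
  have h1 : r ^ 2 - t * r + p = 0 := by
    rw [← h]
    field_simp
    ring
  have hp' : (1 : ℝ) ≤ p := by exact_mod_cast hp
  have e1 := congrArg Complex.re h1
  have e2 := congrArg Complex.im h1
  simp [pow_two, ht] at e1 e2
  rw [← Complex.normSq_eq_norm_sq, Complex.normSq_apply]
  by_cases hi : r.im = 0
  · rw [hi] at e1 ⊢
    have h3 : (2 * r.re - t.re) ^ 2 = t.re ^ 2 - 4 * p := by linear_combination 4 * e1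
    have h4 : (2 * r.re - t.re) ^ 2 = 0 := le_antisymm (by linarith) (sq_nonneg _)
    have h5 : 2 * r.re - t.re = 0 := by
      rcases pow_eq_zero_iff (two_ne_zero) |>.1 h4 with h
      exact h
    nlinarith
  · have h3 : 2 * r.re = t.re := by
      have : r.im * (2 * r.re - t.re) = 0 := by linear_combination e2
      rcases mul_eq_zero.1 this with h | h
      · exact absurd h hi
      · linarith
    rw [← h3] at e1
    linear_combination -e1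

theorem norm_adm' {p : ℕ} (hp : 1 ≤ p) {S : Set ℤ[X]}
    (hS : ∀ h ∈ S, ∃ g, h ∈ AlmostAll.RW g p) {z : ℂ} (hz : AlmostAll.Adm p S z) :
    ‖z‖ ^ 2 = (p : ℝ) := by
  obtain ⟨N, hN, h1 | ⟨h, hh, r, hr0, hr, hzr⟩⟩ := hz
  · have h2 : (‖z‖ ^ 2) ^ N = (p : ℝ) ^ N := by
      rw [← pow_mul, ← norm_pow, h1, norm_pow, Complex.norm_natCast]
    exact (pow_left_inj₀ (by positivity) (by positivity) (by omega)).1 h2
  · have h2 : ‖z‖ ^ N = ‖r‖ ^ N := by rw [← norm_pow, hzr, norm_pow]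
    have h3 : ‖z‖ = ‖r‖ := (pow_left_inj₀ (norm_nonneg _) (norm_nonneg _) (by omega)).1 h2
    rw [h3]
    obtain ⟨g, hg⟩ := hS h hh
    have h4 := hg.2.2 _ hr
    refine norm_root hp hr0 rfl h4.1 ?_
    have h5 : |(r + (p : ℂ) / r).re| ^ 2 ≤ (2 * Real.sqrt p) ^ 2 :=
      pow_le_pow_left₀ (abs_nonneg _) h4.2 2
    rw [sq_abs, mul_pow, Real.sq_sqrt (Nat.cast_nonneg p)] at h5
    linarith

end

end Pool.Agent.GT2
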