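import Pool.Agent.GT2.NRX

/-!
# GT2: no reflex pairs over the field with 7 elements (helper30)
-/

set_option autoImplicit false

namespace Pool.Agent.GT2

theorem t_NR7 : S_NR7 := fun A B A₁ B₁ h h₁ =>
  NRX.none 7 (by norm_num) A B A₁ B₁ h h₁

end Pool.Agent.GT2
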