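import Pool.Agent.GT2.St

/-!
# GT2: no reflex pairs over small fields, a fast check (helper88)

`c = b + 4 q`, a pair `(a, b)` with `a ≥ 0` is coded by the natural number `1024 a + c`.  For `n` let `cP n` and `cN n` be
the sets of the primes `l ≤ 47` (as bit masks) modulo which `n` is a nonzero square, and a nonsquare. If
`cP x` meets `cN y` then `x y` is not a square. The tables hold the codes of `D`, `D'` for all real Weil
polynomials, up to those for which `D`, `D'` or `D D'` is a square (with a square root).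
-/

set_option autoImplicit false

namespace Pool.Agent.GT2.NRF

/-- primes, with the bit mask of the nonzero squares -/
def Ps : List (ℕ × ℕ) :=
  [(3, 2), (5, 18), (7, 22), (11, 570), (13, 5658), (17, 107286), (19, 199410), (23, 340830),
  (29, 332473074), (31, 303908790), (37, 96068509338), (41, 1870503675702), (43, 3678700564050),
  (47, 4626135339998)]

/-- the primes modulo which `n` is a nonzero square -/
def cP : List (ℕ × ℕ) → ℕ → ℕ
  | [], _ => 0
  | p :: ps, n => (bif Nat.testBit p.2 (n % p.1) then 1 else 0) + 2 * cP ps n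

/-- the primes modulo which `n` is not a square -/
def cN : List (ℕ × ℕ) → ℕ → ℕ
  | [], _ => 0
  | p :: ps, n => (bif Nat.beq (n % p.1) 0 || Nat.testBit p.2 (n % p.1) then 0 else 1) +
      2 * cN ps n

/-- the masks are right -/
def Ok (p : ℕ × ℕ) : Prop := p.1.Prime ∧ ∀ r < p.1, (Nat.testBit p.2 r = true ↔
  ∃ s < p.1, s ≠ 0 ∧ s * s % p.1 = r)

theorem ps_prime : ∀ p ∈ Ps, p.1.Prime := by
  intro p hp
  unfold Ps at hp
  simp only [List.mem_cons, List.not_mem_nil, or_false] at hp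
  rcases hp with rfl | rfl | rfl | rfl | rfl | rfl | rfl | rfl | rfl | rfl | rfl | rfl | rfl | rfl <;>
    norm_num

theorem ps_mask : ∀ p ∈ Ps, ∀ r < p.1, (Nat.testBit p.2 r = true ↔
    ∃ s < p.1, s ≠ 0 ∧ s * s % p.1 = r) := by decide +kernel

theorem ps_ok : ∀ p ∈ Ps, Ok p := fun p hp => ⟨ps_prime p hp, ps_mask p hp⟩

theorem ok_sq {p : ℕ × ℕ} (h : Ok p) {x : ℕ} (hx : Nat.testBit p.2 (x % p.1) = true) :
    ∃ s : ℕ, (s : ZMod p.1) ≠ 0 ∧ (s : ZMod p.1) * s = x := by
  have hp := h.1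
  obtain ⟨s, hs, hs0, hsx⟩ := (h.2 (x % p.1) (Nat.mod_lt _ hp.pos)).1 hx
  refine ⟨s, ?_, ?_⟩
  · intro h0
    have h1 := (ZMod.natCast_eq_zero_iff s p.1).1 h0
    exact hs0 (Nat.eq_zero_of_dvd_of_lt h1 hs)
  · have h1 : ((s * s % p.1 : ℕ) : ZMod p.1) = ((x % p.1 : ℕ) : ZMod p.1) := by rw [hsx]
    rw [ZMod.natCast_mod, ZMod.natCast_mod] at h1
    rw [← h1]
    push_cast
    rfl

theorem ok_nsq {p : ℕ × ℕ} (h : Ok p) {y : ℕ}
    (hy : (Nat.beq (y % p.1) 0 || Nat.testBit p.2 (y % p.1)) = false) :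
    ¬ IsSquare (y : ZMod p.1) := by
  have hp := h.1
  have : NeZero p.1 := ⟨hp.ne_zero⟩
  rw [Bool.or_eq_false_iff] at hy
  rintro ⟨z, hz⟩
  have hlt : z.val < p.1 := ZMod.val_lt z
  have h1 : (((z.val * z.val % p.1 : ℕ)) : ZMod p.1) = ((y % p.1 : ℕ) : ZMod p.1) := by
    rw [ZMod.natCast_mod, ZMod.natCast_mod, hz]
    push_cast
    rw [ZMod.natCast_zmod_val]
  have h2 : z.val * z.val % p.1 = y % p.1 := by
    have := (ZMod.natCast_eq_natCast_iff' _ _ _).1 h1
    rwa [Nat.mod_mod, Nat.mod_mod] at this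
  by_cases h0 : z.val = 0
  · rw [h0] at h2
    have h3 : y % p.1 = 0 := by
      rw [← h2]
      simp
    have h4 := hy.1
    rw [h3] at h4
    exact absurd h4 (by decide)
  · have h3 := (h.2 (y % p.1) (Nat.mod_lt _ hp.pos)).2 ⟨z.val, hlt, h0, h2⟩
    rw [h3] at hy
    exact absurd hy.2 (by decide)

/-- a square times a nonsquare -/
theorem mod_spec {p : ℕ × ℕ} (h : Ok p) {x y : ℕ} (hx : Nat.testBit p.2 (x % p.1) = true)
    (hy : (Nat.beq (y % p.1) 0 || Nat.testBit p.2 (y % p.1)) = false) : ¬ IsSquare (x * y) := by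
  rintro ⟨z, hz⟩
  have : Fact p.1.Prime := ⟨h.1⟩
  obtain ⟨s, hs0, hs⟩ := ok_sq h hx
  apply ok_nsq h hy
  refine ⟨(z : ZMod p.1) / s, ?_⟩
  have h1 : (x : ZMod p.1) * y = z * z := by
    have := congrArg (fun n : ℕ => (n : ZMod p.1)) hz
    push_cast at this
    exact this
  rw [← hs] at h1
  rw [div_mul_div_comm, ← h1]
  field_simp

theorem land_zero {b b' u v : ℕ} (hb : b = 0 ∨ b = 1) (hb' : b' = 0 ∨ b' = 1)
    (h : ¬ (b = 1 ∧ b' = 1)) (huv : u &&& v = 0) : (b + 2 * u) &&& (b' + 2 * v) = 0 := by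
  apply Nat.eq_of_testBit_eq
  intro i
  rw [Nat.testBit_and, Nat.zero_testBit]
  cases i with
  | zero =>
    rw [Nat.testBit_zero, Nat.testBit_zero]
    rcases hb with rfl | rfl <;> rcases hb' with rfl | rfl
    · have : (0 + 2 * u) % 2 = 0 := by omega
      rw [this]
      rfl
    · have : (0 + 2 * u) % 2 = 0 := by omega
      rw [this]
      rfl
    · have : (0 + 2 * v) % 2 = 0 := by omega
      rw [this]
      simp
    · exact absurd ⟨rfl, rfl⟩ h
  | succ i =>
    rw [Nat.testBit_succ, Nat.testBit_succ]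
    have h1 : (b + 2 * u) / 2 = u := by rcases hb with rfl | rfl <;> omega
    have h2 : (b' + 2 * v) / 2 = v := by rcases hb' with rfl | rfl <;> omega
    rw [h1, h2, ← Nat.testBit_and, huv, Nat.zero_testBit]

theorem codes_spec : ∀ (L : List (ℕ × ℕ)), (∀ p ∈ L, Ok p) → ∀ x y : ℕ,
    cP L x &&& cN L y ≠ 0 → ¬ IsSquare (x * y)
  | [], _, x, y, h => absurd (by simp [cP]) h
  | p :: ps, hL, x, y, h => by
    by_cases h1 : cP ps x &&& cN ps y = 0
    · by_cases hx : Nat.testBit p.2 (x % p.1) = true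
      · cases hy : (Nat.beq (y % p.1) 0 || Nat.testBit p.2 (y % p.1)) with
        | false => exact mod_spec (hL p List.mem_cons_self) hx hy
        | true =>
          exfalso
          apply h
          unfold cP cN
          rw [hy]
          exact land_zero (by cases Nat.testBit p.2 (x % p.1) <;> simp) (Or.inl rfl)
            (fun h2 => absurd h2.2 (by decide)) h1
      · exfalso
        apply h
        rw [Bool.not_eq_true] at hx
        unfold cP cN
        rw [hx]
        exact land_zero (Or.inl rfl) (by cases (Nat.beq (y % p.1) 0 ||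
          Nat.testBit p.2 (y % p.1)) <;> simp) (fun h2 => absurd h2.1 (by decide)) h1
    · exact codes_spec ps (fun q hq => hL q (List.mem_cons_of_mem _ hq)) x y h1

/-- the test for a pair of numbers with codes `(P, N)`, `(P', N')` -/
def tst (P N P' N' : ℕ) : Bool := !(Nat.beq ((P &&& N') ||| (N &&& P')) 0)

theorem tst_spec {x y : ℕ} (h : tst (cP Ps x) (cN Ps x) (cP Ps y) (cN Ps y) = true) :
    ¬ IsSquare (x * y) := by
  by_cases h1 : cP Ps x &&& cN Ps y = 0
  · by_cases h2 : cN Ps x &&& cP Ps y = 0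
    · exfalso
      unfold tst at h
      rw [h1, h2] at h
      exact absurd h (by decide)
    · rw [mul_comm]
      rw [Nat.and_comm] at h2
      exact codes_spec Ps ps_ok y x h2
  · exact codes_spec Ps ps_ok x y h1

theorem nsq_spec {y : ℕ} (h : Nat.beq (cN Ps y) 0 = false) : ¬ IsSquare y := by
  have h1 : ∀ (L : List (ℕ × ℕ)), (∀ p ∈ L, Ok p) → cN L y ≠ 0 → ¬ IsSquare y := by
    intro L
    induction L with
    | nil => exact fun _ h => absurd rfl h
    | cons p ps ih =>
      intro hL hne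
      by_cases h2 : cN ps y = 0
      · cases hy : (Nat.beq (y % p.1) 0 || Nat.testBit p.2 (y % p.1)) with
        | false =>
          rintro ⟨z, hz⟩
          refine ok_nsq (hL p List.mem_cons_self) hy ⟨(z : ZMod p.1), ?_⟩
          rw [hz]
          push_cast
          rfl
        | true =>
          exfalso
          apply hne
          unfold cN
          rw [hy, h2]
          rfl
      · exact ih (fun q hq => hL q (List.mem_cons_of_mem _ hq)) h2
  refine h1 Ps ps_ok fun h2 => ?_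
  rw [h2] at h
  exact absurd h (by decide)

/-- the discriminant -/
def dis (q a c : ℕ) : ℕ := a * a + 16 * q - 4 * c

/-- the norm -/
def nor (q a c : ℕ) : ℕ := c * c - 4 * q * (a * a)

/-- the real Weil polynomials with `a ≥ 0` -/
def wei (q a c : ℕ) : Bool :=
  Nat.ble (a * a) (16 * q) && Nat.ble (4 * c) (a * a + 16 * q) && Nat.ble (4 * q * (a * a)) (c * c)

/-- an entry of the second table -/
def sqw (q a c : ℕ) (w : ℕ × ℕ) : Bool :=
  Nat.beq w.1 (1024 * a + c) && (Nat.beq (w.2 * w.2) (dis q a c) ||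
    Nat.beq (w.2 * w.2) (nor q a c) || Nat.beq (w.2 * w.2) (dis q a c * nor q a c))

/-- all real Weil polynomials (all ordinary ones, if `o`) are in one of the two tables -/
def complete (o : Bool) (q n m : ℕ) (T : List (ℕ × ℕ × ℕ × ℕ × ℕ)) (W : List (ℕ × ℕ)) : Bool :=
  (List.range n).all fun a => (List.range m).all fun c =>
    !(wei q a c) || (o && Nat.beq (c % q) 0) || T.any (fun e => Nat.beq e.1 (1024 * a + c)) ||
      W.any (sqw q a c)

/-- the codes are right -/
def good (q : ℕ) (T : List (ℕ × ℕ × ℕ × ℕ × ℕ)) : Bool :=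
  T.all fun e => Nat.beq e.2.1 (cP Ps (dis q (e.1 / 1024) (e.1 % 1024))) &&
    Nat.beq e.2.2.1 (cN Ps (dis q (e.1 / 1024) (e.1 % 1024))) &&
    Nat.beq e.2.2.2.1 (cP Ps (nor q (e.1 / 1024) (e.1 % 1024))) &&
    Nat.beq e.2.2.2.2 (cN Ps (nor q (e.1 / 1024) (e.1 % 1024)))

/-- an integer is not a square -/
def nrz (v : ℤ) : Bool := decide (v < 0) || !(Nat.beq (cN Ps v.toNat) 0)

/-- the trace -/
def tra (s : ℕ) : ℤ := ((s / 1024 : ℕ) : ℤ) * ((s / 1024 : ℕ) : ℤ) - 2 * ((s % 1024 : ℕ) : ℤ)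

/-- exceptional pairs -/
def okE (q : ℕ) (s t : ℕ) (e : ℕ × ℕ × ℕ × ℕ) : Bool :=
  Nat.beq e.1 s && Nat.beq e.2.1 t &&
    Nat.beq (e.2.2.1 * e.2.2.1) (dis q (s / 1024) (s % 1024) * nor q (t / 1024) (t % 1024)) &&
    Nat.beq (e.2.2.2 * e.2.2.2) (nor q (s / 1024) (s % 1024) * dis q (t / 1024) (t % 1024)) &&
    nrz (tra s * tra t + 2 * (s / 1024 : ℕ) * e.2.2.1 + 2 * (t / 1024 : ℕ) * e.2.2.2) &&
    nrz (tra s * tra t + 2 * (s / 1024 : ℕ) * e.2.2.1 - 2 * (t / 1024 : ℕ) * e.2.2.2) &&
    nrz (tra s * tra t - 2 * (s / 1024 : ℕ) * e.2.2.1 + 2 * (t / 1024 : ℕ) * e.2.2.2) &&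
    nrz (tra s * tra t - 2 * (s / 1024 : ℕ) * e.2.2.1 - 2 * (t / 1024 : ℕ) * e.2.2.2)

/-- no reflex pair in the table -/
def noRef (q : ℕ) (T : List (ℕ × ℕ × ℕ × ℕ × ℕ)) (E : List (ℕ × ℕ × ℕ × ℕ)) : Bool :=
  T.all fun s => T.all fun t => tst s.2.1 s.2.2.1 t.2.2.2.1 t.2.2.2.2 ||
    tst s.2.2.2.1 s.2.2.2.2 t.2.1 t.2.2.1 || E.any (okE q s.1 t.1)

/-- the table for `q = 3` -/
def T3 : List (ℕ × ℕ × ℕ × ℕ × ℕ) :=
  [(1029, 150, 15977, 4513, 11854), (1031, 15394, 984, 10253, 5106),
  (1032, 12368, 3983, 4513, 11854), (1033, 4513, 11854, 570, 15684),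
  (1035, 2888, 13493, 4871, 11512), (2058, 9368, 7014, 4513, 11854),
  (2059, 10916, 5467, 3265, 13118), (3085, 2888, 13493, 10323, 6060)]

/-- the second table for `q = 3` -/
def W3 : List (ℕ × ℕ) :=
  [(0, 0), (1, 1), (2, 2), (3, 6), (4, 4), (5, 5), (6, 6), (7, 7), (8, 4), (9, 9), (10, 10),
  (11, 2), (12, 0), (1028, 2), (1030, 5), (1034, 3), (1036, 1), (2055, 1), (2056, 4), (2057, 4),
  (2060, 2), (2061, 0), (3083, 13), (3084, 3), (3086, 1), (4110, 2), (4111, 2), (4112, 0),
  (5138, 1), (6165, 0)]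

/-- the table for `q = 7` -/
def T7 : List (ℕ × ℕ × ℕ × ℕ × ℕ) :=
  [(1030, 8234, 8149, 10916, 5467), (1031, 1221, 15128, 15394, 984),
  (1033, 3312, 13059, 13628, 2755), (1034, 3265, 13118, 10916, 5466),
  (1035, 570, 15684, 492, 15378), (1036, 9476, 6889, 150, 15977), (1037, 10323, 6060, 3470, 4720),
  (1038, 6404, 9914, 10616, 5762), (1039, 13628, 2755, 15812, 571),
  (1041, 2888, 13492, 150, 15976), (1042, 5762, 8573, 14678, 681),
  (1044, 3872, 12502, 492, 15378), (1045, 150, 15977, 8976, 7403),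
  (1047, 15394, 984, 2790, 13592), (1048, 12368, 3983, 1132, 15251),
  (1049, 4513, 11854, 6716, 9666), (1051, 2888, 13493, 7030, 9353),
  (2060, 12368, 3983, 10916, 5467), (2062, 4140, 12240, 15394, 984),
  (2063, 12826, 3553, 2588, 13795), (2065, 9368, 7014, 8396, 7986),
  (2066, 5190, 11185, 13628, 2755), (2067, 7697, 8684, 9734, 6648),
  (2069, 10916, 5467, 3666, 4521), (2070, 10049, 6330, 492, 15378),
  (2071, 12738, 3644, 1716, 14666), (2072, 2888, 13493, 150, 15977),
  (2074, 9368, 7014, 3470, 4720), (2075, 10916, 5467, 15948, 435),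
  (3089, 13628, 2755, 10253, 5106), (3091, 2888, 13492, 4871, 11512),
  (3092, 5762, 8573, 10253, 5106), (3093, 10253, 5106, 15394, 984),
  (3094, 3872, 12502, 5325, 10802), (3095, 150, 15977, 10709, 5674),
  (3097, 15394, 984, 3893, 12490), (3098, 12368, 3983, 8295, 8088),
  (3099, 4513, 11854, 13628, 2754), (3101, 2888, 13493, 9495, 6312),
  (4121, 10049, 6330, 8396, 7986), (4122, 12738, 3644, 6404, 9914),
  (4123, 2888, 13493, 4902, 11481), (4125, 9368, 7014, 12724, 3658),
  (4126, 10916, 5467, 2588, 13795), (5149, 15394, 984, 3470, 4720),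
  (5150, 12368, 3983, 10916, 5465), (5151, 4513, 11854, 150, 15976),
  (5153, 2888, 13493, 2174, 14209), (6178, 9368, 7014, 10253, 5106),
  (6179, 10916, 5467, 49, 15818), (7207, 2888, 13493, 10086, 6297)]

/-- the second table for `q = 7` -/
def W7 : List (ℕ × ℕ) :=
  [(0, 0), (1, 1), (2, 2), (3, 10), (4, 4), (5, 5), (6, 6), (7, 7), (8, 8), (9, 9), (10, 10),
  (11, 11), (12, 8), (13, 13), (14, 14), (15, 15), (16, 16), (17, 17), (18, 18), (19, 6),
  (20, 20), (21, 21), (22, 22), (23, 23), (24, 4), (25, 25), (26, 26), (27, 2), (28, 0),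
  (1032, 9), (1040, 7), (1043, 111), (1046, 5), (1050, 3), (1052, 1), (2059, 3), (2061, 8),
  (2064, 12), (2068, 6), (2073, 4), (2076, 2), (2077, 0), (3088, 2), (3090, 7), (3096, 5),
  (3100, 3), (3102, 1), (4118, 6), (4119, 6), (4120, 64), (4124, 4), (4127, 2), (4128, 0),
  (5147, 29), (5148, 5), (5152, 3), (5154, 1), (6176, 4), (6177, 4), (6180, 2), (6181, 0),
  (7206, 3), (7208, 1), (8235, 2), (8236, 0), (9264, 1), (10293, 0)]

/-- the table for `q = 11` -/
def T11 : List (ℕ × ℕ × ℕ × ℕ × ℕ) :=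
  [(1031, 10086, 6297, 2888, 13493), (1032, 13345, 2780, 2888, 13493),
  (1033, 3470, 4720, 10253, 5106), (1034, 1132, 15251, 12826, 3553),
  (1035, 6809, 9506, 3312, 13059), (1039, 4512, 11854, 5403, 10980),
  (1040, 2588, 13795, 13628, 2755), (1041, 4871, 11512, 2888, 13489),
  (1042, 2192, 14184, 1705, 14672), (1043, 14066, 2317, 5772, 10611),
  (1044, 12809, 3574, 8234, 8149), (1045, 492, 15378, 14281, 2102),
  (1046, 8234, 8149, 13728, 2645), (1047, 1221, 15128, 1724, 14657),
  (1049, 3312, 13059, 9690, 6689), (1050, 3265, 13118, 9548, 6835),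
  (1051, 570, 15684, 12505, 3876), (1052, 9476, 6889, 6328, 9029),
  (1053, 10323, 6060, 6200, 10183), (1054, 6404, 9914, 2639, 13744),
  (1055, 13628, 2755, 12904, 3475), (1057, 2888, 13492, 7461, 8848),
  (1058, 5762, 8573, 2184, 14199), (1059, 10253, 5106, 11434, 4949),
  (1060, 3872, 12502, 345, 16038), (1061, 150, 15977, 13628, 2753),
  (1063, 15394, 984, 7721, 8658), (1064, 12368, 3983, 2174, 14209),
  (1065, 4513, 11854, 1944, 14439), (2062, 6283, 9588, 2888, 13493),
  (2064, 150, 15977, 2888, 13493), (2065, 10049, 6330, 2588, 13795),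
  (2066, 9368, 7014, 10253, 5106), (2067, 1258, 15109, 6328, 9029),
  (2069, 12738, 3644, 393, 15988), (2070, 6492, 9763, 3312, 13059),
  (2071, 277, 16098, 14824, 1559), (2073, 2888, 13493, 2190, 14193),
  (2074, 547, 15772, 2888, 13493), (2075, 10916, 5466, 10409, 5970),
  (2076, 12368, 3983, 5944, 10375), (2078, 4140, 12240, 5403, 10980),
  (2079, 12826, 3553, 4812, 11569), (2080, 4513, 11854, 13628, 2755),
  (2081, 9368, 7014, 5841, 10534), (2082, 5190, 11185, 2888, 13489),
  (2083, 7697, 8684, 4442, 11941), (2085, 10916, 5467, 11544, 4839),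
  (2086, 10049, 6330, 5772, 10611), (2087, 12738, 3644, 2093, 14288),
  (2088, 2888, 13493, 8234, 8149), (2090, 9368, 7014, 14281, 2102),
  (2091, 10916, 5467, 10584, 5795), (3093, 14066, 2317, 2888, 13492),
  (3094, 12809, 3574, 277, 16098), (3095, 492, 15378, 6809, 9506),
  (3096, 8234, 8149, 2888, 13492), (3097, 1221, 15128, 5227, 11156),
  (3099, 3312, 13059, 10252, 5106), (3100, 3265, 13118, 12809, 3574),
  (3101, 570, 15684, 5277, 11104), (3102, 9476, 6889, 12826, 3552),
  (3103, 10323, 6060, 16041, 340), (3104, 6404, 9914, 9849, 6534),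
  (3105, 13628, 2755, 3312, 13058), (3107, 2888, 13492, 2235, 14148),
  (3109, 10253, 5106, 1385, 14994), (3110, 3872, 12502, 16265, 118),
  (3111, 150, 15977, 2888, 13492), (3113, 15394, 984, 14093, 2288),
  (3114, 12368, 3983, 5944, 10374), (3115, 4513, 11854, 3325, 13058),
  (3117, 2888, 13493, 5402, 10980), (4125, 547, 15772, 1132, 15251),
  (4127, 12368, 3983, 952, 15431), (4129, 4140, 12240, 14401, 1968),
  (4130, 12826, 3553, 2588, 13795), (4131, 4513, 11854, 10010, 6373),
  (4132, 9368, 7014, 10253, 5106), (4133, 5190, 11185, 11816, 4497),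
  (4134, 7697, 8684, 6328, 9029), (4136, 10916, 5467, 12826, 3553),
  (4137, 10049, 6330, 13100, 3283), (4138, 12738, 3644, 393, 15988),
  (4139, 2888, 13493, 8412, 7969), (4141, 9368, 7014, 7947, 8436),
  (4142, 10916, 5467, 14824, 1559), (5154, 9476, 6889, 12826, 3553),
  (5155, 10323, 6060, 2888, 13493), (5157, 13628, 2755, 15514, 869),
  (5159, 2888, 13492, 559, 15824), (5160, 5762, 8573, 2888, 13493),
  (5161, 10253, 5106, 9690, 6689), (5162, 3872, 12502, 10299, 6084),
  (5163, 150, 15977, 1962, 14417), (5165, 15394, 984, 10253, 5104),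
  (5166, 12368, 3983, 2542, 13841), (5167, 4513, 11854, 11642, 4741),
  (5169, 2888, 13493, 12794, 3589), (6185, 9368, 7014, 12809, 3574),
  (6186, 5190, 11185, 2888, 13492), (6187, 7697, 8684, 393, 15988),
  (6190, 10049, 6330, 6809, 9506), (6194, 9368, 7014, 5227, 11156),
  (6195, 10916, 5467, 2588, 13794), (7215, 10253, 5106, 13628, 2755),
  (7216, 3872, 12502, 10253, 5106), (7217, 150, 15977, 2888, 13489),
  (7219, 15394, 984, 5277, 11104), (7220, 12368, 3983, 1132, 15251),
  (7221, 4513, 11854, 8924, 7459), (7223, 2888, 13493, 7078, 9297),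
  (8247, 2888, 13493, 10642, 5669), (8249, 9368, 7014, 3129, 13254),
  (8250, 10916, 5467, 1132, 15251), (9277, 4513, 11854, 9849, 6534),
  (10307, 10916, 5467, 8234, 8149)]

/-- the second table for `q = 11` -/
def W11 : List (ℕ × ℕ) :=
  [(0, 0), (1, 1), (2, 2), (3, 3), (4, 4), (5, 5), (6, 6), (7, 7), (8, 12), (9, 9), (10, 10),
  (11, 11), (12, 12), (13, 13), (14, 14), (15, 15), (16, 16), (17, 17), (18, 18), (19, 10),
  (20, 20), (21, 21), (22, 22), (23, 23), (24, 24), (25, 25), (26, 26), (27, 27), (28, 8),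
  (29, 29), (30, 30), (31, 31), (32, 32), (33, 33), (34, 34), (35, 6), (36, 36), (37, 37),
  (38, 38), (39, 39), (40, 4), (41, 41), (42, 42), (43, 2), (44, 0), (1036, 10), (1037, 125),
  (1038, 11), (1048, 9), (1056, 7), (1062, 5), (1066, 3), (1067, 95), (1068, 1), (2063, 7),
  (2068, 10), (2072, 20), (2077, 8), (2084, 6), (2089, 4), (2092, 2), (2093, 0), (3092, 2),
  (3098, 9), (3106, 7), (3108, 30), (3112, 5), (3116, 3), (3118, 1), (4123, 5), (4124, 80),
  (4126, 14), (4128, 8), (4135, 6), (4140, 4), (4143, 2), (4144, 0), (5156, 14), (5158, 7),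
  (5164, 5), (5168, 3), (5170, 1), (6184, 4), (6188, 6), (6189, 21), (6191, 25), (6192, 120),
  (6193, 4), (6196, 2), (6197, 0), (7218, 5), (7222, 3), (7224, 1), (8246, 10), (8248, 4),
  (8251, 2), (8252, 0), (9276, 6), (9278, 3), (9279, 45), (9280, 1), (10308, 2), (10309, 0),
  (11337, 5), (11338, 1), (12368, 0)]

/-- the table for `q = 5` -/
def T5 : List (ℕ × ℕ × ℕ × ℕ × ℕ) :=
  [(1031, 13628, 2755, 150, 15977), (1033, 2888, 13492, 10323, 6060),
  (1035, 10253, 5106, 14066, 2317), (1036, 3872, 12502, 6283, 9588),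
  (1037, 150, 15977, 10086, 6297), (1040, 12368, 3983, 15274, 1109),
  (1041, 4513, 11854, 15514, 869), (1043, 2888, 13493, 12594, 3269),
  (2059, 7697, 8684, 5762, 8573), (2061, 10916, 5467, 8234, 8149),
  (2062, 10049, 6330, 150, 15977), (2064, 2888, 13493, 5190, 11185),
  (2066, 9368, 7014, 10323, 6060), (2067, 10916, 5467, 4902, 11481),
  (3089, 15394, 984, 4871, 11512), (3091, 4513, 11854, 5403, 10980),
  (3093, 2888, 13493, 150, 15976), (4115, 2888, 13493, 5762, 8573),
  (4118, 10916, 5467, 5762, 8573), (5143, 4513, 11854, 150, 15977)]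

/-- the second table for `q = 5` -/
def W5 : List (ℕ × ℕ) :=
  [(1, 1), (2, 2), (3, 3), (4, 8), (6, 6), (7, 7), (8, 8), (9, 9), (11, 6), (12, 12), (13, 13),
  (14, 14), (16, 4), (17, 17), (18, 18), (19, 2), (1030, 4), (1032, 7), (1038, 5), (1042, 3),
  (2057, 1), (2060, 6), (2065, 4), (2069, 0), (3086, 4), (3088, 5), (3090, 12), (3094, 1),
  (4114, 2), (4117, 11), (4119, 2), (4120, 0), (5144, 3), (5146, 1), (6171, 3), (6172, 2),
  (6173, 0), (7200, 1), (8228, 0)]

/-- the table for `q = 13` -/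
def T13 : List (ℕ × ℕ × ℕ × ℕ × ℕ) :=
  [(1032, 8396, 7986, 9368, 7014), (1033, 16272, 111, 150, 15977),
  (1035, 15252, 1120, 570, 15684), (1036, 354, 15897, 6492, 9763),
  (1039, 10086, 6297, 16272, 111), (1040, 13345, 2780, 11030, 5320),
  (1041, 3470, 4720, 11120, 5262), (1042, 1132, 15251, 12368, 3983),
  (1043, 6809, 9506, 8286, 8096), (1044, 786, 11500, 6896, 9230),
  (1045, 2888, 13493, 2174, 14209), (1047, 4512, 11854, 13628, 2754),
  (1048, 2588, 13795, 10962, 5421), (1049, 4871, 11512, 14616, 1766),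
  (1051, 14066, 2317, 3088, 13295), (1052, 12809, 3574, 13108, 3274),
  (1053, 492, 15378, 16146, 236), (1054, 8234, 8149, 13628, 2755),
  (1055, 1221, 15128, 14066, 2316), (1057, 3312, 13059, 10204, 6147),
  (1058, 3265, 13118, 570, 15684), (1059, 570, 15684, 3348, 12874),
  (1060, 9476, 6889, 4826, 11557), (1061, 10323, 6060, 10484, 5898),
  (1062, 6404, 9914, 6896, 9230), (1065, 2888, 13492, 5402, 10980),
  (1066, 5762, 8573, 7956, 8427), (1067, 10253, 5106, 1496, 14886),
  (1068, 3872, 12502, 15646, 736), (1069, 150, 15977, 8184, 8199),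
  (1071, 15394, 984, 11964, 4418), (1072, 12368, 3983, 4656, 11727),
  (1073, 4513, 11854, 150, 15976), (1075, 2888, 13493, 1590, 14793),
  (2063, 5944, 10375, 12368, 3983), (2064, 10253, 5106, 9368, 7014),
  (2066, 5104, 11273, 150, 15977), (2067, 9483, 6868, 12368, 3982),
  (2068, 3872, 12502, 9368, 7014), (2069, 10916, 5467, 2004, 14379),
  (2070, 6283, 9588, 570, 15684), (2071, 1396, 14984, 1138, 15244),
  (2072, 150, 15977, 6492, 9763), (2073, 10049, 6330, 1716, 14666),
  (2075, 1258, 15109, 10010, 6373), (2077, 12738, 3644, 7664, 8718),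
  (2078, 6492, 9763, 16272, 111), (2079, 277, 16098, 8988, 7394), (2080, 15394, 984, 11030, 5320),
  (2081, 2888, 13493, 7258, 9125), (2082, 547, 15772, 11120, 5262),
  (2083, 10916, 5466, 2588, 13794), (2086, 4140, 12240, 8286, 8096),
  (2088, 4513, 11854, 6896, 9230), (2089, 9368, 7014, 14224, 2158),
  (2090, 5190, 11185, 2174, 14209), (2091, 7697, 8684, 2290, 14092),
  (2093, 10916, 5467, 5684, 10571), (2094, 10049, 6330, 13628, 2754),
  (2095, 12738, 3644, 15442, 556), (2096, 2888, 13493, 10962, 5421),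
  (2098, 9368, 7014, 14616, 1766), (2099, 10916, 5467, 1200, 15183),
  (3095, 2888, 13493, 10323, 6060), (3097, 4512, 11854, 9849, 6534),
  (3099, 4871, 11512, 150, 15976), (3100, 2192, 14184, 12311, 4072),
  (3101, 14066, 2317, 3893, 12490), (3102, 12809, 3574, 9368, 7014),
  (3103, 492, 15378, 3609, 12486), (3104, 8234, 8149, 7635, 8748),
  (3105, 1221, 15128, 570, 15684), (3107, 3312, 13059, 125, 16258),
  (3108, 3265, 13118, 6492, 9762), (3109, 570, 15684, 14995, 1356),
  (3110, 9476, 6889, 10323, 6060), (3112, 6404, 9914, 15185, 1198),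
  (3113, 13628, 2755, 4957, 11426), (3115, 2888, 13492, 9399, 6984),
  (3116, 5762, 8573, 7257, 9126), (3117, 10253, 5106, 16272, 110),
  (3118, 3872, 12502, 15161, 1222), (3119, 150, 15977, 13211, 3172),
  (3121, 15394, 984, 13461, 2922), (3122, 12368, 3983, 7349, 9034),
  (3123, 4513, 11854, 11120, 5262), (3125, 2888, 13493, 3803, 12580),
  (4126, 1258, 15109, 12368, 3983), (4128, 12738, 3644, 9368, 7014),
  (4129, 6492, 9763, 952, 15431), (4131, 15394, 984, 12724, 3658),
  (4132, 2888, 13493, 150, 15977), (4133, 547, 15772, 6872, 9510),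
  (4134, 10916, 5466, 12368, 3982), (4137, 4140, 12240, 8246, 8136),
  (4138, 12826, 3553, 2004, 14379), (4139, 4513, 11854, 2588, 13794),
  (4140, 9368, 7014, 570, 15684), (4141, 5190, 11185, 11544, 4839),
  (4142, 7697, 8684, 1138, 15244), (4144, 10916, 5467, 6492, 9763),
  (4145, 10049, 6330, 12886, 3496), (4146, 12738, 3644, 1716, 14666),
  (4147, 2888, 13493, 5690, 10437), (4149, 9368, 7014, 11600, 4782),
  (4150, 10916, 5467, 10010, 6373), (5157, 1221, 15128, 570, 15684),
  (5160, 3265, 13118, 9368, 7012), (5161, 570, 15684, 2002, 14380),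
  (5162, 9476, 6889, 150, 15977), (5164, 6404, 9914, 11866, 4516),
  (5165, 13628, 2755, 148, 15977), (5167, 2888, 13492, 14066, 2316),
  (5168, 5762, 8573, 14458, 1925), (5169, 10253, 5106, 1854, 14528),
  (5170, 3872, 12502, 9368, 7012), (5171, 150, 15977, 12794, 3589),
  (5173, 15394, 984, 6454, 9928), (5174, 12368, 3983, 14066, 2317),
  (5175, 4513, 11854, 568, 15684), (5177, 2888, 13493, 5458, 10925),
  (6190, 4140, 12240, 10323, 6060), (6191, 12826, 3553, 15381, 1002),
  (6192, 4513, 11854, 9368, 7014), (6194, 5190, 11185, 9849, 6534),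
  (6197, 10916, 5467, 1905, 14478), (6198, 10049, 6330, 150, 15976),
  (6199, 12738, 3644, 14745, 1638), (6200, 2888, 13493, 12311, 4072),
  (6202, 9368, 7014, 3893, 12490), (6203, 10916, 5467, 2587, 13796),
  (7221, 2888, 13492, 150, 15976), (7222, 5762, 8573, 6492, 9763),
  (7223, 10253, 5106, 13628, 2754), (7224, 3872, 12502, 9368, 7010),
  (7225, 150, 15977, 7030, 9353), (7227, 15394, 984, 2492, 13890),
  (7228, 12368, 3983, 9332, 7051), (7229, 4513, 11854, 3348, 12874),
  (7231, 2888, 13493, 146, 15977), (8252, 10916, 5467, 12368, 3983),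
  (8253, 10049, 6330, 12724, 3658), (8254, 12738, 3644, 786, 11500),
  (8255, 2888, 13493, 1054, 15329), (8258, 10916, 5467, 952, 15431),
  (9283, 15394, 984, 10709, 5674), (9284, 12368, 3983, 15161, 1222),
  (9285, 4513, 11854, 10322, 6060), (9287, 2888, 13493, 2235, 14148),
  (10314, 9368, 7014, 570, 15684), (10315, 10916, 5467, 12368, 3981),
  (11345, 2888, 13493, 15514, 869)]

/-- the second table for `q = 13` -/
def W13 : List (ℕ × ℕ) :=
  [(1, 1), (2, 2), (3, 14), (4, 4), (5, 5), (6, 6), (7, 7), (8, 8), (9, 9), (10, 10), (11, 11),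
  (12, 12), (14, 14), (15, 15), (16, 12), (17, 17), (18, 18), (19, 19), (20, 20), (21, 21),
  (22, 22), (23, 23), (24, 24), (25, 25), (27, 10), (28, 28), (29, 29), (30, 30), (31, 31),
  (32, 32), (33, 33), (34, 34), (35, 35), (36, 8), (37, 37), (38, 38), (40, 40), (41, 41),
  (42, 42), (43, 6), (44, 44), (45, 45), (46, 46), (47, 47), (48, 4), (49, 49), (50, 50), (51, 2),
  (1034, 13), (1038, 12), (1046, 11), (1056, 9), (1064, 7), (1070, 5), (1074, 3), (2065, 12),
  (2076, 10), (2084, 272), (2085, 8), (2092, 6), (2097, 4), (2101, 0), (3094, 4), (3096, 11),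
  (3106, 9), (3114, 7), (3120, 5), (3126, 1), (4125, 3), (4127, 10), (4130, 18), (4136, 8),
  (4143, 6), (4151, 2), (4152, 0), (5158, 9), (5163, 183), (5166, 7), (5176, 3), (5178, 1),
  (6188, 8), (6189, 8), (6193, 23), (6195, 27), (6201, 4), (6204, 2), (6205, 0), (7219, 53),
  (7226, 5), (7230, 3), (7232, 1), (8250, 6), (8251, 6), (8256, 4), (8259, 2), (8260, 0),
  (9282, 5), (9286, 3), (9288, 1), (10313, 4), (10316, 2), (10317, 0), (11344, 3), (11346, 1),
  (12375, 2), (12376, 0), (13406, 1), (14437, 0)]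

/-- the exceptional pairs for `q = 11` -/
def E11 : List (ℕ × ℕ × ℕ × ℕ) :=
  [(2088, 3096, 60, 356), (3096, 2088, 356, 60)]

theorem complete3 : complete false 3 7 25 T3 W3 = true := by decide +kernel

theorem good3 : good 3 T3 = true := by decide +kernel

theorem noRef3 : noRef 3 T3 [] = true := by decide +kernel

theorem complete7 : complete false 7 11 57 T7 W7 = true := by decide +kernel

theorem good7 : good 7 T7 = true := by decide +kernel

theorem noRef7 : noRef 7 T7 [] = true := by decide +kernel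

theorem complete11 : complete false 11 14 89 T11 W11 = true := by decide +kernel

theorem good11 : good 11 T11 = true := by decide +kernel

theorem noRef11 : noRef 11 T11 E11 = true := by decide +kernel

theorem complete5 : complete true 5 9 41 T5 W5 = true := by decide +kernel

theorem good5 : good 5 T5 = true := by decide +kernel

theorem noRef5 : noRef 5 T5 [] = true := by decide +kernel

theorem complete13 : complete true 13 15 105 T13 W13 = true := by decide +kernel

theorem good13 : good 13 T13 = true := by decide +kernel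

theorem noRef13 : noRef 13 T13 [] = true := by decide +kernel

end Pool.Agent.GT2.NRF
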