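import Pool.Agent.GT2.St
import Pool.Agent.GT2.Enum3

/-!
# GT2: no reflex pairs of ordinary surfaces over the fields with 5 and 13 elements (helper30)

`T5`, `T13` are the lists of all real Weil polynomials `x ^ 2 + a x + b`, `a ≥ 0`, with `d` and `d D` not
squares. For two of them with `q ∤ b` the numbers `d D'` and `D d'` are not both squares.
-/

set_option autoImplicit false

namespace Pool.Agent.GT2

namespace NRO

open Enum

/-- the real Weil polynomials with `a ≥ 0`, `d` and `d D` not squares, `q = 5` -/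
def T5 : List (ℤ × ℤ) :=
  [(0, -19), (0, -18), (0, -17), (0, -15), (0, -14), (0, -13), (0, -12), (0, -11), (0, -10), (0,
  -8), (0, -7), (0, -6), (0, -5), (0, -3), (0, -2), (1, -15), (1, -14), (1, -13), (1, -11), (1,
  -10), (1, -9), (1, -8), (1, -7), (1, -5), (1, -4), (1, -3), (1, -1), (2, -11), (2, -10), (2,
  -9), (2, -7), (2, -6), (2, -5), (2, -4), (2, -2), (2, -1), (3, -6), (3, -5), (3, -3), (3, -2),
  (3, -1), (3, 1), (4, -2), (4, -1), (4, 1), (4, 2), (5, 3), (6, 7)]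

/-- the others, with a square root of `d` or `d D`, `q = 5` -/
def W5 : List (ℤ × ℤ × ℤ) :=
  [(0, -20, 0), (0, -16, 8), (0, -9, 6), (0, -4, 4), (0, -1, 2), (0, 0, 0), (1, -12, 7), (1, -6,
  5), (1, -2, 3), (1, 0, 1), (2, -8, 6), (2, -3, 4), (2, 0, 2), (2, 1, 0), (3, -4, 5), (3, 0, 3),
  (3, 2, 1), (4, 0, 4), (4, 3, 2), (4, 4, 0), (5, 4, 3), (5, 5, 25), (5, 6, 1), (6, 8, 2), (6, 9,
  0), (7, 12, 1), (8, 16, 0)]

/-- the real Weil polynomials with `a ≥ 0`, `d` and `d D` not squares, `q = 13` -/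
def T13 : List (ℤ × ℤ) :=
  [(0, -51), (0, -50), (0, -48), (0, -47), (0, -46), (0, -45), (0, -44), (0, -43), (0, -42), (0,
  -41), (0, -40), (0, -39), (0, -38), (0, -37), (0, -35), (0, -34), (0, -33), (0, -32), (0, -31),
  (0, -30), (0, -29), (0, -28), (0, -27), (0, -26), (0, -24), (0, -23), (0, -22), (0, -21), (0,
  -20), (0, -19), (0, -18), (0, -17), (0, -15), (0, -14), (0, -13), (0, -12), (0, -11), (0, -10),
  (0, -8), (0, -7), (0, -6), (0, -5), (0, -3), (0, -2), (1, -44), (1, -43), (1, -41), (1, -40),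
  (1, -39), (1, -38), (1, -37), (1, -36), (1, -35), (1, -34), (1, -33), (1, -32), (1, -31), (1,
  -29), (1, -28), (1, -27), (1, -26), (1, -25), (1, -24), (1, -23), (1, -22), (1, -21), (1, -19),
  (1, -18), (1, -17), (1, -16), (1, -15), (1, -14), (1, -13), (1, -11), (1, -10), (1, -9), (1,
  -8), (1, -7), (1, -5), (1, -4), (1, -3), (1, -1), (2, -37), (2, -36), (2, -34), (2, -33), (2,
  -32), (2, -31), (2, -30), (2, -29), (2, -28), (2, -27), (2, -26), (2, -25), (2, -23), (2, -22),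
  (2, -21), (2, -20), (2, -19), (2, -18), (2, -17), (2, -14), (2, -13), (2, -12), (2, -11), (2,
  -10), (2, -9), (2, -7), (2, -6), (2, -5), (2, -4), (2, -2), (2, -1), (3, -30), (3, -29), (3,
  -27), (3, -26), (3, -25), (3, -24), (3, -23), (3, -22), (3, -21), (3, -20), (3, -19), (3, -17),
  (3, -16), (3, -15), (3, -14), (3, -13), (3, -12), (3, -11), (3, -9), (3, -8), (3, -7), (3, -6),
  (3, -5), (3, -3), (3, -2), (3, -1), (3, 1), (4, -23), (4, -22), (4, -20), (4, -19), (4, -18),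
  (4, -17), (4, -16), (4, -15), (4, -14), (4, -13), (4, -11), (4, -10), (4, -9), (4, -8), (4,
  -7), (4, -6), (4, -4), (4, -3), (4, -2), (4, -1), (4, 1), (4, 2), (5, -15), (5, -13), (5, -12),
  (5, -11), (5, -10), (5, -8), (5, -7), (5, -5), (5, -4), (5, -3), (5, -2), (5, -1), (5, 1), (5,
  2), (5, 3), (5, 5), (6, -8), (6, -6), (6, -5), (6, -4), (6, -3), (6, -2), (6, -1), (6, 1), (6,
  2), (6, 3), (6, 4), (6, 6), (6, 7), (7, 1), (7, 2), (7, 3), (7, 4), (7, 5), (7, 7), (7, 8), (7,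
  9), (7, 11), (8, 6), (8, 8), (8, 9), (8, 10), (8, 11), (8, 13), (8, 14), (9, 13), (9, 15), (9,
  16), (9, 17), (9, 19), (10, 22), (10, 23), (11, 29)]

/-- the others, with a square root of `d` or `d D`, `q = 13` -/
def W13 : List (ℤ × ℤ × ℤ) :=
  [(0, -52, 0), (0, -49, 14), (0, -36, 12), (0, -25, 10), (0, -16, 8), (0, -9, 6), (0, -4, 4),
  (0, -1, 2), (0, 0, 0), (1, -42, 13), (1, -30, 11), (1, -20, 9), (1, -12, 7), (1, -6, 5), (1,
  -2, 3), (1, 0, 1), (2, -35, 12), (2, -24, 10), (2, -16, 272), (2, -15, 8), (2, -8, 6), (2, -3,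
  4), (2, 0, 2), (2, 1, 0), (3, -28, 11), (3, -18, 9), (3, -10, 7), (3, -4, 5), (3, 0, 3), (3, 2,
  1), (4, -21, 10), (4, -12, 8), (4, -5, 6), (4, 0, 4), (4, 3, 2), (4, 4, 0), (5, -14, 9), (5,
  -9, 183), (5, -6, 7), (5, 0, 5), (5, 4, 3), (5, 6, 1), (6, -7, 8), (6, 0, 6), (6, 5, 4), (6, 8,
  2), (6, 9, 0), (7, -1, 53), (7, 0, 7), (7, 6, 5), (7, 10, 3), (7, 12, 1), (8, 7, 6), (8, 12,
  4), (8, 15, 2), (8, 16, 0), (9, 14, 5), (9, 18, 3), (9, 20, 1), (10, 21, 4), (10, 24, 2), (10,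
  25, 0), (11, 28, 3), (11, 30, 1), (12, 35, 2), (12, 36, 0), (13, 42, 1), (14, 49, 0)]

/-- the ordinary ones -/
def ord (q : ℤ) (T : List (ℤ × ℤ)) : List (ℤ × ℤ) := T.filter fun s => !decide (s.2 % q = 0)

theorem complete5 : complete 5 9 41 T5 W5 = true := by decide +kernel

theorem complete13 : complete 13 15 105 T13 W13 = true := by decide +kernel

theorem noPair5 : noPair 5 (ord 5 T5) = true := by decide +kernel

theorem noPair13 : noPair 13 (ord 13 T13) = true := by decide +kernel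

theorem mem_ord {q : ℤ} {T : List (ℤ × ℤ)} {a b : ℤ} (h : (a, b) ∈ T) (hb : ¬ q ∣ b) :
    (a, b) ∈ ord q T := by
  unfold ord
  rw [List.mem_filter]
  refine ⟨h, ?_⟩
  rw [Bool.not_eq_true', decide_eq_false_iff_not]
  exact fun h1 => hb (Int.dvd_of_emod_eq_zero h1)

theorem core (q : ℤ) (N M : ℕ) (T : List (ℤ × ℤ)) (W : List (ℤ × ℤ × ℤ))
    (hc : complete q N M T W = true) (hp : noPair q (ord q T) = true)
    (hN : 16 * q < (N : ℤ) * N) (hM : 8 * q < M) (a b a' b' : ℤ) (hb : ¬ q ∣ b) (hb' : ¬ q ∣ b')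
    (h1 : a ^ 2 ≤ 16 * q) (h2 : 4 * b ≤ a ^ 2) (h3 : 0 ≤ b + 4 * q)
    (h4 : 4 * q * a ^ 2 ≤ (b + 4 * q) ^ 2) (hd : ¬ IsSquare (a ^ 2 - 4 * b))
    (hdD : ¬ IsSquare ((a ^ 2 - 4 * b) * ((b + 4 * q) ^ 2 - 4 * q * a ^ 2)))
    (h1' : a' ^ 2 ≤ 16 * q) (h2' : 4 * b' ≤ a' ^ 2) (h3' : 0 ≤ b' + 4 * q)
    (h4' : 4 * q * a' ^ 2 ≤ (b' + 4 * q) ^ 2) (hd' : ¬ IsSquare (a' ^ 2 - 4 * b'))
    (hdD' : ¬ IsSquare ((a' ^ 2 - 4 * b') * ((b' + 4 * q) ^ 2 - 4 * q * a' ^ 2))) (n m : ℤ)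
    (hn : n ^ 2 = (a ^ 2 - 4 * b) * ((b' + 4 * q) ^ 2 - 4 * q * a' ^ 2))
    (hm : m ^ 2 = ((b + 4 * q) ^ 2 - 4 * q * a ^ 2) * (a' ^ 2 - 4 * b')) : False := by
  have m1 : (|a|, b) ∈ ord q T := mem_ord (mem_of q N M T W hc hN hM |a| b (abs_nonneg a)
    (by rwa [sq_abs]) (by rwa [sq_abs]) h3 (by rwa [sq_abs]) (by rwa [sq_abs])
    (by rwa [sq_abs])) hb
  have m2 : (|a'|, b') ∈ ord q T := mem_ord (mem_of q N M T W hc hN hM |a'| b' (abs_nonneg a')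
    (by rwa [sq_abs]) (by rwa [sq_abs]) h3' (by rwa [sq_abs]) (by rwa [sq_abs])
    (by rwa [sq_abs])) hb'
  unfold noPair at hp
  rw [List.all_eq_true] at hp
  have h5 := hp _ m1
  rw [List.all_eq_true] at h5
  have h6 := h5 _ m2
  rw [Bool.or_eq_true] at h6
  have e1 : |a| * |a| = a ^ 2 := by rw [abs_mul_abs_self, sq]
  have e2 : |a'| * |a'| = a' ^ 2 := by rw [abs_mul_abs_self, sq]
  rcases h6 with h6 | h6
  · refine nr_spec _ h6 ⟨n, ?_⟩
    unfold dis nor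
    rw [e1, e2, ← sq (b' + 4 * q), ← hn, sq]
  · refine nr_spec _ h6 ⟨m, ?_⟩
    unfold dis nor
    rw [e1, e2, ← sq (b + 4 * q), ← hm, sq]

end NRO

/-- no reflex pairs of ordinary surfaces over the fields with 5 and 13 elements -/
theorem t_NRO (q : ℕ) (hq : q = 5 ∨ q = 13) (A B A₁ B₁ : ℤ) (hB : ¬ (q : ℤ) ∣ B)
    (hB₁ : ¬ (q : ℤ) ∣ B₁) (h : W2 q A B) (h₁ : W2 q A₁ B₁) : ¬ Reflex q A B A₁ B₁ := by
  rintro ⟨⟨g1, _, g2, _⟩, ⟨k1, _, k2, _⟩, n, m, hn, hm, _⟩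
  have d := h.d
  have dp := h.dp
  have d' := h₁.d
  have dp' := h₁.dp
  unfold DD at d d' g1 k1 hn hm g2 k2
  unfold DP at dp dp' g2 k2 hn hm
  have hc : Enum.complete q (if q = 5 then 9 else 15) (if q = 5 then 41 else 105)
      (if q = 5 then NRO.T5 else NRO.T13) (if q = 5 then NRO.W5 else NRO.W13) = true ∧
      Enum.noPair q (NRO.ord q (if q = 5 then NRO.T5 else NRO.T13)) = true ∧
      16 * (q : ℤ) < ((if q = 5 then 9 else 15 : ℕ) : ℤ) * ((if q = 5 then 9 else 15 : ℕ) : ℤ) ∧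
      8 * (q : ℤ) < ((if q = 5 then 41 else 105 : ℕ) : ℤ) := by
    rcases hq with rfl | rfl
    · exact ⟨NRO.complete5, NRO.noPair5, by norm_num, by norm_num⟩
    · exact ⟨NRO.complete13, NRO.noPair13, by norm_num, by norm_num⟩
  exact NRO.core q _ _ _ _ hc.1 hc.2.1 hc.2.2.1 hc.2.2.2 A B A₁ B₁ hB hB₁ h.a (by linarith) h.s
    (by linarith) g1 g2 h₁.a (by linarith) h₁.s (by linarith) k1 k2 n m hn hm

end Pool.Agent.GT2
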