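import Pool.Agent.GT2.St
import Pool.Agent.GT2.Enum3

/-!
# GT2: no reflex pairs over the fields with 3, 7 and 11 elements (helper30)
-/

set_option autoImplicit false

namespace Pool.Agent.GT2.NRX

open Pool.Agent.GT2

/-- no reflex pairs, for the three fields at once -/
theorem none (q : ℕ) (hq : (q : ℤ) = 3 ∨ (q : ℤ) = 7 ∨ (q : ℤ) = 11) (A B A₁ B₁ : ℤ)
    (h : W2 q A B) (h₁ : W2 q A₁ B₁) : ¬ Reflex q A B A₁ B₁ := by
  rintro ⟨⟨g1, _, g2, _⟩, ⟨k1, _, k2, _⟩, n, m, hn, hm, hs⟩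
  have d := h.d
  have dp := h.dp
  have d' := h₁.d
  have dp' := h₁.dp
  unfold DD at d d' g1 k1 hn hm g2 k2
  unfold DP at dp dp' g2 k2 hn hm
  exact Enum.no_ref q hq A B A₁ B₁ h.a (by linarith) h.s (by linarith) g1 g2 h₁.a (by linarith)
    h₁.s (by linarith) k1 k2 n m hn hm hs

end Pool.Agent.GT2.NRX
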