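import Pool.Agent.GT2.Base

/-!
# GT2: Frobenius eigenvalues of abelian surfaces, statements (MP_cb388a_ag, architect helper88)

THEOREM. Let `p` be an odd prime and `S` a set of real Weil polynomials `h = x² + A x + B` over the field
with `p` elements without reflex pairs. Then the set of the eigenvalues of Frobenius of the abelian surfaces
with `h ∈ S` (up to roots of unity) has the partner property `AlmostAll.Par`. There are no reflex pairs at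
all for `p = 3, 7, 11`.

IDEA. `L` is a finite Galois extension of `ℚ` with the group `Γ`, `v` an absolute value over `p`, `F` the
slope. For a root `a` let `f_a σ = F (σ a)`, a function on `Γ`. It has the values `0, 1, -1` (`S_LOC`), and any
two of these functions are equal, opposite, or ORTHOGONAL (`S_ORT`), unless the pair is a reflex pair.
So in a relation `∑ f = 0` every function has a partner (`S_CMB`).

We write: `ā = q / a`; `t = a + q / a`, `r = 2 t + A`, `r² = DD A B` (`Rt.disc`); if `b` is a root with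
`b + q / b = - A - t` and `δ = (a - ā) (b - b̄)` then `δ² = DP q A B` (`Rt.dp`). `Γ = L ≃ₐ[ℚ] L`.
For every `σ`: `σ r = ± r`, `σ δ = ± δ` (`map_pm`); `σ r = r` iff `σ a ∈ {a, ā}` (`eq_or_bar`, if `r ≠ 0`), and else
`σ a` is a root `x` with `x + q / x = - A - t` (`Rt.two`). All lemmas of `Base.lean` may be used.

Each statement `S_XXX` is a module: `theorem t_XXX : S_XXX` (or `M_XXX : S_YYY → ... → S_XXX`) in
`Pool/Agent/GT2/XXX.lean`, import `Pool.Agent.GT2.St` only, auxiliary lemmas in namespace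
`Pool.Agent.GT2.XXXAux`.
-/

set_option autoImplicit false

open Polynomial

namespace Pool.Agent.GT2

noncomputable section

/-! ### arithmetic -/

/-- LOC (110 lines), the slopes. PROOF. `v n ≤ 1` for integers `n`, `v n = 1` if `p ∤ n` (Bezout), `v n ≤ v p` if `p ∣ n`,
`0 < v p < 1`. Let `t = a + p/a`, `t' = -A - t`, so `t t' = B`; `v t ≤ 1` (`t² = -A t - B`), `v t' ≤ 1`. `a² - t a + p = 0`, also for `ā`;
so `v a ≤ 1`, `v ā ≤ 1`, `v a · v ā = v p`.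
If `v t = 1` then `max (v a) (v ā) = 1`: if `v a = 1` the slope is `1`; if `v ā = 1` then `v a = v p`, the slope is `-1`.
(1) `p ∤ B`: `v t · v t' = 1`, so `v t = 1`. (2) `p ∣ B`, `p ∤ A`: if `v t < 1` then `v t' = 1` (`t + t' = -A`, `v A = 1`), so
`v t = v B ≤ v p`. If `v a ^ 2 > v p` then `v a ^ 2 ≤ max (v t · v a) (v p)` gives `v a ≤ v t ≤ v p`, `v a ^ 2 ≤ v p ^ 2 < v p`, a
contradiction; the same for `ā`; as `v a ^ 2 · v ā ^ 2 = v p ^ 2` we get `v a ^ 2 = v p`, slope `0`. (3) `p ∣ A, B`: `v t ^ 2 ≤ max (v p · v t) (v p) ≤ v p`;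
if `v a ^ 2 > v p` then `v a ≤ v t` as before, `v a ^ 2 ≤ v t ^ 2 ≤ v p`, a contradiction, the same for `ā`: slope `0`. (4) `v ā = v p / v a`. -/
def S_LOC : Prop := ∀ (L : Type) [Field L] [CharZero L] (v : AbsoluteValue L ℝ) (p : ℕ)
  (_ : p.Prime) (_ : IsNonarchimedean v) (_ : v (p : L) < 1) (A B : ℤ) (a : L), Rt p A B a →
  (¬ (p : ℤ) ∣ B → F p v a = 1 ∨ F p v a = -1) ∧
  ((p : ℤ) ∣ B → ¬ (p : ℤ) ∣ A → (v (a + (p : L) / a) = 1 ∧ (F p v a = 1 ∨ F p v a = -1)) ∨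
    (v (a + (p : L) / a) < 1 ∧ F p v a = 0)) ∧
  ((p : ℤ) ∣ A → (p : ℤ) ∣ B → F p v a = 0) ∧ F p v ((p : L) / a) = - F p v a

/-- INT (60 lines), integers. PROOF. `DP ≡ B²` modulo `p`. If `B = p B'`, `DP = p (p (B' + 4)² - 4 A²)`, `p ∤ 4 A²`; `DD ≡ A²`. A square
divisible by `p` is divisible by `p²`. -/
def S_INT : Prop := ∀ (p : ℕ) (_ : p.Prime) (_ : p ≠ 2) (A B A₁ B₁ : ℤ),
  ((p : ℤ) ∣ B → ¬ (p : ℤ) ∣ A → ¬ IsSquare (DP p A B)) ∧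
  (¬ (p : ℤ) ∣ B → (p : ℤ) ∣ B₁ → ¬ (p : ℤ) ∣ A₁ → ¬ IsSquare (DP p A B * DP p A₁ B₁)) ∧
  ((p : ℤ) ∣ B → ¬ (p : ℤ) ∣ A → (p : ℤ) ∣ B₁ → ¬ (p : ℤ) ∣ A₁ →
    ¬ IsSquare (DD A B * DP p A₁ B₁))

/-- REA (60 lines), `W2` means real roots in `[-2√q, 2√q]`. PROOF. `(2 t + A)² = DD ≥ 0`, so `2 t + A` is real (a complex number with
a nonnegative real square is real). `t' = -A - t`; `(4q - t²)(4q - t'²) = DP ≥ 0`, and `t² + t'² = A² - 2 B`; if `t² > 4 q` then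
`t'² ≥ 4 q`, so `B² = t² t'² ≥ 16 q²`; `B ≥ -4 q`; if `B > 0`: `t`, `t'` have the same sign, `A² = (|t| + |t'|)² > 16 q`, a contradiction to
`A² ≤ 16 q`; if `B ≤ 0`: `B = -4 q`, `t² t'² = 16 q²`, but `t² > 4 q`, `t'² ≥ 4 q`, a contradiction. -/
def S_REA : Prop := ∀ (q : ℕ) (_ : 1 ≤ q) (A B : ℤ), W2 q A B → ∀ t : ℂ,
  t ^ 2 + A * t + B = 0 → t.im = 0 ∧ t.re ^ 2 ≤ 4 * q

/-- CON (90 lines), complex conjugation. PROOF. Let `φ : L →+* ℂ` (exists, `L` is a number field). `L` is normal over `ℚ`, so `conj ∘ φ = φ ∘ c`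
for an automorphism `c` (both are `ℚ`-algebra homomorphisms to `ℂ` and have the same range, e.g. `AlgHom.normal_bijective`, or
`Normal` and `AlgHom.restrictNormal'`, or use that `ℚ`-embeddings of the normal `L` differ by automorphisms). For a root `a`: `T = φ (a + q/a)` is real,
`T.re² ≤ 4 q` (`S_REA`), and `z = φ a` satisfies `z² - T z + q = 0`, so `conj z` is also a root; if `z` is not real then
`z · conj z = q`; if `z` is real then `T² ≥ 4 q`, so `T² = 4 q`, `(z - T/2)² = 0`, `z² = q`. So `conj z = q / z`, `c a = q / a`. -/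
def S_CON : Prop := ∀ (L : Type) [Field L] [NumberField L] [IsGalois ℚ L],
  ∃ c : L ≃ₐ[ℚ] L, ∀ (q : ℕ) (A B : ℤ) (a : L), 1 ≤ q → W2 q A B → Rt q A B a →
    c a = (q : L) / a

def M_CON : Prop := S_REA → S_CON

/-! ### Galois theory -/

/-- ROT (70 lines), a rotation. PROOF. `σ₁` with `σ₁ r = -r` (else `r` is fixed, `DD` a square). `b = σ₁ a`, `b + q/b = -A - t`. `σ₂` with
`σ₂ δ = -δ` (else `DP` is a square). `ρ = σ₁` if `σ₁ δ = -δ`; else `ρ = σ₂` if `σ₂ r = -r`; else `ρ = σ₁ * σ₂`. So `ρ r = -r`, `ρ δ = -δ`, `δ ≠ 0`. `ρ a = ε₁ b`,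
`ρ b = ε₂ a` (`ε x` is `x` or `x̄`), `ρ δ = ε₁ ε₂ δ`, so exactly one of the two is barred, and in both cases `ρ (ρ a) = ā`. -/
def S_ROT : Prop := ∀ (L : Type) [Field L] [NumberField L] [IsGalois ℚ L] (q : ℕ) (_ : 1 ≤ q)
  (A B : ℤ) (a : L), Rt q A B a → ¬ IsSquare (DD A B) → ¬ IsSquare (DP q A B) →
  ∃ ρ : L ≃ₐ[ℚ] L, ρ (ρ a) = (q : L) / a

/-- SWP (80 lines), swaps. `H` = the stabiliser of `a`. PROOF. `x = τ₀ a₁`; `x ≠ ā₁` by the second hypothesis, `x ≠ a₁`, so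
`x + q/x ≠ a₁ + q/a₁` (`eq_or_bar`), `x + q/x = -A₁ - t₁` (`Rt.two`). Let `τ ∈ H`. `τ a₁ ∈ {a₁, x, x̄}`. (1) `τ a₁ = a₁`: `τ x ∈ {x, x̄}`
(`τ` fixes `t₁`, so `x + q/x`); if `τ x = x̄` then `τ₀⁻¹ τ τ₀ ∈ H` maps `a₁` to `τ₀⁻¹ x̄ = ā₁`, excluded. (2) `τ a₁ = x̄`: `τ₀⁻¹ τ ∈ H` maps `a₁` to
`ā₁`, excluded. (3) `τ a₁ = x`: `τ₀⁻¹ τ ∈ H` fixes `a₁`, so `x` by (1), `τ x = τ₀ x`; and `τ₀ x ∈ {a₁, ā₁}` (`τ₀ (x + q/x) = t₁`), `τ₀ x = τ₀² a₁ ≠ ā₁`. -/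
def S_SWP : Prop := ∀ (L : Type) [Field L] [NumberField L] [IsGalois ℚ L] (q : ℕ) (_ : 1 ≤ q)
  (A₁ B₁ : ℤ) (a a₁ : L), Rt q A₁ B₁ a₁ → (∀ τ : L ≃ₐ[ℚ] L, τ a = a → τ a₁ ≠ (q : L) / a₁) →
  (∃ τ : L ≃ₐ[ℚ] L, τ a = a ∧ τ a₁ ≠ a₁) →
  ∃ x : L, Rt q A₁ B₁ x ∧ x + (q : L) / x ≠ a₁ + q / a₁ ∧
    x + (q : L) / x = - A₁ - (a₁ + q / a₁) ∧ (∃ τ : L ≃ₐ[ℚ] L, τ a = a ∧ τ a₁ = x) ∧
    ∀ τ : L ≃ₐ[ℚ] L, τ a = a → (τ a₁ = a₁ ∧ τ x = x) ∨ (τ a₁ = x ∧ τ x = a₁)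

/-- CHR (70 lines), a quadratic number in `ℚ(a)`. PROOF. `y ≠ 0`, `σ y = ± y` for all `σ`. Let `ρ` with `ρ (ρ a) = ā`. If `σ r = r` then `σ y = y`:
`σ a ∈ {a, ā}` (`r ≠ 0`); for `σ a = a` the hypothesis; for `σ a = ā`: `(ρ * ρ)⁻¹ * σ` fixes `a`, so `y`, and `ρ (ρ y) = y`. Some `σ` has
`σ y = -y` (else `N` is a square). If `σ₀ r = -r` and `σ₀ y = y` then for this `σ`: `σ r = -r`, so `σ * σ₀⁻¹` fixes `r`, so `y`, `σ y = y`, a contradiction.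
So `σ y = -y` whenever `σ r = -r`, and `r y` is fixed by all `σ`: `int_of_fixed`. -/
def S_CHR : Prop := ∀ (L : Type) [Field L] [NumberField L] [IsGalois ℚ L] (q : ℕ) (_ : 1 ≤ q)
  (A B : ℤ) (a : L), Rt q A B a → ¬ IsSquare (DD A B) →
  (∃ ρ : L ≃ₐ[ℚ] L, ρ (ρ a) = (q : L) / a) → ∀ (y : L) (N : ℤ), y ^ 2 = (N : L) →
  ¬ IsSquare N → (∀ τ : L ≃ₐ[ℚ] L, τ a = a → τ y = y) →
  ∃ n : ℤ, (2 * (a + (q : L) / a) + A) * y = n ∧ n ^ 2 = DD A B * N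

/-- REF (150 lines), reflex pairs. PROOF. `SWP` for `(a, a₁)` gives `x`, and for `(a₁, a)` it gives a root `b` of `A, B`.
`δ₁ = (a₁ - ā₁) (x - x̄)`, `δ = (a - ā) (b - b̄)`, `r₁ = 2 t₁ + A₁`. Every `τ ∈ H = Stab a` fixes `δ₁` (by `SWP` it fixes or swaps `a₁`, `x`), so `CHR`
(with `ROT`) gives `r δ₁ = n`, `n² = DD A B * DP q A₁ B₁`; in the same way `r₁ δ = m`, `m² = DD A₁ B₁ * DP q A B`. The swap `τ ∈ H`, `τ a₁ = x`, has
`τ r₁ = -r₁`, `τ δ₁ = δ₁`, so `r₁ δ₁ ≠ 0` is not fixed and `DD A₁ B₁ * DP q A₁ B₁` is not a square (`fixed_of_sq`); the same for `A, B`.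
Let `w = a₁ + x - ā₁ - x̄` and `y = (a - ā) w`. `(a - ā)² = (u - A r)/2`, `w² = u₁ + 2 δ₁` with `u = A² - 2B - 8q`, `u₁ = A₁² - 2B₁ - 8q`.
`H` fixes `y`, and `c y = y` (`c` maps all these roots `z` to `z̄`). So every `σ` with `σ r = r` fixes `y` (`σ ∈ H` or `c⁻¹ * σ ∈ H`). Choose `σ` with
`σ r = -r`. Then `σ y` is also fixed by the elements fixing `r`, and `σ y ↔ y` are exchanged by the others; so `y + σ y` is fixed by all.
`σ δ₁ = -δ₁` (as `r δ₁ = n ≠ 0`). If `σ t₁ = t₁`: `σ a₁ = ε₁ a₁`, `σ x = ε₂ x`, else `σ a₁ = ε₁ x`, `σ x = ε₂ a₁`; exactly one is barred; so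
`σ w = ± ((a₁ - ā₁) - (x - x̄))`, `w · σ w = ± ((a₁ - ā₁)² - (x - x̄)²) = ± A₁ r₁`. `σ a = b` or `b̄`, so `(a - ā) · σ (a - ā) = ± δ`. So
`y · σ y = ± A₁ m`. `y² + (σ y)² = ((u - A r)(u₁ + 2 δ₁) + (u + A r)(u₁ - 2 δ₁))/2 = u u₁ - 2 A n`. So `(y + σ y)² = u u₁ + 2 A (-n) + 2 A₁ (± m)`:
`sq_of_fixed`. -/
def S_REF : Prop := ∀ (L : Type) [Field L] [NumberField L] [IsGalois ℚ L] (q : ℕ) (_ : 1 ≤ q)
  (A B A₁ B₁ : ℤ) (a a₁ : L), Rt q A B a → Rt q A₁ B₁ a₁ → ¬ IsSquare (DD A B) →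
  ¬ IsSquare (DP q A B) → ¬ IsSquare (DD A₁ B₁) → ¬ IsSquare (DP q A₁ B₁) →
  (∃ c : L ≃ₐ[ℚ] L, ∀ z : L, Rt q A B z ∨ Rt q A₁ B₁ z → c z = (q : L) / z) →
  (∀ τ : L ≃ₐ[ℚ] L, τ a = a → τ a₁ ≠ (q : L) / a₁) →
  (∀ τ : L ≃ₐ[ℚ] L, τ a₁ = a₁ → τ a ≠ (q : L) / a) →
  (∃ τ : L ≃ₐ[ℚ] L, τ a = a ∧ τ a₁ ≠ a₁) → (∃ τ : L ≃ₐ[ℚ] L, τ a₁ = a₁ ∧ τ a ≠ a) →
  ¬ IsSquare (DD A B * DP q A B) ∧ ¬ IsSquare (DD A₁ B₁ * DP q A₁ B₁) ∧
  ∃ n m : ℤ, n ^ 2 = DD A B * DP q A₁ B₁ ∧ m ^ 2 = DP q A B * DD A₁ B₁ ∧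
    IsSquare ((A ^ 2 - 2 * B - 8 * q) * (A₁ ^ 2 - 2 * B₁ - 8 * q) + 2 * A * n + 2 * A₁ * m)

def M_REF : Prop := S_ROT → S_SWP → S_CHR → S_REF

/-- SQF (80 lines), the same field. PROOF. `σ₀` with `σ₀ r = -r`; `b = σ₀ a`, `b₁ = σ₀ a₁`. If `σ r = r` then `σ a ∈ {a, ā}`, so `σ a₁ ∈ {a₁, ā₁}` (`σ` or
`c⁻¹ * σ` fixes `a`, so `a₁`), `σ r₁ = r₁`. So `σ₀ r₁ = -r₁` (otherwise `r₁` would be fixed by all: every `σ` fixes `r` or `σ * σ₀⁻¹` does). `δ = (a - ā)(b - b̄)`,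
`δ₁ = (a₁ - ā₁)(b₁ - b̄₁)`. For every `τ`: `τ a ∈ {a, ā, b, b̄}`, and then `τ a₁` is the corresponding one of `a₁, ā₁, b₁, b̄₁` (compare with `1, c, σ₀, σ₀ c`);
apply this to `τ` and `τ * σ₀`: the signs of `τ δ` and `τ δ₁` are equal. So `δ δ₁` is fixed, `sq_of_fixed`. -/
def S_SQF : Prop := ∀ (L : Type) [Field L] [NumberField L] [IsGalois ℚ L] (q : ℕ) (_ : 1 ≤ q)
  (A B A₁ B₁ : ℤ) (a a₁ : L), Rt q A B a → Rt q A₁ B₁ a₁ → ¬ IsSquare (DD A B) →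
  ¬ IsSquare (DD A₁ B₁) →
  (∃ c : L ≃ₐ[ℚ] L, c a = (q : L) / a ∧ c a₁ = (q : L) / a₁) →
  (∀ τ : L ≃ₐ[ℚ] L, τ a = a → τ a₁ = a₁) →
  (∃ σ : L ≃ₐ[ℚ] L, σ a + (q : L) / σ a = - A - (a + q / a) ∧
    σ a₁ + (q : L) / σ a₁ = - A₁ - (a₁ + q / a₁)) ∧ IsSquare (DP q A B * DP q A₁ B₁)

/-! ### slopes -/

section

variable (L : Type) [Field L] [NumberField L] [IsGalois ℚ L]

/-- the standing hypotheses on `v` -/
structure Pv (p : ℕ) (v : AbsoluteValue L ℝ) : Prop where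
  pr : p.Prime
  odd : p ≠ 2
  na : IsNonarchimedean v
  lt : v (p : L) < 1

end

/-- SAM (130 lines), the same field: orthogonal or equal or opposite. PROOF. Write `G σ = F (σ a) * F (σ a₁)`. If `σ a = τ a` then `σ a₁ = τ a₁`. `b = σ₀ a`, `b₁ = σ₀ a₁`
with `σ₀` from `SQF`. `σ a ∈ {a, ā, b, b̄}` for every `σ`, and these are 4 different numbers (`DP ≠ 0`, `r ≠ 0`); `G σ = F a * F a₁` in the first two cases
(`c a₁ = ā₁`, `F ā = - F a`), `G σ = F b * F b₁` in the last two. The numbers of the `σ` with `σ a = y` are equal for the four `y` (`σ ↦ σ c`,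
`σ ↦ σ₀ σ`, ..: or: `∑ G σ = ∑ G (σ₀ * σ)`, and `G σ + G (σ₀ * σ) = F a F a₁ + F b F b₁` for all `σ`, because
`σ₀` exchanges the two cases; so no counting is needed). So if `F a F a₁ + F b F b₁ = 0` the sum is `0`. By `LOC`:
`p ∤ B`, `p ∤ B₁`: all four are `± 1`; if `F a F a₁ = F b F b₁ = ε` then `F (σ a₁) = ε F (σ a)` for all `σ`. `p ∣ B`, `p ∤ A`, `p ∣ B₁`, `p ∤ A₁`: exactly one of
`F a`, `F b` is zero, the other one is `± 1` (`t + t' = -A` has `v = 1` and `t t' = B` has `v < 1`: exactly one of `v t`, `v t'` is `1`), the same for `a₁`, `b₁`;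
if `F a = 0 = F a₁` or `F b = 0 = F b₁` the functions are equal or opposite, otherwise both products are `0`. `p ∤ B`, `p ∣ B₁`, `p ∤ A₁` (or conversely) is
impossible (`SQF` and `INT`). If `p ∣ A, B` or `p ∣ A₁, B₁` all products are `0`. -/
def S_SAM : Prop := ∀ (L : Type) [Field L] [NumberField L] [IsGalois ℚ L]
  (v : AbsoluteValue L ℝ) (p : ℕ), Pv L p v → ∀ (A B A₁ B₁ : ℤ) (a a₁ : L),
  Rt p A B a → Rt p A₁ B₁ a₁ → ¬ IsSquare (DD A B) → ¬ IsSquare (DD A₁ B₁) →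
  (∃ c : L ≃ₐ[ℚ] L, c a = (p : L) / a ∧ c a₁ = (p : L) / a₁) →
  (∀ τ : L ≃ₐ[ℚ] L, τ a = a → τ a₁ = a₁) →
  (∀ σ : L ≃ₐ[ℚ] L, F p v (σ a) = F p v (σ a₁)) ∨
    (∀ σ : L ≃ₐ[ℚ] L, F p v (σ a) = - F p v (σ a₁)) ∨
    ∑ σ : L ≃ₐ[ℚ] L, F p v (σ a) * F p v (σ a₁) = 0

def M_SAM : Prop := S_LOC → S_INT → S_SQF → S_SAM

/-- ELL (100 lines), elliptic type. PROOF. If `p ∣ A, B`: `F = 0` (`LOC`). Case `DD` a square: `r` is fixed, `t ∈ ℚ`; `σ a ∈ {a, ā}` for all `σ` (if `r = 0` too: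
`σ t = t`), so `F (σ (τ a)) = ± F (σ a)` with the sign of `τ` (`F (σ ā) = - F (σ a)`); by `LOC` `F (σ a)` is `± 1`, or `p ∣ B`, `p ∤ A` and
`v (σ t) = v t` decides (`σ t = t`). Case `DD` not a square, `DP` a square: then `p ∤ B` (`INT`, or `p ∣ A, B`), `F = ± 1` at all roots. `σ₀ r = -r`, `b = σ₀ a`, `δ` is fixed by
all `σ`. `τ a ∈ {a, ā, b, b̄}`. The cases `a`, `ā` are clear. For every `σ`: (`σ a`, `σ b`) is (`ε a`, `ε b`) or (`ε b`, `ε a`), with the same `ε`, because `σ δ = δ` (`δ ≠ 0`; if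
`δ = 0` then `a = ā` or `b = b̄`, so `σ₀`: both, `F a = 0`, not possible); so `F (σ a) F (σ b) = F a F b` for all `σ`, and `F (σ b) = (F a F b) F (σ a)`. -/
def S_ELL : Prop := ∀ (L : Type) [Field L] [NumberField L] [IsGalois ℚ L]
  (v : AbsoluteValue L ℝ) (p : ℕ), Pv L p v → ∀ (A B : ℤ) (a : L),
  Rt p A B a → IsSquare (DD A B) ∨ IsSquare (DP p A B) →
  (∀ τ : L ≃ₐ[ℚ] L, (∀ σ : L ≃ₐ[ℚ] L, F p v (σ (τ a)) = F p v (σ a)) ∨
    (∀ σ : L ≃ₐ[ℚ] L, F p v (σ (τ a)) = - F p v (σ a))) ∧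
  ((∀ σ : L ≃ₐ[ℚ] L, F p v (σ a) = 1 ∨ F p v (σ a) = -1) ∨
    ∀ σ : L ≃ₐ[ℚ] L, F p v (σ a) = 0)

def M_ELL : Prop := S_LOC → S_INT → S_ELL

/-- FUN (60 lines), functions on a finite group. PROOF. The sum over `σ` of `k (σ * τ)` is the sum of `k σ` (`Equiv.sum_comp (Equiv.mulRight τ)`).
(1) `k = f g`: `k (σ τ) = ± k σ`. If the sign is `-` for some `τ` the sum is zero. Else `k τ = k 1 = ± 1` for all `τ`, and `f τ = ± f 1 = ± 1`, so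
`g τ = k 1 * f τ` (`f τ ^ 2 = 1`). (2) `f (σ ρ ρ) = f σ` (the sign of `ρ` twice). (3) clear. -/
def S_FUN : Prop := ∀ (Γ : Type) [Group Γ] [Fintype Γ] (f g : Γ → ℝ),
  ((∀ τ, (∀ σ, f (σ * τ) = f σ) ∨ (∀ σ, f (σ * τ) = - f σ)) →
    (∀ τ, (∀ σ, g (σ * τ) = g σ) ∨ (∀ σ, g (σ * τ) = - g σ)) → (f 1 = 1 ∨ f 1 = -1) →
    (g 1 = 1 ∨ g 1 = -1) → (∀ σ, f σ = g σ) ∨ (∀ σ, f σ = - g σ) ∨ ∑ σ, f σ * g σ = 0) ∧
  ((∀ τ, (∀ σ, f (σ * τ) = f σ) ∨ (∀ σ, f (σ * τ) = - f σ)) →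
    (∃ ρ, ∀ σ, g (σ * (ρ * ρ)) = - g σ) → ∑ σ, f σ * g σ = 0) ∧
  ((∃ τ, (∀ σ, f (σ * τ) = f σ) ∧ ∀ σ, g (σ * τ) = - g σ) → ∑ σ, f σ * g σ = 0)

/-- ORT (130 lines), orthogonality. PROOF. `f σ = F (σ a)`, `g σ = F (σ a₁)`; `f (σ * τ) = F (σ (τ a))`. If one of the pairs has `p ∣ A, B` its function is `0` (`LOC`). `c` from `CON`.
Both elliptic (`DD` or `DP` a square): `ELL`, `FUN` (1) (or a function is `0`). One elliptic, the other one not: `ROT` for the latter, `F (σ (ρ (ρ a₁))) = F (σ ā₁) =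
- F (σ a₁)` (`LOC` (4)), `FUN` (2) (the other order: commute the product). Both not: if some `τ` fixes `a` and maps `a₁` to `ā₁`, `FUN` (3), the same with `a`, `a₁`
exchanged; else if the stabiliser of `a` fixes `a₁`, `SAM`; if the stabiliser of `a₁` fixes `a`, `SAM` in the other order; else `REF` gives `Reflex`. -/
def S_ORT : Prop := ∀ (L : Type) [Field L] [NumberField L] [IsGalois ℚ L]
  (v : AbsoluteValue L ℝ) (p : ℕ), Pv L p v → ∀ (A B A₁ B₁ : ℤ) (a a₁ : L),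
  W2 p A B → W2 p A₁ B₁ → Rt p A B a → Rt p A₁ B₁ a₁ → ¬ Reflex p A B A₁ B₁ →
  (∀ σ : L ≃ₐ[ℚ] L, F p v (σ a) = F p v (σ a₁)) ∨
    (∀ σ : L ≃ₐ[ℚ] L, F p v (σ a) = - F p v (σ a₁)) ∨
    ∑ σ : L ≃ₐ[ℚ] L, F p v (σ a) * F p v (σ a₁) = 0

def M_ORT : Prop := S_LOC → S_CON → S_ROT → S_REF → S_SAM → S_ELL → S_FUN → S_ORT

/-- CMB (90 lines), partners. PROOF. If `x ≠ 0`: take the product of the sum with `x`: `∑ x x + ∑_(y ∈ l) ∑ x y = 0`, the first term is positive, so some `y ∈ l` has `∑ x y < 0`, hence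
`y = -x` (`y = x` gives a positive number). If `x = 0`: induction on the length of `l`. If some `y ∈ l` is `0` take it. Else let `l = y :: l'`, `y ≠ 0`; the sum of `y :: l'` is `0`, so by
the first part (for `y` in place of `x`, the list `l'`) there is `z ∈ l'` with `z = -y`; remove `y` and `z` (`l'.erase z`, up to permutation): the rest has odd length
and sum `0` (with `x = 0`), so it is not empty and contains an element equal to `-x = 0` by induction. -/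
def S_CMB : Prop := ∀ (Γ : Type) [Fintype Γ] (l : List (Γ → ℝ)) (x : Γ → ℝ),
  (∀ y ∈ x :: l, ∀ z ∈ x :: l, y = z ∨ y = - z ∨ ∑ σ, y σ * z σ = 0) →
  (x :: l).sum = 0 → Odd l.length → ∃ y ∈ l, y = - x

/-! ### algebraic numbers -/

/-- the field of algebraic numbers -/
abbrev Qb : Type := AlgebraicClosure ℚ

/-- LFN (60 lines), finite Galois extensions. PROOF. `L` = the field generated by all roots of the minimal polynomials of the elements of `Z` (or `normalClosure`, or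
`IntermediateField.adjoin ℚ` of the union of the root sets): finite, normal, and `ℚ` is perfect. An automorphism of `L` extends to `Qb`
(`AlgEquiv.liftNormal`, `AlgEquiv.liftNormal_commutes`). -/
def S_LFN : Prop := ∀ Z : Finset Qb, ∃ L : IntermediateField ℚ Qb, FiniteDimensional ℚ L ∧
  IsGalois ℚ L ∧ (∀ z ∈ Z, z ∈ L) ∧
  ∀ τ : L ≃ₐ[ℚ] L, ∃ σ : Qb ≃ₐ[ℚ] Qb, ∀ x : L, σ (x : Qb) = (τ x : Qb)

/-- PRT (150 lines), partners in `Qb`. PROOF. `LFN` for `Z` = the elements of `x :: l`. `v` restricted to `L` is an absolute value (`v.comp` with the injective inclusion) and satisfies `Pv`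
(`NumberField L`: characteristic zero and finite). For `y ∈ x :: l` the function `g_y τ = F (τ y)`, `τ : L ≃ₐ[ℚ] L`, is the restriction of the slope
function: `F p v (σ y)` for an extension `σ` of `τ`. The hypothesis gives `∑ g_y = 0`, `ORT` the orthogonality (`g = g'`, `g = - g'` by `funext`), `CMB` gives `y ∈ l` with `g_y = - g_x`.
For `σ : Qb ≃ₐ[ℚ] Qb` the restriction of `σ` to `L` (`AlgEquiv.restrictNormal`) gives the claim for all `σ`. -/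
def S_PRT : Prop := ∀ (v : AbsoluteValue Qb ℝ) (p : ℕ) (_ : p.Prime) (_ : p ≠ 2)
  (_ : IsNonarchimedean v) (_ : v (p : Qb) < 1) (S : ℤ → ℤ → Prop)
  (_ : ∀ A B, S A B → W2 p A B) (_ : ∀ A B A₁ B₁, S A B → S A₁ B₁ → ¬ Reflex p A B A₁ B₁)
  (x : Qb) (l : List Qb) (_ : ∀ y ∈ x :: l, ∃ A B, S A B ∧ Rt p A B y)
  (_ : ∀ σ : Qb ≃ₐ[ℚ] Qb, ((x :: l).map fun y => F p v (σ y)).sum = 0) (_ : Odd l.length),
  ∃ y ∈ l, ∀ σ : Qb ≃ₐ[ℚ] Qb, F p v (σ y) = - F p v (σ x)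

def M_PRT : Prop := S_ORT → S_CMB → S_LFN → S_PRT

/-- UNT (150 lines), slopes determine the number up to roots of unity. This is `Pool.Agent.TJ4.S_UNI4` for a list of two elements, with `FL q` replaced by `W2`: import
`Pool.Agent.TJ4.UNI4` and the files it imports, and copy the proof (`Pool/Agent/TJ4/UNI4.lean`); the membership in `FL` is used there only for: `x`, `y` are not zero, algebraic integers
(`x² - t x + p = 0`, `t² + A t + B = 0`), and `‖ι x‖ ^ 2 = p` for all `ι : Qb →+* ℂ` (`S_REA`: `ι t` is real with square `≤ 4 p`, see the doc string of `CON`; or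
`TJ2.t_EMB` for `X² + C A * X + C B ∈ RW 2 p`). `u = x y / p`: `v (σ u) = 1` for all `σ`, so `u` is an algebraic integer and `‖ι u‖ = 1`, `u ^ N = 1` (`TJ3.t_KRO`). -/
def S_UNT : Prop := ∀ (v : AbsoluteValue Qb ℝ) (p : ℕ) (_ : p.Prime)
  (_ : IsNonarchimedean v) (_ : v (p : Qb) < 1) (A B A₁ B₁ : ℤ) (_ : W2 p A B)
  (_ : W2 p A₁ B₁) (x y : Qb) (_ : Rt p A B x) (_ : Rt p A₁ B₁ y)
  (_ : ∀ σ : Qb ≃ₐ[ℚ] Qb, F p v (σ y) = - F p v (σ x)),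
  ∃ N : ℕ, 1 ≤ N ∧ (x * y) ^ N = (p : Qb) ^ N

def M_UNT : Prop := S_REA → S_UNT

/-- EXV (40 lines): `Pool.Agent.TJ4.t_EXV` in the present language (import `Pool.Agent.TJ4.EXV`); or: the norm of `PadicAlgCl p` composed with an embedding of `Qb`. -/
def S_EXV : Prop := ∀ p : ℕ, p.Prime → ∃ v : AbsoluteValue Qb ℝ, IsNonarchimedean v ∧
  v (p : Qb) < 1

/-- admissible complex numbers -/
def AdS (p : ℕ) (S : ℤ → ℤ → Prop) (z : ℂ) : Prop :=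
  ∃ N : ℕ, 1 ≤ N ∧ (z ^ (2 * N) = (p : ℂ) ^ N ∨ ∃ A B, S A B ∧ ∃ r : ℂ, Rt p A B r ∧ z ^ N = r ^ N)

/-- PAR (150 lines), the partner property. PROOF. `v` from `EXV`. `S' = S` or `(A, B) = (0, -4 p)`: `W2` and no reflex pairs (`Gen` fails, `p ∣ A, B`). `ι : Qb →+* ℂ` an embedding;
every root `r : ℂ` is `ι` of a root in `Qb` (algebraic over `ℚ`: `ι` maps onto the algebraic numbers, e.g. factor the polynomials over `Qb`). `z ^ (2 N) = p ^ N` gives `z ^ (2 N) = ρ ^ (2 N)` with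
`ρ² = p`, `Rt p 0 (-4 p) ρ`. So there are `x`, `l'` in `Qb`, roots for `S'`, and one `M ≥ 1` with `z ^ M = (ι x) ^ M`, and the same for the elements of `l`, `l'` in the same order. So
`(x * l'.prod) ^ (N M) = (p ^ j) ^ (N M)` in `Qb`. Apply `log v (σ ·)`: `∑ log v (σ y) = j log v p`, so `∑ F (σ y) = 2 j - 2 j = 0`. `PRT`: `y'` in `l'` with the opposite
slopes, `UNT`: `(x y') ^ N' = p ^ N'`, and the corresponding `y ∈ l` has `(z y) ^ (M N') = p ^ (M N')`. -/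
def S_PAR : Prop := ∀ (p : ℕ) (_ : p.Prime) (_ : p ≠ 2) (S : ℤ → ℤ → Prop)
  (_ : ∀ A B, S A B → W2 p A B) (_ : ∀ A B A₁ B₁, S A B → S A₁ B₁ → ¬ Reflex p A B A₁ B₁),
  AlmostAll.Par p (AdS p S)

def M_PAR : Prop := S_PRT → S_UNT → S_EXV → S_PAR

/-- CNV (90 lines), polynomials. PROOF. `h` is monic of degree 2: `h = X² + C A X + C B`, `A = h.coeff 1`, `B = h.coeff 0`, so the last claim. `W2`: the complex roots
`(-A ± √DD)/2`: if `DD < 0` they are not real; so `DD ≥ 0`; they are real numbers `t, t'` with `|t|, |t'| ≤ 2 √q`, `DP = (4q - t²)(4q - t'²) ≥ 0`, `B = t t' ≥ -4q`,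
`A² = (t + t')² ≤ 16 q`. -/
def S_CNV : Prop := ∀ (q : ℕ) (_ : 1 ≤ q) (h : ℤ[X]), h ∈ AlmostAll.RW 2 q →
  W2 q (h.coeff 1) (h.coeff 0) ∧ ∀ (r : ℂ), r ≠ 0 → aeval (r + (q : ℂ) / r) h = 0 →
    Rt q (h.coeff 1) (h.coeff 0) r

/-! ### no reflex pairs -/

/-- NR3 (60 lines): a finite check. `|A| ≤ 6`, `-12 ≤ B ≤ 12` (`4 B ≤ A² ≤ 48`); state it for a Boolean function and use `decide +kernel`. (There are only 16 pairs with `Gen`, and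
already `DD A B * DP q A₁ B₁` and `DP q A B * DD A₁ B₁` are never both squares.) `IsSquare n ↔ ∃ k ≤ ..` or `Int.sqrt n * Int.sqrt n = n`. -/
def S_NR3 : Prop := ∀ A B A₁ B₁ : ℤ, W2 3 A B → W2 3 A₁ B₁ → ¬ Reflex 3 A B A₁ B₁

/-- NR7 (60 lines): the same, `|A| ≤ 10`, `-28 ≤ B ≤ 28`, 102 pairs with `Gen`; again never both squares. (Precompute the list of the 102 pairs in Lean.) -/
def S_NR7 : Prop := ∀ A B A₁ B₁ : ℤ, W2 7 A B → W2 7 A₁ B₁ → ¬ Reflex 7 A B A₁ B₁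

/-- NR11 (80 lines): the same, `|A| ≤ 13`, `-44 ≤ B ≤ 44`, 234 pairs with `Gen`; 8 ordered pairs `(A, B)`, `(A₁, B₁)` have both squares (`(±2, -4)` with `(±3, -20)`), there the
third number is not a square for all signs of `n = ± √..`, `m = ± √..`. -/
def S_NR11 : Prop := ∀ A B A₁ B₁ : ℤ, W2 11 A B → W2 11 A₁ B₁ → ¬ Reflex 11 A B A₁ B₁

/-- NRN (30 lines): the surfaces which are not both ordinary and absolutely simple. PROOF. In a reflex pair both satisfy `Gen`, so `p ∣ B`, `p ∤ A`, `p ∣ B₁`, `p ∤ A₁`; `INT` (3). -/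
def S_NRN : Prop := ∀ p : ℕ, p.Prime → p ≠ 2 → ∀ A B A₁ B₁ : ℤ,
  ((p : ℤ) ∣ B ∨ IsSquare (DD A B) ∨ IsSquare (DP p A B)) →
  ((p : ℤ) ∣ B₁ ∨ IsSquare (DD A₁ B₁) ∨ IsSquare (DP p A₁ B₁)) → ¬ Reflex p A B A₁ B₁

def M_NRN : Prop := S_INT → S_NRN

end

end Pool.Agent.GT2
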