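import Pool.Agent.GT2.St
import Pool.Agent.TJ4.UNI4
import Pool.Agent.TJ4.SLP
import Pool.Agent.TJ4.LOC

/-!
# GT2: slopes determine the number up to roots of unity (MP_cb388a_ag)
-/

set_option autoImplicit false

open Polynomial

namespace Pool.Agent.GT2

noncomputable section

namespace UNTAux

/-- a root is an algebraic integer -/
lemma integral {p : ℕ} {A B : ℤ} {x : Qb} (hx : Rt p A B x) : IsIntegral ℤ x := by
  have hx0 := hx.1
  have ht : IsIntegral ℤ (x + (p : Qb) / x) := by
    refine ⟨X ^ 2 + (C A * X + C B), ?_, ?_⟩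
    · refine monic_X_pow_add ?_
      refine (degree_add_le _ _).trans_lt (max_lt ?_ ?_)
      · exact (degree_C_mul_X_le _).trans_lt (by norm_num)
      · exact degree_C_le.trans_lt (by norm_num)
    · have h := hx.2
      simp only [eval₂_add, eval₂_pow, eval₂_X, eval₂_mul, eval₂_C]
      rw [eq_intCast, eq_intCast]
      linear_combination h
  have h1 : IsIntegral (integralClosure ℤ Qb) x := by
    obtain ⟨t, htt⟩ : ∃ t : integralClosure ℤ Qb,
        (algebraMap (integralClosure ℤ Qb) Qb) t = x + (p : Qb) / x :=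
      ⟨⟨x + (p : Qb) / x, ht⟩, rfl⟩
    refine ⟨X ^ 2 + (C (-t) * X + C (p : integralClosure ℤ Qb)), ?_, ?_⟩
    · refine monic_X_pow_add ?_
      refine (degree_add_le _ _).trans_lt (max_lt ?_ ?_)
      · exact (degree_C_mul_X_le _).trans_lt (by norm_num)
      · exact degree_C_le.trans_lt (by norm_num)
    · simp only [eval₂_add, eval₂_pow, eval₂_X, eval₂_mul, eval₂_C]
      rw [map_neg, map_natCast, htt]
      field_simp
      ring
  exact isIntegral_trans x h1

/-- the complex absolute values of a root -/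
lemma normsq (hREA : S_REA) {p : ℕ} (hp : 1 ≤ p) {A B : ℤ} (hW : W2 p A B) {x : Qb}
    (hx : Rt p A B x) (ι : Qb →+* ℂ) : ‖ι x‖ ^ 2 = p := by
  have hx0 := hx.1
  have hz0 : ι x ≠ 0 := (map_ne_zero ι).2 hx0
  have h1 : ι (x + (p : Qb) / x) = ι x + (p : ℂ) / ι x := by
    rw [map_add, map_div₀, map_natCast]
  have h2 : (ι x + (p : ℂ) / ι x) ^ 2 + A * (ι x + (p : ℂ) / ι x) + B = 0 := by
    have h := congrArg ι hx.2
    rw [map_add, map_add, map_pow, map_mul, h1, map_intCast, map_intCast, map_zero] at h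
    exact h
  obtain ⟨him, hre⟩ := hREA p hp A B hW _ h2
  set z := ι x with hz
  set T := z + (p : ℂ) / z with hT
  have h3 : z ^ 2 - T * z + p = 0 := by
    rw [hT]
    field_simp
    ring
  have h4 := congrArg Complex.re h3
  have h5 := congrArg Complex.im h3
  simp only [Complex.add_re, Complex.sub_re, Complex.mul_re, Complex.natCast_re, Complex.zero_re,
    pow_two, him, zero_mul, sub_zero] at h4
  simp only [Complex.add_im, Complex.sub_im, Complex.mul_im, Complex.natCast_im, Complex.zero_im,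
    pow_two, him, zero_mul, add_zero] at h5
  rw [← Complex.normSq_eq_norm_sq, Complex.normSq_apply]
  by_cases h6 : z.im = 0
  · rw [h6] at h4 ⊢
    have h7 : (2 * z.re - T.re) ^ 2 = T.re ^ 2 - 4 * p := by
      linear_combination 4 * h4
    have h8 : T.re ^ 2 = 4 * p := by
      have := sq_nonneg (2 * z.re - T.re)
      rw [h7] at this
      linarith
    have h9 : 2 * z.re - T.re = 0 := by
      have : (2 * z.re - T.re) ^ 2 = 0 := by
        rw [h7, h8]
        ring
      exact pow_eq_zero_iff (two_ne_zero) |>.1 this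
    have h10 : T.re = 2 * z.re := by linarith
    rw [h10] at h8
    linarith
  · have h7 : T.re = 2 * z.re := by
      have h8 : z.im * (2 * z.re - T.re) = 0 := by linear_combination h5
      rcases mul_eq_zero.1 h8 with h9 | h9
      · exact absurd h9 h6
      · linarith
    rw [h7] at h4
    linarith

end UNTAux

open UNTAux Pool.Agent.TJ4 Pool.Agent.TJ3 Pool.Agent.TJ2 in
theorem t_UNT : M_UNT := by
  intro hREA v p hp hna hlt A B A₁ B₁ hW hW₁ x y hx hy hF
  have hq : IsPrimePow p := hp.isPrimePow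
  have hv : Ab p v := ⟨hna, by rw [hp.minFac_eq]; exact hlt⟩
  obtain ⟨hq0, hq1, -, -, P, hP, hpP, hPmem, -⟩ := t_SLP p v hq hv
  rw [hp.minFac_eq] at hpP
  have hx0 : x ≠ 0 := hx.1
  have hy0 : y ≠ 0 := hy.1
  have hp0 : (p : Qb) ≠ 0 := Nat.cast_ne_zero.2 hp.ne_zero
  have hlog : Real.log (v (p : Qb)) ≠ 0 := (Real.log_neg hq0 hq1).ne
  have hX : IsIntegral ℤ (x * y) := (integral hx).mul (integral hy)
  set u : Qb := x * y / p with hu
  have hYu : (p : Qb) * u = x * y := by
    rw [hu]
    field_simp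
  -- absolute values
  have hvσ : ∀ σ : Qb ≃ₐ[ℚ] Qb, v (σ u) = 1 := by
    intro σ
    have h1 := hF σ
    unfold F at h1
    have hsx : 0 < v (σ x) := v.pos_iff.2 ((map_ne_zero σ).2 hx0)
    have hsy : 0 < v (σ y) := v.pos_iff.2 ((map_ne_zero σ).2 hy0)
    have h2 : Real.log (v (σ x)) + Real.log (v (σ y)) = Real.log (v (p : Qb)) := by
      have h3 : (Real.log (v (σ x)) + Real.log (v (σ y))) / Real.log (v (p : Qb)) = 1 := by
        rw [add_div]
        linarith
      rwa [div_eq_one_iff_eq hlog] at h3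
    rw [← Real.log_mul hsx.ne' hsy.ne'] at h2
    have h4 : v (σ x) * v (σ y) = v (p : Qb) := Real.log_injOn_pos (mul_pos hsx hsy) hq0 h2
    rw [hu, map_div₀, map_mul, map_natCast σ, map_div₀ v, map_mul v, h4, div_self hq0.ne']
  -- `u` is integral
  have huint : IsIntegral ℤ u := by
    have h1 : UNI4_aux.I u = ⊤ := by
      by_contra hne
      obtain ⟨M, hM, hIM⟩ := Ideal.exists_le_maximal _ hne
      have hMp := hM.isPrime
      have hpM : (p : Zb) ∈ M := by
        refine hIM ((UNI4_aux.mem_I u _).2 ⟨⟨x * y, hX⟩, ?_⟩)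
        have h2 : (((p : Zb) : Zb) : Qb) = (p : Qb) := by simp
        rw [h2]
        exact hYu
      obtain ⟨τ, hτ⟩ := t_TRN p P M hp hP hMp hpP hpM
      obtain ⟨s, t, hs, hst⟩ := t_LOC v hv.na (τ⁻¹ u) (hvσ τ⁻¹).le
      have hsP : s ∉ P := by
        rw [hPmem, hs]
        exact lt_irrefl _
      have hsint : IsIntegral ℤ (τ (s : Qb)) := s.2.map τ
      have htint : IsIntegral ℤ (τ (t : Qb)) := t.2.map τ
      have hsM : (⟨τ (s : Qb), hsint⟩ : Zb) ∉ M := fun h => hsP ((hτ s _ rfl).2 h)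
      apply hsM
      apply hIM
      rw [UNI4_aux.mem_I]
      refine ⟨⟨τ (t : Qb), htint⟩, ?_⟩
      show τ (s : Qb) * u = τ (t : Qb)
      rw [← hst, map_mul]
      congr 1
      exact (AlgEquiv.apply_symm_apply τ u).symm
    have h2 : (1 : Zb) ∈ UNI4_aux.I u := by
      rw [h1]
      trivial
    obtain ⟨t, ht⟩ := (UNI4_aux.mem_I u 1).1 h2
    rw [OneMemClass.coe_one, one_mul] at ht
    rw [ht]
    exact t.2
  obtain ⟨N, hN, huN⟩ := t_KRO u huint (by
    intro ι
    have hpp : 1 ≤ p := hp.one_lt.le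
    have h1 := normsq hREA hpp hW hx ι
    have h2 := normsq hREA hpp hW₁ hy ι
    have hpR : (p : ℝ) ≠ 0 := Nat.cast_ne_zero.2 hp.ne_zero
    have h3 : ‖ι u‖ ^ 2 = 1 := by
      rw [hu, map_div₀, map_mul, norm_div, norm_mul, div_pow, mul_pow, h1, h2, map_natCast,
        Complex.norm_natCast]
      field_simp
    exact (pow_eq_one_iff_of_nonneg (norm_nonneg _) two_ne_zero).1 h3)
  refine ⟨N, hN, ?_⟩
  rw [← hYu, mul_pow, huN, mul_one]

end

end Pool.Agent.GT2
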